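import Pool.Agent.Lib.MP_5c318e_ag.Ku.KFam

/-! Complements of hypersurfaces in charted sets are charted, dense and connected. -/

set_option autoImplicit false
set_option linter.unusedSectionVars false

namespace Pool.Agent.Lib.MP_5c318e_ag

open Set Filter Topology Metric
open Pool.Agent.Lib.MP_5c318e_ag.V Pool.Agent.Lib.MP_5c318e_ag.Ku

namespace KOff

theorem const {X α : Type} [TopologicalSpace X] {S : Set X} (hS : IsPreconnected S) {u : X → α}
    (h : ∀ s ∈ S, ∀ᶠ s' in 𝓝[S] s, u s' = u s) {a b : X} (ha : a ∈ S) (hb : b ∈ S) : u a = u b := by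
  let : TopologicalSpace α := ⊥
  have : DiscreteTopology α := ⟨rfl⟩
  exact hS.constant (fun s hs => tendsto_const_nhds.congr' ((h s hs).mono fun _ e => e.symm)) ha hb

theorem glue {X : Type} [TopologicalSpace X] {S G : Set X} (hS : IsPreconnected S) (hG : G ⊆ S)
    (hd : S ⊆ closure G) (h : ∀ s ∈ S, ∃ N ∈ 𝓝[S] s, IsPreconnected (N ∩ G)) :
    IsPreconnected G := by
  choose! N h1 h2 using h
  have ne : ∀ s ∈ S, ∀ W ∈ 𝓝[S] s, (W ∩ G).Nonempty := fun s hs W hW =>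
    (mem_closure_iff_nhdsWithin_neBot.1 (hd hs)).nonempty_of_mem
      (inter_mem (nhdsWithin_mono _ hG hW) self_mem_nhdsWithin)
  choose! c hc using fun s hs => ne s hs _ (h1 s hs)
  refine isPreconnected_of_forall_constant fun f hf x hx y hy => ?_
  have k : ∀ s ∈ S, ∀ g ∈ N s ∩ G, f g = f (c s) := fun s hs g hg =>
    (h2 s hs).constant (hf.mono inter_subset_right) hg (hc s hs)
  rw [k x (hG hx) x ⟨mem_of_mem_nhdsWithin (hG hx) (h1 x (hG hx)), hx⟩,
    k y (hG hy) y ⟨mem_of_mem_nhdsWithin (hG hy) (h1 y (hG hy)), hy⟩]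
  refine const hS (u := fun s => f (c s)) (fun s hs => ?_) (hG hx) (hG hy)
  filter_upwards [eventually_eventually_nhdsWithin.2 (h1 s hs), self_mem_nhdsWithin] with s' a b
  obtain ⟨g, g1, g2⟩ := ne s' b _ (inter_mem a (h1 s' b))
  rw [← k s' b g ⟨g1.2, g2⟩, k s hs g ⟨g1.1, g2⟩]

theorem punct (c : ℂ) {r : ℝ} (hr : 0 < r) : IsPreconnected (ball c r \ {c}) := by
  have e : ball c r \ {c} = (fun z => c + Complex.exp z) '' {z | z.re < Real.log r} := by
    ext w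
    simp only [Set.mem_sdiff, mem_ball_iff_norm, mem_singleton_iff, mem_image, mem_ofPred_eq]
    constructor
    · rintro ⟨h1, h2⟩
      have h3 := sub_ne_zero.2 h2
      exact ⟨Complex.log (w - c), by
        rw [Complex.log_re]; exact Real.log_lt_log (norm_pos_iff.2 h3) h1,
        by rw [Complex.exp_log h3, add_sub_cancel]⟩
    · rintro ⟨z, h1, rfl⟩
      rw [add_sub_cancel_left, Complex.norm_exp, add_eq_left]
      exact ⟨(Real.lt_log_iff_exp_lt hr).1 h1, Complex.exp_ne_zero z⟩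
  rw [e]
  exact (convex_halfSpace_re_lt _).isPreconnected.image _ (by fun_prop)

theorem one {D : Set ℂ} (hD : IsOpen D) (hc : IsPreconnected D) {f : ℂ → ℂ}
    (hf : AnalyticOnNhd ℂ f D) {t0 : ℂ} (h0 : t0 ∈ D) (hne : f t0 ≠ 0) :
    IsPreconnected {t | t ∈ D ∧ f t ≠ 0} := by
  have ev : ∀ s ∈ D, ∀ᶠ t in 𝓝[≠] s, t ∈ D ∧ f t ≠ 0 := fun s hs =>
    Eventually.and (nhdsWithin_le_nhds (hD.mem_nhds hs))
      ((hf s hs).eventually_eq_zero_or_eventually_ne_zero.resolve_left fun h =>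
        hne (hf.eqOn_zero_of_preconnected_of_eventuallyEq_zero hc hs h h0))
  refine glue hc (fun _ h => h.1) (fun s hs => mem_closure_iff_frequently.2
    ((ev s hs).frequently.filter_mono nhdsWithin_le_nhds)) fun s hs => ?_
  obtain ⟨r, hr, hb⟩ := eventually_nhds_iff_ball.1 (eventually_nhdsWithin_iff.1 (ev s hs))
  refine ⟨ball s r, nhdsWithin_le_nhds (ball_mem_nhds s hr), (punct s hr).subset_closure
    (fun t ht => ⟨ht.1, hb t ht.1 ht.2⟩) fun t ht => ?_⟩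
  by_cases e : t = s
  · rw [e]
    exact mem_closure_iff_frequently.2 ((Eventually.and (f := 𝓝[≠] s) (nhdsWithin_le_nhds
      (ball_mem_nhds s hr)) self_mem_nhdsWithin).frequently.filter_mono nhdsWithin_le_nhds)
  · exact subset_closure ⟨ht.1, e⟩

theorem conv {E : Type} [NormedAddCommGroup E] [NormedSpace ℂ E] {D : Set E} (hD : IsOpen D)
    (hc : Convex ℝ D) {f : E → ℂ} (hf : AnalyticOnNhd ℂ f D) :
    IsPreconnected {x | x ∈ D ∧ f x ≠ 0} := by
  refine isPreconnected_of_forall_pair fun a ha b hb => ?_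
  let l : ℂ →ᵃ[ℝ] E := ((LinearMap.toSpanSingleton ℂ E (b - a)).restrictScalars ℝ).toAffineMap +
    AffineMap.const ℝ ℂ a
  have hl : ∀ t, l t = t • (b - a) + a := fun _ => rfl
  have an : ∀ t, AnalyticAt ℂ (fun t => l t) t := fun t =>
    (analyticAt_id.smul analyticAt_const).add analyticAt_const
  have cl : Continuous l := continuous_iff_continuousAt.2 fun t => (an t).continuousAt
  have l0 : l 0 = a := by rw [hl, zero_smul, zero_add]
  have l1 : l 1 = b := by rw [hl, one_smul, sub_add_cancel]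
  have a0 : l 0 ∈ D ∧ f (l 0) ≠ 0 := l0.symm ▸ ha
  have b1 : l 1 ∈ D ∧ f (l 1) ≠ 0 := l1.symm ▸ hb
  refine ⟨l '' {t | t ∈ l ⁻¹' D ∧ f (l t) ≠ 0}, ?_, ⟨0, a0, l0⟩, ⟨1, b1, l1⟩,
    (one (hD.preimage cl) (hc.affine_preimage l).isPreconnected (fun t ht => (hf _ ht).comp (an t))
      (t0 := 0) a0.1 a0.2).image _ cl.continuousOn⟩
  rintro _ ⟨t, ht, rfl⟩
  exact ht

end KOff

variable {A R : Type} [NormedAddCommGroup A] [NormedSpace ℂ A] [CommRing R] {S : Set A}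
  {ev : A → R →+* ℂ}

theorem V.AnEv.ev_ne (hev : AnEv S ev) {r : R} {s : A} (hs : s ∈ S) (h : ev s r ≠ 0) :
    ∀ᶠ s' in 𝓝[S] s, ev s' r ≠ 0 := by
  obtain ⟨f, f1, f2⟩ := hev r s hs
  rw [← f2.self_of_nhdsWithin hs] at h
  filter_upwards [f2, nhdsWithin_le_nhds (f1.continuousAt.eventually_ne h)] with s' a b using a ▸ b

theorem V.Charted.off (h : Charted S) (hev : AnEv S ev) (r : R) :
    Charted {a | a ∈ S ∧ ev a r ≠ 0} :=
  h.inter (O := {a | ev a r ≠ 0}) fun _ hs => hev.ev_ne hs.1 hs.2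

theorem V.Charted.off_loc (h : Charted S) (hev : AnEv S ev) (r : R) {s : A} (hs : s ∈ S) :
    ∃ N ⊆ S, s ∈ N ∧ (∀ s' ∈ N, N ∈ 𝓝[S] s') ∧ IsPreconnected (N ∩ {a | a ∈ S ∧ ev a r ≠ 0}) ∧
      ((∀ a ∈ N, ev a r = 0) ∨ N ⊆ closure {a | a ∈ S ∧ ev a r ≠ 0}) := by
  obtain ⟨m, σ, p, h1, h2, h3, h4⟩ := h s hs
  obtain ⟨f, f1, f2⟩ := hev r s hs
  have e0 := h4.self_of_nhdsWithin hs
  have t := h1.tendsto_in
  rw [e0] at t
  obtain ⟨ρ, hr, hb⟩ := eventually_nhds_iff_ball.1 (h1.1.eventually_continuousAt.and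
    (h1.2.and (h3.and ((t.eventually f2).and ((t.eventually
      (eventually_eventually_nhdsWithin.2 h4)).and
      (((tendsto_nhds_of_tendsto_nhdsWithin t).eventually h2.eventually_continuousAt).and
      (f1.comp_of_eq h1.1 e0).eventually_analyticAt))))))
  have an : AnalyticOnNhd ℂ (f ∘ σ) (ball (p s) ρ) := fun a ha => (hb a ha).2.2.2.2.2.2
  have mem : ∀ a ∈ ball (p s) ρ, (f ∘ σ) a ≠ 0 → σ a ∈ {a | a ∈ S ∧ ev a r ≠ 0} :=
    fun a ha hne => ⟨(hb a ha).2.1, (hb a ha).2.2.2.1 ▸ hne⟩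
  refine ⟨σ '' ball (p s) ρ, ?_, ⟨p s, mem_ball_self hr, e0⟩, ?_, ?_, ?_⟩
  · rintro _ ⟨a, ha, rfl⟩
    exact (hb a ha).2.1
  · rintro _ ⟨a, ha, rfl⟩
    obtain ⟨-, -, k3, -, k5, k6, -⟩ := hb a ha
    have k7 : ∀ᶠ y in 𝓝 (σ a), p y ∈ ball (p s) ρ :=
      k6.eventually (isOpen_ball.mem_nhds (by rwa [k3]))
    filter_upwards [k5, nhdsWithin_le_nhds k7] with y y1 y2 using ⟨p y, y2, y1⟩
  · convert (KOff.conv isOpen_ball (convex_ball _ _) an).image σ
      fun a ha => (hb a ha.1).1.continuousWithinAt using 1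
    refine subset_antisymm ?_ ?_
    · rintro _ ⟨⟨a, ha, rfl⟩, hne⟩
      exact ⟨a, ⟨ha, fun e => hne.2 ((hb a ha).2.2.2.1.symm.trans e)⟩, rfl⟩
    · rintro _ ⟨a, ha, rfl⟩
      exact ⟨⟨a, ha.1, rfl⟩, mem a ha.1 ha.2⟩
  · by_cases z : EqOn (f ∘ σ) 0 (ball (p s) ρ)
    · left
      rintro _ ⟨a, ha, rfl⟩
      exact (hb a ha).2.2.2.1.symm.trans (z ha)
    · right
      rintro _ ⟨a, ha, rfl⟩
      have fr : ∃ᶠ x in 𝓝 a, (f ∘ σ) x ≠ 0 := fun hh => z
        (an.eqOn_zero_of_preconnected_of_eventuallyEq_zero (convex_ball _ _).isPreconnected ha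
          (hh.mono fun _ hx => not_not.1 hx))
      exact mem_closure_of_frequently_of_tendsto ((fr.and_eventually
        (isOpen_ball.mem_nhds ha)).mono fun x hx => mem x hx.2 hx.1) (hb a ha).1

/-- the complement of a hypersurface is dense -/
theorem V.Charted.off_dense (h : Charted S) (hc : IsPreconnected S) (hev : AnEv S ev) {r : R}
    {a : A} (ha : a ∈ S) (hne : ev a r ≠ 0) : S ⊆ closure {a | a ∈ S ∧ ev a r ≠ 0} := fun s hs => by
  refine (KOff.const hc (u := fun s => s ∈ closure {a | a ∈ S ∧ ev a r ≠ 0}) (fun s hs => ?_)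
    ha hs).mp (subset_closure ⟨ha, hne⟩)
  obtain ⟨N, -, n1, n2, -, n3 | n3⟩ := h.off_loc hev r hs
  · have k : ∀ s' ∈ N, s' ∉ closure {a | a ∈ S ∧ ev a r ≠ 0} := fun s' hs' hcl => by
      obtain ⟨g, g1, g2⟩ := (mem_closure_iff_nhdsWithin_neBot.1 hcl).nonempty_of_mem
        (inter_mem (nhdsWithin_mono _ (fun _ h => h.1) (n2 s' hs')) self_mem_nhdsWithin)
      exact g2.2 (n3 g g1)
    filter_upwards [n2 s n1] with s' hs' using (eq_false (k s' hs')).trans (eq_false (k s n1)).symm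
  · filter_upwards [n2 s n1] with s' hs' using (eq_true (n3 hs')).trans (eq_true (n3 n1)).symm

/-- the complement of a hypersurface is connected -/
theorem V.Charted.off_conn (h : Charted S) (hc : IsPreconnected S) (hev : AnEv S ev) (r : R) :
    IsPreconnected {a | a ∈ S ∧ ev a r ≠ 0} := by
  rcases eq_empty_or_nonempty {a | a ∈ S ∧ ev a r ≠ 0} with e | ⟨a, ha⟩
  · rw [e]; exact isPreconnected_empty
  refine KOff.glue hc (fun _ h => h.1) (h.off_dense hc hev ha.1 ha.2) fun s hs => ?_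
  obtain ⟨N, -, n1, n2, n3, -⟩ := h.off_loc hev r hs
  exact ⟨N, n2 s n1, n3⟩

variable {δ ν K M : Type} [Fintype δ] [DecidableEq δ] [Fintype ν] [DecidableEq ν]
  [Field K] [Algebra ℂ K] [Field M] [Algebra ℂ M] [Algebra K M] {B : Cht δ K} {T : Fam B ν M}

/-- nonzero elements of the ring do not vanish identically -/
def Fam.Par.Inj (P : T.Par A R) : Prop := ∀ r : R, r ≠ 0 → ∃ a ∈ P.S0, P.ev a r ≠ 0

theorem Fam.par_inj (T : Fam B ν M)
    (hc : ∀ b : Pt B.O, MvPolynomial.map (b.hom : B.O →+* ℂ) T.finX.Δ ≠ 0) : (T.par hc).Inj :=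
  fun r hr => by
    obtain ⟨b, hb⟩ := not_forall.1 fun h => hr (B.eq_zero (φ := r) h)
    exact ⟨T.embB b, T.par_mem hc b, fun e => hb ((T.par_ev hc b r).symm.trans e)⟩

theorem Fam.Par.Inj.ext {P : T.Par A R} (h : P.Inj) (r : Type) [Fintype r] : (P.ext r).Inj :=
  fun q hq => by
    obtain ⟨m, hm⟩ := MvPolynomial.exists_coeff_ne_zero hq
    obtain ⟨a, ha, hne⟩ := h _ hm
    have h1 : MvPolynomial.map (P.ev a) q ≠ 0 := fun e => hne (by
      rw [← MvPolynomial.coeff_map, e, MvPolynomial.coeff_zero])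
    obtain ⟨t, ht⟩ := not_forall.1 fun k => h1 (MvPolynomial.funext (q := 0) k)
    exact ⟨(a, t), ⟨ha, trivial⟩, fun e => ht (by
      rw [MvPolynomial.eval_map, map_zero]; exact e)⟩

/-- the part of the parameter space where `r` does not vanish -/
theorem Fam.Par.off (P : T.Par A R) (hi : P.Inj) (h : Charted P.S0) (hc : IsPreconnected P.S0)
    {r : R} (hr : r ≠ 0) : Charted {a | a ∈ P.S0 ∧ P.ev a r ≠ 0} ∧
      IsPreconnected {a | a ∈ P.S0 ∧ P.ev a r ≠ 0} ∧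
      P.S0 ⊆ closure {a | a ∈ P.S0 ∧ P.ev a r ≠ 0} := by
  obtain ⟨a, ha, hne⟩ := hi r hr
  exact ⟨h.off P.an r, h.off_conn hc P.an r, h.off_dense hc P.an ha hne⟩

theorem Fam.par_off (T : Fam B ν M)
    (hc : ∀ b : Pt B.O, MvPolynomial.map (b.hom : B.O →+* ℂ) T.finX.Δ ≠ 0) (r : B.O) :
    {a | a ∈ (T.par hc).S0 ∧ (T.par hc).ev a r ≠ 0} = T.embB '' {b | b r ≠ 0} := by
  refine subset_antisymm ?_ ?_
  · rintro _ ⟨⟨b, rfl⟩, h⟩
    exact ⟨b, fun e => h ((T.par_ev hc b r).trans e), rfl⟩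
  · rintro _ ⟨b, h, rfl⟩
    exact ⟨T.par_mem hc b, fun e => h ((T.par_ev hc b r).symm.trans e)⟩

theorem Fam.ext_charted (T : Fam B ν M)
    (hc : ∀ b : Pt B.O, MvPolynomial.map (b.hom : B.O →+* ℂ) T.finX.Δ ≠ 0) (r : Type) [Fintype r] :
    Charted ((T.par hc).ext r).S0 ∧ IsPreconnected ((T.par hc).ext r).S0 :=
  ⟨T.charted.prod, T.isPreconnected.prod isPreconnected_univ⟩

end Pool.Agent.Lib.MP_5c318e_ag
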