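import Pool.Agent.Lib.MP_5c318e_ag.Ku.Norm

/-! Integrals over a power of the fibre as integrals of sums over the sheets. -/

set_option autoImplicit false

namespace Pool.Agent.Lib.MP_5c318e_ag.Ku

open Filter Topology MeasureTheory
open Pool.Agent.Lib.MP_5c318e_ag.V

variable {A R ν κ : Type} [NormedAddCommGroup A] [NormedSpace ℂ A] [CommRing R] [Fintype ν]
  [Fintype κ] (C : FC A R ν) {a : A}

theorem tsum_fin {α β : Type} [AddCommMonoid β] [TopologicalSpace β] {P : α → Prop} {W : Finset α}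
    (h : ∀ w, w ∈ W ↔ P w) (G : α → β) : ∑' w : {w // P w}, G w = ∑ w ∈ W, G w := by
  obtain rfl : P = fun w => w ∈ W := funext fun w => propext (h w).symm
  exact W.tsum_subtype G

theorem FC.ae_fib (ha : a ∈ C.S0) {Q : (κ → Vp ν) → Prop} (h : ∀ᵐ p ∂C.μk a, Q p) :
    ∀ᵐ x : κ × ν → ℂ, ∀ w, pt x w ∈ C.Fk a → Q (pt x w) := by
  obtain ⟨N, h1, h2, h3⟩ := exists_measurable_superset_of_null h
  obtain ⟨m, e⟩ := C.lint a ha κ (N.indicator 1) (measurable_one.indicator h2)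
  rw [lintegral_indicator_one h2] at e
  filter_upwards [(lintegral_eq_zero_iff m).1 (e.symm.trans h3)] with x hx w hw
  by_contra g
  have := ENNReal.tsum_eq_zero.1 hx ⟨w, hw⟩
  rw [Set.indicator_of_mem (h1 g)] at this
  exact one_ne_zero this

variable {W : (κ × ν → ℂ) → Finset (κ → ℂ)}

theorem FC.lint_fin (ha : a ∈ C.S0) (hW : ∀ᵐ x, ∀ w, w ∈ W x ↔ pt x w ∈ C.Fk a)
    {G : (κ → Vp ν) → ENNReal} (hG : AEMeasurable G (C.μk a)) :
    (AEMeasurable fun x => ∑ w ∈ W x, G (pt x w)) ∧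
      ∫⁻ p, G p ∂C.μk a = ∫⁻ x, ∑ w ∈ W x, G (pt x w) := by
  obtain ⟨m, e⟩ := C.lint a ha κ (hG.mk G) hG.measurable_mk
  have k : (fun x : κ × ν → ℂ => ∑' w : {w : κ → ℂ // ∀ k, pt x w k ∈ fset (C.ev a) C.f C.Δ},
      hG.mk G (pt x w)) =ᵐ[volume] fun x => ∑ w ∈ W x, G (pt x w) := by
    filter_upwards [hW, C.ae_fib ha hG.ae_eq_mk] with x h1 h2
    exact (tsum_fin h1 fun w => hG.mk G (pt x w)).trans
      (Finset.sum_congr rfl fun w hw => (h2 w ((h1 w).1 hw)).symm)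
  exact ⟨m.aemeasurable.congr k,
    (lintegral_congr_ae hG.ae_eq_mk).trans (e.trans (lintegral_congr_ae k))⟩

theorem FC.int_nonneg (ha : a ∈ C.S0) (hW : ∀ᵐ x, ∀ w, w ∈ W x ↔ pt x w ∈ C.Fk a)
    {G : (κ → Vp ν) → ℝ} (hG : Integrable G (C.μk a)) (h0 : ∀ p, 0 ≤ G p) :
    (Integrable fun x => ∑ w ∈ W x, G (pt x w)) ∧
      ∫ p, G p ∂C.μk a = ∫ x, ∑ w ∈ W x, G (pt x w) := by
  obtain ⟨m, e⟩ := C.lint_fin ha hW hG.aemeasurable.ennreal_ofReal
  have k : ∀ x : κ × ν → ℂ, ∑ w ∈ W x, ENNReal.ofReal (G (pt x w)) =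
      ENNReal.ofReal (∑ w ∈ W x, G (pt x w)) := fun x =>
    (ENNReal.ofReal_sum_of_nonneg fun w _ => h0 _).symm
  simp only [k] at m e
  have p : ∀ x : κ × ν → ℂ, 0 ≤ ∑ w ∈ W x, G (pt x w) := fun x =>
    Finset.sum_nonneg fun w _ => h0 _
  have sm : AEStronglyMeasurable fun x : κ × ν → ℂ => ∑ w ∈ W x, G (pt x w) := by
    simpa only [ENNReal.toReal_ofReal (p _)] using m.ennreal_toReal.aestronglyMeasurable
  refine ⟨⟨sm, ?_⟩, ?_⟩
  · rw [hasFiniteIntegral_iff_ofReal (Eventually.of_forall p), ← e]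
    exact hG.lintegral_lt_top
  · rw [integral_eq_lintegral_of_nonneg_ae (Eventually.of_forall h0) hG.1,
      integral_eq_lintegral_of_nonneg_ae (Eventually.of_forall p) sm, e]

theorem FC.int_real (ha : a ∈ C.S0) (hW : ∀ᵐ x, ∀ w, w ∈ W x ↔ pt x w ∈ C.Fk a)
    {G : (κ → Vp ν) → ℝ} (hG : Integrable G (C.μk a)) :
    (Integrable fun x => ∑ w ∈ W x, G (pt x w)) ∧
      ∫ p, G p ∂C.μk a = ∫ x, ∑ w ∈ W x, G (pt x w) := by
  obtain ⟨i1, e1⟩ := C.int_nonneg ha hW hG.pos_part fun p => le_max_right _ _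
  obtain ⟨i2, e2⟩ := C.int_nonneg ha hW hG.neg_part fun p => le_max_right _ _
  have k : ∀ x : κ × ν → ℂ, ∑ w ∈ W x, G (pt x w) =
      ∑ w ∈ W x, max (G (pt x w)) 0 - ∑ w ∈ W x, max (-G (pt x w)) 0 := fun x => by
    rw [← Finset.sum_sub_distrib]
    exact Finset.sum_congr rfl fun w _ => (max_zero_sub_max_neg_zero_eq_self _).symm
  simp only [k]
  refine ⟨i1.sub i2, ?_⟩
  rw [integral_sub i1 i2, ← e1, ← e2, ← integral_sub hG.pos_part hG.neg_part]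
  simp only [max_zero_sub_max_neg_zero_eq_self]

theorem FC.int_fin (ha : a ∈ C.S0) (hW : ∀ᵐ x, ∀ w, w ∈ W x ↔ pt x w ∈ C.Fk a)
    {G : (κ → Vp ν) → ℂ} (hG : Integrable G (C.μk a)) :
    ∫ p, G p ∂C.μk a = ∫ x, ∑ w ∈ W x, G (pt x w) := by
  obtain ⟨i1, e1⟩ := C.int_real ha hW hG.re
  obtain ⟨i2, e2⟩ := C.int_real ha hW hG.im
  have k : ∀ x : κ × ν → ℂ, ∑ w ∈ W x, G (pt x w) =
      ((∑ w ∈ W x, RCLike.re (G (pt x w)) : ℝ) : ℂ) +
        ((∑ w ∈ W x, RCLike.im (G (pt x w)) : ℝ) : ℂ) * Complex.I := fun x => by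
    apply Complex.ext <;> simp
  simp only [k]
  rw [integral_add i1.ofReal (i2.ofReal.mul_const _), integral_mul_const, integral_complex_ofReal,
    integral_complex_ofReal, ← e1, ← e2]
  exact (integral_re_add_im hG).symm

end Pool.Agent.Lib.MP_5c318e_ag.Ku
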