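import Pool.Agent.Lib.MP_5c318e_ag.Ku.Root
import Pool.Agent.Lib.MP_5c318e_ag.S.RArea

/-! Small facts on families of finite coverings. -/

set_option autoImplicit false

namespace Pool.Agent.Lib.MP_5c318e_ag.Ku

open Matrix Filter Topology MeasureTheory Polynomial
open Pool.Agent.Lib.MP_5c318e_ag.V
open scoped ComplexConjugate

variable {A R ν κ : Type} [NormedAddCommGroup A] [NormedSpace ℂ A] [CommRing R] [Fintype ν]
  [Fintype κ]

section

variable {Y : Type} [NormedAddCommGroup Y] [NormedSpace ℂ Y] {U : Set Y} {φ ψ : Y → ℂ} {y : Y}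

theorem HolAt.of_analyticAt (h : AnalyticAt ℂ φ y) : HolAt U φ y :=
  fun _ _ _ _ _ hγ e => h.comp_of_eq hγ.1 e

theorem HolAt.add (h : HolAt U φ y) (h' : HolAt U ψ y) : HolAt U (fun x => φ x + ψ x) y :=
  fun E _ _ γ e hγ he => (h E γ e hγ he).add (h' E γ e hγ he)

theorem HolAt.mul (h : HolAt U φ y) (h' : HolAt U ψ y) : HolAt U (fun x => φ x * ψ x) y :=
  fun E _ _ γ e hγ he => (h E γ e hγ he).mul (h' E γ e hγ he)

theorem HolAt.div (h : HolAt U φ y) (h' : HolAt U ψ y) (h0 : ψ y ≠ 0) :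
    HolAt U (fun x => φ x / ψ x) y :=
  fun E _ _ γ e hγ he => (h E γ e hγ he).div (h' E γ e hγ he) (by rw [he]; exact h0)

theorem HolAt.congr (h : HolAt U φ y) (e : ∀ᶠ x in 𝓝[U] y, ψ x = φ x) : HolAt U ψ y :=
  fun E _ _ γ a hγ he => (h E γ a hγ he).congr
    ((hγ.tendsto.eventually (he ▸ e)).mono fun _ g => g.symm)

theorem HolAt.comp {Y' : Type} [NormedAddCommGroup Y'] [NormedSpace ℂ Y'] {U' : Set Y'} {f : Y' → Y}
    {y' : Y'} (h : HolAt U φ (f y')) (hf : AnalyticAt ℂ f y') (hm : ∀ᶠ x in 𝓝[U'] y', f x ∈ U) :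
    HolAt U' (fun x => φ (f x)) y' :=
  fun E _ _ γ a hγ he => h E (fun x => f (γ x)) a
    ⟨hf.comp_of_eq hγ.1 he, hγ.tendsto.eventually (he ▸ hm)⟩ (congrArg f he)

end

variable (C : FC A R ν) {E : Type} [NormedAddCommGroup E] [NormedSpace ℂ E]

theorem kb_plot {E' : Type} [NormedAddCommGroup E'] [NormedSpace ℂ E'] {S : Set A} {φ : E → A}
    {e : E} (h : Plot S φ e) {g : E' → E} {e' : E'} (hg : AnalyticAt ℂ g e') (he : g e' = e) :
    Plot S (fun x => φ (g x)) e' :=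
  ⟨h.1.comp_of_eq hg he, hg.continuousAt.eventually (he ▸ h.2)⟩

theorem kb_const {S : Set A} {a : A} (ha : a ∈ S) (e : E) : Plot S (fun _ : E => a) e :=
  ⟨analyticAt_const, Eventually.of_forall fun _ => ha⟩

theorem kb_app {σ Z : Type} [Fintype σ] [NormedAddCommGroup Z] [NormedSpace ℂ Z] {X : E → σ → Z}
    {e : E} (h : AnalyticAt ℂ X e) (i : σ) : AnalyticAt ℂ (fun x => X x i) e :=
  analyticAt_pi_iff.1 h i

theorem kb_xs (p : κ → Vp ν) : AnalyticAt ℂ (xs : (κ → Vp ν) → κ × ν → ℂ) p :=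
  analyticAt_pi_iff.2 fun i => kb_app (analyticAt_fst.comp (kb_app analyticAt_id i.1)) i.2

theorem kb_cont : Continuous (xs : (κ → Vp ν) → κ × ν → ℂ) :=
  continuous_iff_continuousAt.2 fun p => (kb_xs p).continuousAt

theorem kb_pt {x : E → κ × ν → ℂ} {w : E → κ → ℂ} {e : E} (hx : AnalyticAt ℂ x e)
    (hw : AnalyticAt ℂ w e) : AnalyticAt ℂ (fun e' => pt (x e') (w e')) e :=
  analyticAt_pi_iff.2 fun k => (analyticAt_pi_iff.2 fun l => kb_app hx (k, l)).prod (kb_app hw k)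

theorem FC.kb_an {φ : E → A} {e : E} (h : Plot C.S0 φ e) {σ : Type} [Fintype σ]
    (q : MvPolynomial σ R) {X : E → σ → ℂ} (hX : AnalyticAt ℂ X e) :
    AnalyticAt ℂ (fun e' => MvPolynomial.eval₂ (C.ev (φ e')) (X e') q) e := by
  obtain ⟨H, h1, h2⟩ := an_poly C.an h.2.self_of_nhds q
  exact ((h1 (X e)).comp_of_eq (h.1.prod hX) rfl).congr
    ((h.tendsto.eventually h2).mono fun e' g => g _)

theorem FC.kb_an2 {φ : E → A} {e : E} (h : Plot C.S0 φ e) (f : (MvPolynomial ν R)[X])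
    {X : E → ν → ℂ} (hX : AnalyticAt ℂ X e) {s : E → ℂ} (hs : AnalyticAt ℂ s e) :
    AnalyticAt ℂ (fun e' => f.eval₂ (MvPolynomial.eval₂Hom (C.ev (φ e')) (X e')) (s e')) e := by
  simp only [eval₂_eq_sum, Polynomial.sum_def]
  exact Finset.analyticAt_fun_sum _ fun i _ => (C.kb_an h _ hX).mul (hs.pow i)

/-- polynomials are holomorphic on total spaces -/
theorem FC.hol_evp {φ : E → A} {O : Set E} {e : E} (h : Plot C.S0 φ e) (p : κ → Vp ν)
    (q : MvPolynomial (κ × Option ν) R) :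
    HolAt (C.tot φ O) (fun y : E × (κ → Vp ν) => C.evp (φ y.1) y.2 q) (e, p) := by
  refine HolAt.of_analyticAt (C.kb_an (kb_plot h analyticAt_fst rfl) q
    (analyticAt_pi_iff.2 fun i => ?_))
  obtain ⟨k, _ | l⟩ := i
  · exact analyticAt_snd.comp (kb_app analyticAt_snd k)
  · exact kb_app (analyticAt_fst.comp (kb_app analyticAt_snd k)) l

theorem FC.kb_simple {a : A} {u : Vp ν} (hu : u ∈ C.F a) :
    (derivative C.f).eval₂ (MvPolynomial.eval₂Hom (C.ev a) u.1) u.2 ≠ 0 := fun h0 => by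
  obtain ⟨s, t, j, h⟩ := C.cert
  have e := congrArg (eval₂ (MvPolynomial.eval₂Hom (C.ev a) u.1) u.2) h
  rw [eval₂_add, eval₂_mul, eval₂_mul, hu.2, h0, zero_mul, zero_mul, add_zero, eval₂_C,
    map_pow] at e
  exact pow_ne_zero j hu.1 e.symm

/-- the chart of the total space: `(e, x)` are coordinates near `(e0, p0)` -/
theorem FC.chart [CompleteSpace E] {φ : E → A} {e0 : E} (h : Plot C.S0 φ e0) {p0 : κ → Vp ν}
    (hp : p0 ∈ C.Fk (φ e0)) : ∃ ω : E × (κ × ν → ℂ) → κ → ℂ, AnalyticAt ℂ ω (e0, xs p0) ∧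
      pt (xs p0) (ω (e0, xs p0)) = p0 ∧ (∀ᶠ y in 𝓝 (e0, xs p0), pt y.2 (ω y) ∈ C.Fk (φ y.1)) ∧
      ∀ᶠ y : E × (κ → Vp ν) in 𝓝 (e0, p0), y.2 ∈ C.Fk (φ y.1) → pt (xs y.2) (ω (y.1, xs y.2)) = y.2 := by
  have hx : ∀ k, AnalyticAt ℂ (fun (y : E × (κ × ν → ℂ)) l => y.2 (k, l)) (e0, xs p0) :=
    fun k => analyticAt_pi_iff.2 fun l => kb_app analyticAt_snd (k, l)
  choose ρ h1 h2 h3 h4 using fun k => ift (y := (e0, xs p0)) (w := (p0 k).2)
    (H := fun v : (E × (κ × ν → ℂ)) × ℂ =>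
      C.f.eval₂ (MvPolynomial.eval₂Hom (C.ev (φ v.1.1)) fun l => v.1.2 (k, l)) v.2)
    (C.kb_an2 (kb_plot h (analyticAt_fst.comp analyticAt_fst) rfl) C.f
      ((hx k).comp_of_eq analyticAt_fst rfl) analyticAt_snd) (hp k).2 (C.kb_simple (hp k)) (by
      simp only [eval₂_eq_eval_map, ← derivative_map]
      exact Polynomial.hasDerivAt _ _)
  refine ⟨fun y k => ρ k y, analyticAt_pi_iff.2 h1, funext fun k => Prod.ext rfl (h2 k), ?_, ?_⟩
  · refine eventually_all.2 fun k => ?_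
    filter_upwards [h3 k, (C.kb_an (kb_plot h analyticAt_fst rfl) C.Δ
      (hx k)).continuousAt.eventually_ne (hp k).1] with y g1 g2 using ⟨g2, g1⟩
  · have : ∀ k, ∀ᶠ y : E × (κ → Vp ν) in 𝓝 (e0, p0), y.2 k ∈ C.F (φ y.1) →
        ρ k (y.1, xs y.2) = (y.2 k).2 := fun k => by
      have c : ContinuousAt (fun y : E × (κ → Vp ν) => ((y.1, xs y.2), (y.2 k).2)) (e0, p0) :=
        ((continuous_fst.prodMk (kb_cont.comp continuous_snd)).prodMk
          ((continuous_apply k).comp continuous_snd).snd).continuousAt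
      exact (c.eventually (h4 k)).mono fun y g hy => g hy.2
    filter_upwards [eventually_all.2 this] with y g hy
    funext k
    have e := g k (hy k)
    simp only [pt, e]
    rfl

theorem FC.kb_chart {a : A} (ha : a ∈ C.S0) {p : κ → Vp ν} (hp : p ∈ C.Fk a) :
    ∃ γ : (κ × ν → ℂ) → κ → Vp ν, Plot (C.Fk a) γ (xs p) ∧ γ (xs p) = p ∧ (∀ x, xs (γ x) = x) ∧
      ∀ᶠ q in 𝓝 p, q ∈ C.Fk a → γ (xs q) = q := by
  obtain ⟨ω, h1, h2, h3, h4⟩ := C.chart (kb_const ha (0 : ℂ)) hp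
  have c : AnalyticAt ℂ (fun x : κ × ν → ℂ => ((0 : ℂ), x)) (xs p) :=
    analyticAt_const.prod analyticAt_id
  have c' : ContinuousAt (fun q : κ → Vp ν => ((0 : ℂ), q)) p := by fun_prop
  exact ⟨fun x => pt x (ω (0, x)), ⟨kb_pt analyticAt_id (h1.comp_of_eq c rfl),
    c.continuousAt.eventually h3⟩, h2, fun _ => rfl, c'.eventually h4⟩

theorem FC.contWithin {a : A} (ha : a ∈ C.S0) {φ : (κ → Vp ν) → ℂ} {p : κ → Vp ν} (hp : p ∈ C.Fk a)
    (h : HolAt (C.Fk a) φ p) : ContinuousWithinAt φ (C.Fk a) p := by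
  obtain ⟨γ, h1, h2, -, h4⟩ := C.kb_chart ha hp
  refine ((h _ γ _ h1 h2).continuousAt.comp
    (kb_xs p).continuousAt).continuousWithinAt.congr_of_eventuallyEq ?_ (congrArg φ h2).symm
  filter_upwards [nhdsWithin_le_nhds h4, self_mem_nhdsWithin] with q g hq
  exact (congrArg φ (g hq)).symm

theorem FC.dense {a : A} (ha : a ∈ C.S0) {h : MvPolynomial (κ × ν) ℂ} (h0 : h ≠ 0) :
    C.Fk a ⊆ closure {p | p ∈ C.Fk a ∧ MvPolynomial.eval (xs p) h ≠ 0} := fun p hp => by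
  classical
  obtain ⟨γ, h1, h2, h3, -⟩ := C.kb_chart ha hp
  have d := mem_closure_iff_frequently.1 (Measure.dense_of_ae (RArea.null_poly h0) (xs p))
  refine mem_closure_of_frequently_of_tendsto ((d.and_eventually h1.2).mono fun x g =>
    ⟨g.2, ?_⟩) (h1.1.continuousAt.tendsto.mono_right (congrArg 𝓝 h2).le)
  rw [h3]
  exact g.1

theorem FC.kb_meas {a : A} (ha : a ∈ C.S0) (h : MvPolynomial (κ × ν) ℂ) :
    MeasurableSet {p | p ∈ C.Fk a ∧ MvPolynomial.eval (xs p) h ≠ 0} := by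
  have hx : ∀ k (p : κ → Vp ν), AnalyticAt ℂ (fun p : κ → Vp ν => (p k).1) p :=
    fun k p => analyticAt_fst.comp (kb_app analyticAt_id k)
  have c1 : ∀ k, Continuous fun p : κ → Vp ν => MvPolynomial.eval₂ (C.ev a) (p k).1 C.Δ :=
    fun k => continuous_iff_continuousAt.2 fun p =>
      (C.kb_an (kb_const ha p) C.Δ (hx k p)).continuousAt
  have c2 : ∀ k, Continuous fun p : κ → Vp ν =>
      C.f.eval₂ (MvPolynomial.eval₂Hom (C.ev a) (p k).1) (p k).2 :=
    fun k => continuous_iff_continuousAt.2 fun p => (C.kb_an2 (kb_const ha p) C.f (hx k p)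
      (analyticAt_snd.comp (kb_app analyticAt_id k))).continuousAt
  have c3 : Continuous fun p : κ → Vp ν => MvPolynomial.eval (xs p) h :=
    (MvPolynomial.continuous_eval h).comp kb_cont
  have m : MeasurableSet (⋂ k, {p : κ → Vp ν | p k ∈ C.F a}) := MeasurableSet.iInter fun k =>
    (isOpen_ne_fun (c1 k) continuous_const).measurableSet.inter
      (isClosed_eq (c2 k) continuous_const).measurableSet
  rw [← Set.ofPred_forall] at m
  exact m.inter (isOpen_ne_fun c3 continuous_const).measurableSet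

theorem FC.ae {a : A} (ha : a ∈ C.S0) {h : MvPolynomial (κ × ν) ℂ} (h0 : h ≠ 0) :
    ∀ᵐ p ∂C.μk a, p ∈ C.Fk a ∧ MvPolynomial.eval (xs p) h ≠ 0 := by
  classical
  have m := (C.kb_meas ha h).compl
  have e := (C.lint a ha κ _ (measurable_one.indicator m)).2
  rw [lintegral_indicator_one m, lintegral_congr_ae (g := 0)] at e
  · exact e.trans lintegral_zero
  · filter_upwards [RArea.null_poly h0] with x hx
    exact ENNReal.tsum_eq_zero.2 fun w => Set.indicator_of_notMem (not_not.2 ⟨w.2, hx⟩) _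

theorem FC.aesm {a : A} (ha : a ∈ C.S0) {h : MvPolynomial (κ × ν) ℂ} (h0 : h ≠ 0)
    {φ : (κ → Vp ν) → ℂ} (hφ : ∀ p ∈ C.Fk a, MvPolynomial.eval (xs p) h ≠ 0 → HolAt (C.Fk a) φ p) :
    AEStronglyMeasurable φ (C.μk a) := by
  have c : ContinuousOn φ {p | p ∈ C.Fk a ∧ MvPolynomial.eval (xs p) h ≠ 0} := fun p hp =>
    (C.contWithin ha hp.1 (hφ p hp.1 hp.2)).mono fun _ g => g.1
  exact Measure.restrict_eq_self_of_ae_mem (s := {p | p ∈ C.Fk a ∧ MvPolynomial.eval (xs p) h ≠ 0})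
    (C.ae ha h0) ▸ c.aestronglyMeasurable (μ := C.μk a) (C.kb_meas ha h)

theorem FC.perm {a : A} (ha : a ∈ C.S0) (σ : Equiv.Perm κ) :
    MeasurePreserving (fun (p : κ → Vp ν) k => p (σ k)) (C.μk a) (C.μk a) := by
  have := C.sf a ha
  exact (measurePreserving_piCongrLeft (fun _ : κ => C.μ a) σ).symm

end Pool.Agent.Lib.MP_5c318e_ag.Ku
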