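import Pool.Agent.Lib.MP_5c318e_ag.T.TDefs

/-! Families of finite coverings in a concrete model, and the variation attached to a root of a
regular function on a power of the fibre (the covering by the root is hidden). -/

set_option autoImplicit false

namespace Pool.Agent.Lib.MP_5c318e_ag.Ku

open Matrix Filter Topology MeasureTheory Polynomial
open Pool.Agent.Lib.MP_5c318e_ag.V
open scoped ComplexConjugate

noncomputable section

/-- points `(x, w)` -/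
abbrev Vp (ν : Type) : Type := (ν → ℂ) × ℂ

/-- the coordinates of a tuple of points -/
def xs {κ ν : Type} (p : κ → Vp ν) : κ × ν → ℂ := fun i => (p i.1).1 i.2

/-- the tuple of points with given coordinates -/
def pt {κ ν : Type} (x : κ × ν → ℂ) (w : κ → ℂ) : κ → Vp ν := fun k => (fun l => x (k, l), w k)

/-- `φ` is holomorphic at `y` along the set `U` -/
def HolAt {Y : Type} [NormedAddCommGroup Y] [NormedSpace ℂ Y] (U : Set Y) (φ : Y → ℂ) (y : Y) :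
    Prop :=
  ∀ (E : Type) [NormedAddCommGroup E] [NormedSpace ℂ E] (γ : E → Y) (e : E), Plot U γ e →
    γ e = y → AnalyticAt ℂ (fun e' => φ (γ e')) e

/-- the set `f (x, w) = 0`, `Δ (x) ≠ 0` -/
def fset {R ν : Type} [CommRing R] (e : R →+* ℂ) (f : (MvPolynomial ν R)[X])
    (Δ : MvPolynomial ν R) : Set (Vp ν) :=
  {u | MvPolynomial.eval₂ e u.1 Δ ≠ 0 ∧ f.eval₂ (MvPolynomial.eval₂Hom e u.1) u.2 = 0}

/-- a family of finite coverings of `Δ ≠ 0` in `ℂ^ν` with parameter in `S0`; `μ a` is the lifted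
Lebesgue measure -/
structure FC (A R ν : Type) [NormedAddCommGroup A] [NormedSpace ℂ A] [CommRing R] [Fintype ν] where
  S0 : Set A
  ev : A → R →+* ℂ
  f : (MvPolynomial ν R)[X]
  Δ : MvPolynomial ν R
  μ : A → Measure (Vp ν)
  an : AnEv S0 ev
  monic : f.Monic
  ne : ∀ a ∈ S0, MvPolynomial.map (ev a) Δ ≠ 0
  cert : ∃ (u v : (MvPolynomial ν R)[X]) (j : ℕ), f * u + derivative f * v = C (Δ ^ j)
  sf : ∀ a ∈ S0, SigmaFinite (μ a)
  lint : ∀ a ∈ S0, ∀ (κ : Type) [Fintype κ] (G : (κ → Vp ν) → ENNReal), Measurable G →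
    (Measurable fun x : κ × ν → ℂ =>
      ∑' w : {w : κ → ℂ // ∀ k, pt x w k ∈ fset (ev a) f Δ}, G (pt x w)) ∧
    ∫⁻ p, G p ∂(Measure.pi fun _ => μ a) =
      ∫⁻ x : κ × ν → ℂ, ∑' w : {w : κ → ℂ // ∀ k, pt x w k ∈ fset (ev a) f Δ}, G (pt x w)

namespace FC

variable {A R ν κ : Type} [NormedAddCommGroup A] [NormedSpace ℂ A] [CommRing R] [Fintype ν]
  [Fintype κ] (C : FC A R ν)

/-- the fibre -/
def F (a : A) : Set (Vp ν) := fset (C.ev a) C.f C.Δ

/-- the power of the fibre -/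
def Fk (a : A) : Set (κ → Vp ν) := {p | ∀ k, p k ∈ C.F a}

/-- the measure on the power of the fibre -/
def μk (a : A) : Measure (κ → Vp ν) := Measure.pi fun _ => C.μ a

/-- values of polynomials in `(x_k, w_k)`; the variable `(k, none)` is `w_k` -/
def evp (a : A) (p : κ → Vp ν) : MvPolynomial (κ × Option ν) R →+* ℂ :=
  MvPolynomial.eval₂Hom (C.ev a) fun i => i.2.elim (p i.1).2 (p i.1).1

/-- the part of the power of the fibre where `g` does not vanish -/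
def good (g : MvPolynomial (κ × ν) R) (a : A) : Set (κ → Vp ν) :=
  {p | p ∈ C.Fk a ∧ MvPolynomial.eval₂ (C.ev a) (xs p) g ≠ 0}

/-- the weight `|q| ^ (2 / M)` -/
def wt (q : MvPolynomial (κ × Option ν) R) (M : ℕ) (a : A) (p : κ → Vp ν) : ℝ :=
  ‖C.evp a p q‖ ^ (2 / M : ℝ)

/-- holomorphic off `g = 0` and square integrable for the weight -/
def Mem (q : MvPolynomial (κ × Option ν) R) (M : ℕ) (g : MvPolynomial (κ × ν) R) (a : A)
    (φ : (κ → Vp ν) → ℂ) : Prop :=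
  (∀ p ∈ C.good g a, HolAt (C.Fk a) φ p) ∧
    ∫⁻ p, ENNReal.ofReal (‖φ p‖ ^ 2 * C.wt q M a p) ∂C.μk a < ⊤

/-- the total space over a plot -/
def tot {E : Type} (φ : E → A) (O : Set E) : Set (E × (κ → Vp ν)) :=
  {y | y.1 ∈ O ∧ y.2 ∈ C.Fk (φ y.1)}

end FC

variable {A R ν κ : Type} [NormedAddCommGroup A] [NormedSpace ℂ A] [CommRing R] [Fintype ν]
  [Fintype κ]

/-- `cl a φ` is the class of `φ q^(1/M) dx`; `rep a v` is the function whose class is the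
orthogonal projection of `v` to the space of these classes -/
structure Kum (C : FC A R ν) (q : MvPolynomial (κ × Option ν) R) (M : ℕ) (S : Set A)
    (n w : ℕ) where
  W : VHS A S (Fin n) w
  g : MvPolynomial (κ × ν) R
  rep : A → (Fin n → ℂ) →ₗ[ℂ] (κ → Vp ν) → ℂ
  cl : A → ((κ → Vp ν) → ℂ) → Fin n → ℂ
  g_ne : ∀ a ∈ S, MvPolynomial.map (C.ev a) g ≠ 0
  q_ne : ∀ a ∈ S, ∀ p ∈ C.good g a, C.evp a p q ≠ 0
  rep_mem : ∀ a ∈ S, ∀ v, W.π w a *ᵥ v = v → C.Mem q M g a (rep a v)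
  cl_top : ∀ a ∈ S, ∀ φ, C.Mem q M g a φ →
    W.π w a *ᵥ cl a φ = cl a φ ∧ ∀ p ∈ C.good g a, rep a (cl a φ) p = φ p
  adj : ∀ a ∈ S, ∀ φ v, C.Mem q M g a φ → W.π w a *ᵥ v = v →
    qf (W.H a) (cl a φ) v = M * ∫ p, conj (φ p) * rep a v p * (C.wt q M a p : ℂ) ∂C.μk a
  fam_cl : ∀ (E : Type) [NormedAddCommGroup E] [NormedSpace ℂ E] [FiniteDimensional ℂ E]
    [MeasurableSpace E] [BorelSpace E] (μ : Measure E) [μ.IsAddHaarMeasure] (φ : E → A)
    (O : Set E) (Φ : E × (κ → Vp ν) → ℂ), IsOpen O → (∀ e ∈ O, Plot S φ e) →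
    (∀ e ∈ O, ∀ p ∈ C.good g (φ e), HolAt (C.tot φ O) Φ (e, p)) →
    (∀ e ∈ O, ∃ N ∈ 𝓝 e, ∫⁻ e' in N, (∫⁻ p, ENNReal.ofReal
      (‖Φ (e', p)‖ ^ 2 * C.wt q M (φ e') p) ∂C.μk (φ e')) ∂μ < ⊤) →
    W.HolTop φ (fun e => cl (φ e) fun p => Φ (e, p)) O ∧
      ∀ e ∈ O, C.Mem q M g (φ e) fun p => Φ (e, p)
  fam_rep : ∀ (E : Type) [NormedAddCommGroup E] [NormedSpace ℂ E] [FiniteDimensional ℂ E]
    (φ : E → A) (O : Set E) (v : E → Fin n → ℂ), IsOpen O → (∀ e ∈ O, Plot S φ e) →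
    W.HolTop φ v O → ∀ e ∈ O, ∀ p ∈ C.good g (φ e),
      HolAt (C.tot φ O) (fun y => rep (φ y.1) (v y.1) y.2) (e, p)

end

end Pool.Agent.Lib.MP_5c318e_ag.Ku
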