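import Pool.Agent.Lib.MP_5c318e_ag.Ku.KDefs
import Pool.Agent.Lib.MP_5c318e_ag.S.RCov
import Pool.Agent.Lib.MP_5c318e_ag.S.RSub
import Pool.Agent.Lib.MP_5c318e_ag.S.ModA

/-! Riemann domains realised as subsets of normed spaces. -/

set_option autoImplicit false

namespace Pool.Agent.Lib.MP_5c318e_ag

open MeasureTheory Set Filter Topology Polynomial Metric
open Pool.Agent.Lib.MP_5c318e_ag.V Pool.Agent.Lib.MP_5c318e_ag.Ku

noncomputable section

section cht

variable {Y : Type} [NormedAddCommGroup Y] [NormedSpace ℂ Y]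

theorem V.Plot.tendsto_in {E : Type} [NormedAddCommGroup E] [NormedSpace ℂ E] {S : Set Y}
    {σ : E → Y} {e : E} (h : Plot S σ e) : Tendsto σ (𝓝 e) (𝓝[S] σ e) :=
  tendsto_nhdsWithin_iff.2 ⟨h.1.continuousAt, h.2⟩

/-- a chart modelled on any finite dimensional space -/
theorem V.chart_fin {S : Set Y} {s : Y} {E : Type} [NormedAddCommGroup E] [NormedSpace ℂ E]
    [FiniteDimensional ℂ E] {σ : E → Y} {p : Y → E} (h1 : Plot S σ (p s)) (h2 : AnalyticAt ℂ p s)
    (h3 : ∀ᶠ a in 𝓝 (p s), p (σ a) = a) (h4 : ∀ᶠ s' in 𝓝[S] s, σ (p s') = s') :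
    ∃ (m : ℕ) (σ : (Fin m → ℂ) → Y) (p : Y → Fin m → ℂ), Plot S σ (p s) ∧
      AnalyticAt ℂ p s ∧ (∀ᶠ a in 𝓝 (p s), p (σ a) = a) ∧ ∀ᶠ s' in 𝓝[S] s, σ (p s') = s' := by
  let e : E ≃L[ℂ] (Fin (Module.finrank ℂ E) → ℂ) := ContinuousLinearEquiv.ofFinrankEq (by simp)
  have t : Tendsto e.symm (𝓝 (e (p s))) (𝓝 (p s)) := by
    simpa using e.symm.continuous.tendsto (e (p s))
  refine ⟨_, fun a => σ (e.symm a), fun y => e (p y), ⟨h1.1.comp_of_eq
    (e.symm.analyticAt _) (e.symm_apply_apply _), t.eventually h1.2⟩,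
    (e.analyticAt _).comp h2, (t.eventually h3).mono fun a ha => ?_, h4.mono fun y hy => ?_⟩
  · exact (congrArg e ha).trans (e.apply_symm_apply a)
  · exact (congrArg σ (e.symm_apply_apply _)).trans hy

theorem V.Charted.inter {S O : Set Y} (h : Charted S) (hO : ∀ s ∈ S ∩ O, O ∈ 𝓝[S] s) :
    Charted (S ∩ O) := fun s hs => by
  obtain ⟨m, σ, p, h1, h2, h3, h4⟩ := h s hs.1
  have t := h1.tendsto_in
  rw [h4.self_of_nhdsWithin hs.1] at t
  exact ⟨m, σ, p, ⟨h1.1, h1.2.and (t.eventually (hO s hs))⟩, h2, h3,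
    nhdsWithin_mono _ inter_subset_left h4⟩

theorem V.Charted.prod {S : Set Y} (h : Charted S) {r : Type} [Fintype r] :
    Charted (S ×ˢ (univ : Set (r → ℂ))) := fun s hs => by
  obtain ⟨m, σ, p, h1, h2, h3, h4⟩ := h s.1 hs.1
  have t : Tendsto Prod.fst (𝓝 (p s.1, s.2)) (𝓝 (p s.1)) := continuous_fst.tendsto (p s.1, s.2)
  refine chart_fin (E := (Fin m → ℂ) × (r → ℂ)) (σ := fun a => (σ a.1, a.2))
    (p := fun y => (p y.1, y.2)) ⟨(h1.1.comp_of_eq analyticAt_fst rfl).prod analyticAt_snd,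
      (t.eventually h1.2).mono fun a ha => ⟨ha, trivial⟩⟩
    ((h2.comp_of_eq analyticAt_fst rfl).prod analyticAt_snd)
    ((t.eventually h3).mono fun a ha => Prod.ext ha rfl) ?_
  have t' : Tendsto Prod.fst (𝓝[S ×ˢ (univ : Set (r → ℂ))] s) (𝓝[S] s.1) :=
    continuous_fst.continuousWithinAt.tendsto_nhdsWithin fun _ hy => hy.1
  exact (t'.eventually h4).mono fun y hy => Prod.ext hy rfl

/-- small connected parts -/
theorem V.Charted.exists_local {S O : Set Y} (h : Charted S) {s : Y} (hs : s ∈ S)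
    (hO : O ∈ 𝓝[S] s) : ∃ S' ⊆ S ∩ O, s ∈ S' ∧ (∀ s' ∈ S', S' ∈ 𝓝[S] s') ∧ Charted S' ∧
      IsPreconnected S' := by
  obtain ⟨m, σ, p, h1, h2, h3, h4⟩ := h s hs
  have e0 := h4.self_of_nhdsWithin hs
  have t := h1.tendsto_in
  rw [e0] at t
  obtain ⟨r, hr, hb⟩ := Metric.eventually_nhds_iff_ball.1 (h1.1.eventually_continuousAt.and
    (h1.2.and (h3.and ((t.eventually hO).and ((t.eventually
      (eventually_eventually_nhdsWithin.2 h4)).and
      ((tendsto_nhds_of_tendsto_nhdsWithin t).eventually h2.eventually_continuousAt))))))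
  have hsub : σ '' ball (p s) r ⊆ S ∩ O := by
    rintro _ ⟨a, ha, rfl⟩
    exact ⟨(hb a ha).2.1, (hb a ha).2.2.2.1⟩
  have hn : ∀ s' ∈ σ '' ball (p s) r, σ '' ball (p s) r ∈ 𝓝[S] s' := by
    rintro _ ⟨a, ha, rfl⟩
    obtain ⟨-, -, k3, -, k5, k6⟩ := hb a ha
    have k7 : ∀ᶠ y in 𝓝 (σ a), p y ∈ ball (p s) r :=
      k6.eventually (isOpen_ball.mem_nhds (by rwa [k3]))
    filter_upwards [k5, nhdsWithin_le_nhds k7] with y y1 y2 using ⟨p y, y2, y1⟩
  refine ⟨_, hsub, ⟨p s, mem_ball_self hr, e0⟩, hn, ?_, (convex_ball _ _).isPreconnected.image _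
    fun a ha => (hb a ha).1.continuousWithinAt⟩
  rw [← inter_eq_right.2 (hsub.trans inter_subset_left)]
  exact h.inter fun s' hs' => hn s' hs'.2

end cht

section emb

variable {ι X Y : Type} [Fintype ι] [TopologicalSpace X] [MeasurableSpace X]
  [NormedAddCommGroup Y] [NormedSpace ℂ Y]

/-- `j` realises the Riemann domain as a subset of a normed space, `pr` gives the coordinates -/
structure RD.Emb (D : RD ι X) (j : X → Y) (pr : Y → ι → ℂ) : Prop where
  ind : IsEmbedding j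
  ana : ∀ x, AnalyticAt ℂ (fun z => j (D.sec x z)) (D.π x)
  pr_ana : ∀ y, AnalyticAt ℂ pr y
  pr_eq : ∀ x, pr (j x) = D.π x

namespace RD.Emb

variable {D : RD ι X} {j : X → Y} {pr : Y → ι → ℂ} (h : D.Emb j pr)

include h

theorem plot {U : Set X} {x : X} (hU : U ∈ 𝓝 x) :
    Plot (j '' U) (fun z => j (D.sec x z)) (D.π x) :=
  ⟨h.ana x, ((D.tendsto_sec x).eventually hU).mono fun _ hz => mem_image_of_mem j hz⟩

theorem plot' (x : X) : Plot (range j) (fun z => j (D.sec x z)) (D.π x) :=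
  ⟨h.ana x, .of_forall fun _ => mem_range_self _⟩

theorem ev_iff {x : X} {P : Y → Prop} : (∀ᶠ y in 𝓝[range j] (j x), P y) ↔ ∀ᶠ x' in 𝓝 x, P (j x') := by
  rw [← h.ind.isInducing.map_nhds_eq, eventually_map]

theorem sec (x : X) : ∀ᶠ y in 𝓝[range j] (j x), j (D.sec x (pr y)) = y :=
  h.ev_iff.2 <| Filter.mem_of_superset ((D.ch x).open_source.mem_nhds (D.mem_src x)) fun y hy => by
    show j (D.sec x (pr (j y))) = j y
    rw [h.pr_eq, RD.sec_π hy]

theorem holAt_iff {φ : Y → ℂ} {x : X} :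
    HolAt (range j) φ (j x) ↔ AnalyticAt ℂ (fun z => φ (j (D.sec x z))) (D.π x) := by
  refine ⟨fun H => H _ _ _ (h.plot' x) (by rw [D.sec_self]), fun H E _ _ γ e h1 h2 => ?_⟩
  have t := h1.tendsto_in
  rw [h2] at t
  refine (H.comp_of_eq ((h.pr_ana _).comp h1.1) (by rw [Function.comp, h2, h.pr_eq])).congr ?_
  filter_upwards [t.eventually (h.sec x)] with e' he using congrArg φ he

/-- a holomorphic function on the domain has an analytic extension near each point -/
theorem germ {f : X → ℂ} {x : X} (hf : AnalyticAt ℂ (fun z => f (D.sec x z)) (D.π x)) :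
    ∃ g : Y → ℂ, AnalyticAt ℂ g (j x) ∧ ∀ᶠ x' in 𝓝 x, g (j x') = f x' := by
  refine ⟨fun y => f (D.sec x (pr y)), hf.comp_of_eq (h.pr_ana _) (h.pr_eq x), ?_⟩
  filter_upwards [(D.ch x).open_source.mem_nhds (D.mem_src x)] with y hy
  rw [h.pr_eq, RD.sec_π hy]

theorem charted {U : Set X} (hU : IsOpen U) : Charted (j '' U) := by
  rintro _ ⟨x, hx, rfl⟩
  refine chart_fin (σ := fun z => j (D.sec x z)) (p := pr) ?_ (h.pr_ana _) ?_
    (nhdsWithin_mono _ (image_subset_range _ _) (h.sec x))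
  · rw [h.pr_eq]; exact h.plot (hU.mem_nhds hx)
  · rw [h.pr_eq]
    filter_upwards [D.π_sec_ev x] with z hz
    rw [h.pr_eq, hz]

theorem measurableEmbedding [BorelSpace X] [SigmaCompactSpace X] [MeasurableSpace Y]
    [BorelSpace Y] : MeasurableEmbedding j := by
  refine h.ind.measurableEmbedding ?_
  rw [← image_univ, ← iUnion_compactCovering X, image_iUnion]
  exact MeasurableSet.iUnion fun n =>
    ((isCompact_compactCovering X n).image h.ind.continuous).isClosed.measurableSet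

omit h in
theorem _root_.Pool.Agent.Lib.MP_5c318e_ag.RD.sec_pi {κ : Type} [Fintype κ]
    (D' : RD (κ × ι) (κ → X)) (hπ : ∀ x k i, D'.π x (k, i) = D.π (x k) i) (x : κ → X) :
    D'.sec x =ᶠ[𝓝 (D'.π x)] fun z k => D.sec (x k) fun i => z (k, i) := by
  have t : ∀ k, Tendsto (fun (z : κ × ι → ℂ) i => z (k, i)) (𝓝 (D'.π x)) (𝓝 (D.π (x k))) :=
    fun k => tendsto_pi_nhds.2 fun i => hπ x k i ▸ (continuous_apply (k, i)).tendsto _
  have e0 : (fun k => D.sec (x k) fun i => D'.π x (k, i)) = x := funext fun k => by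
    rw [funext (hπ x k), D.sec_self]
  refine (D'.sec_unique e0 ?_ ?_).symm
  · rw [ContinuousAt, e0]
    exact tendsto_pi_nhds.2 fun k => (D.tendsto_sec (x k)).comp (t k)
  · filter_upwards [eventually_all.2 fun k => (t k).eventually (D.π_sec_ev (x k))] with z hz
    funext ⟨k, i⟩
    rw [hπ, hz k]

theorem pi {κ : Type} [Fintype κ] (D' : RD (κ × ι) (κ → X))
    (hπ : ∀ x k i, D'.π x (k, i) = D.π (x k) i) :
    D'.Emb (fun x k => j (x k)) fun y i => pr (y i.1) i.2 := by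
  refine ⟨IsEmbedding.piMap fun _ => h.ind, fun x => ?_, fun y => ?_, fun x => ?_⟩
  · refine AnalyticAt.congr (f := fun z k => j (D.sec (x k) fun i => z (k, i)))
      (analyticAt_pi_iff.2 fun k => (h.ana (x k)).comp_of_eq (analyticAt_pi_iff.2 fun i =>
        (ContinuousLinearMap.proj (R := ℂ) (φ := fun _ : κ × ι => ℂ) (k, i)).analyticAt _)
        (funext (hπ x k))) ?_
    filter_upwards [RD.sec_pi D' hπ x] with z hz
    rw [hz]
  · exact analyticAt_pi_iff.2 fun i => analyticAt_pi_iff.1 ((h.pr_ana (y i.1)).comp_of_eq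
      ((ContinuousLinearMap.proj (R := ℂ) (φ := fun _ : κ => Y) i.1).analyticAt y) rfl) i.2
  · funext ⟨k, i⟩
    rw [hπ, h.pr_eq]

end RD.Emb

variable [DecidableEq ι] [BorelSpace X] [T2Space X] [SigmaCompactSpace X] {D : RD ι X}

theorem RD.ana1 (D : RD ι X) {g : X → ℂ} {x : X}
    (h : ∀ᶠ p in 𝓝 x, DifferentiableAt ℂ (fun z => g (D.sec p z)) (D.π p)) :
    AnalyticAt ℂ (fun z => g (D.sec x z)) (D.π x) :=
  analyticAt_pi_iff.1 (RArea.ana D (g := fun p (_ : Unit) => g p)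
    (h.mono fun _ hp => differentiableAt_pi.2 fun _ => hp)) ()

/-- a finite covering is a subset of `ℂ^ι × ℂ` -/
theorem RD.Cov.emb (C : D.Cov) : D.Emb (fun p => ((D.π p, C.w p) : Vp ι)) Prod.fst := by
  have cw : Continuous C.w := RD.cont_of_sec fun x => (C.hol x).continuousAt
  refine ⟨⟨isInducing_iff_nhds.2 fun x => le_antisymm
    ((D.cont_π.prodMk cw).tendsto x).le_comap ?_,
    fun p q e => C.inj p q (congrArg Prod.fst e) (congrArg Prod.snd e)⟩, fun x => ?_,
    fun _ => analyticAt_fst, fun _ => rfl⟩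
  · set L := comap (fun p => ((D.π p, C.w p) : Vp ι)) (𝓝 (D.π x, C.w x))
    have t : Tendsto (fun p => ((D.π p, C.w p) : Vp ι)) L (𝓝 (D.π x, C.w x)) := tendsto_comap
    have t1 : Tendsto D.π L (𝓝 (D.π x)) := (continuous_fst.tendsto _).comp t
    have t2 : Tendsto C.w L (𝓝 (C.w x)) := (continuous_snd.tendsto _).comp t
    have h1 : ∀ᶠ p in L, ∀ q ∈ D.π ⁻¹' {D.π x}, C.w p = C.w (D.sec q (D.π p)) → q = x :=
      (eventually_all_finite (C.fin _)).2 fun q hq => by
        by_cases e : q = x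
        · exact .of_forall fun _ _ => e
        have t3 := D.tendsto_sec q
        rw [show D.π q = D.π x from hq] at t3
        exact ((t2.prodMk_nhds ((cw.tendsto q).comp (t3.comp t1))).eventually
          ((isOpen_ne_fun continuous_fst continuous_snd).mem_nhds
            fun e' => e (C.inj q x hq (Eq.symm e')))).mono fun b hb h => (hb h).elim
    refine tendsto_id'.1 (((D.tendsto_sec x).comp t1).congr' ?_)
    filter_upwards [h1, t1.eventually (C.sheets (C.Δ_ne x))] with p k1 k2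
    obtain ⟨q, hq, e⟩ := k2 p rfl
    obtain rfl := k1 q hq (congrArg C.w e)
    exact e.symm
  · exact (analyticAt_id.congr ((D.π_sec_ev x).mono fun _ hz => hz.symm)).prod
      (D.ana1 (.of_forall C.hol))

omit [DecidableEq ι] [BorelSpace X] [T2Space X] [SigmaCompactSpace X] in
theorem RD.Cov.range_emb (C : D.Cov) :
    range (fun p => ((D.π p, C.w p) : Vp ι)) = fset (RingHom.id ℂ) C.f C.Δ := by
  ext ⟨a, s⟩
  refine Iff.trans ?_ (C.mem a s)
  simp only [mem_range, Prod.mk.injEq]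

/-- integrals over powers are integrals of sums over the sheets -/
theorem RD.Emb.lint {j : X → Vp ι} (h : D.Emb j Prod.fst) (κ : Type) [Fintype κ]
    (G : (κ → Vp ι) → ENNReal) (hG : Measurable G) :
    (Measurable fun x : κ × ι → ℂ => ∑' w : {w : κ → ℂ // ∀ k, pt x w k ∈ range j}, G (pt x w)) ∧
    ∫⁻ p, G p ∂(Measure.pi fun _ => D.μ.map j) =
      ∫⁻ x : κ × ι → ℂ, ∑' w : {w : κ → ℂ // ∀ k, pt x w k ∈ range j}, G (pt x w) := by
  classical
  have := D.secondCountable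
  obtain ⟨D', h1, h2, h3, -⟩ := D.exists_pi κ
  have hm := h.measurableEmbedding
  have := hm.sigmaFinite_map (μ := D.μ)
  have mp := measurePreserving_pi (fun _ : κ => D.μ) (fun _ => D.μ.map j)
    fun _ => hm.measurable.measurePreserving D.μ
  have key := D'.lint_fib (hG.comp mp.measurable)
  have e : ∀ x : κ × ι → ℂ, ∑' p : D'.π ⁻¹' {x}, G (fun k => j (p.1 k)) =
      ∑' w : {w : κ → ℂ // ∀ k, pt x w k ∈ range j}, G (pt x w) := fun x => by
    have e1 : ∀ p : D'.π ⁻¹' {x}, pt x (fun k => (j (p.1 k)).2) = fun k => j (p.1 k) :=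
      fun p => funext fun k => Prod.ext (funext fun i => by
        rw [h.pr_eq, ← h1, show D'.π p.1 = x from p.2]; rfl) rfl
    rw [← (Equiv.ofBijective (fun p : D'.π ⁻¹' {x} => (⟨fun k => (j (p.1 k)).2, fun k =>
      ⟨p.1 k, (congrFun (e1 p) k).symm⟩⟩ : {w : κ → ℂ // ∀ k, pt x w k ∈ range j}))
      ⟨fun p q e => ?_, fun w => ?_⟩).tsum_eq]
    · exact tsum_congr fun p => congrArg G (e1 p).symm
    · refine Subtype.ext (funext fun k => h.ind.injective ?_)
      rw [← congrFun (e1 p) k, ← congrFun (e1 q) k, Subtype.mk.inj e]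
    · choose p hp using w.2
      refine ⟨⟨p, funext fun ⟨k, i⟩ => ?_⟩, Subtype.ext (funext fun k => congrArg Prod.snd (hp k))⟩
      rw [h1, ← h.pr_eq, hp]; rfl
  simp only [Function.comp, e] at key
  refine ⟨key.1, ?_⟩
  rw [← key.2, h2]
  exact (mp.lintegral_comp hG).symm

end emb

end

end Pool.Agent.Lib.MP_5c318e_ag
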