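import Pool.Agent.Lib.MP_5c318e_ag.Ku.Root

/-! The fibres of a family are holomorphic lists; a polynomial that cuts out the image of the zero
set of a regular function. -/

set_option autoImplicit false

namespace Pool.Agent.Lib.MP_5c318e_ag.Ku

open Filter Topology Polynomial
open Pool.Agent.Lib.MP_5c318e_ag.V

variable {A R ν κ : Type} [NormedAddCommGroup A] [NormedSpace ℂ A] [CommRing R] [Fintype ν]
  [Fintype κ] (C : FC A R ν)

omit [Fintype ν] [Fintype κ] in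
@[simp] theorem xs_pt (x : κ × ν → ℂ) (w : κ → ℂ) : xs (pt x w) = x := rfl

omit [Fintype ν] [Fintype κ] in
@[simp] theorem pt_xs (p : κ → Vp ν) : pt (xs p) (fun k => (p k).2) = p := rfl

omit [Fintype ν] [Fintype κ] in
@[simp] theorem pt_snd (x : κ × ν → ℂ) (w : κ → ℂ) (k : κ) : (pt x w k).2 = w k := rfl

omit [Fintype ν] [Fintype κ] in
theorem cont_xs : Continuous (xs : (κ → Vp ν) → κ × ν → ℂ) := by
  unfold xs
  fun_prop

theorem ana_xs (p : κ → Vp ν) : AnalyticAt ℂ (xs : (κ → Vp ν) → κ × ν → ℂ) p :=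
  analyticAt_pi_iff.2 fun i =>
    ((ContinuousLinearMap.proj i.2 : (ν → ℂ) →L[ℂ] ℂ).analyticAt _).comp (analyticAt_fst.comp
      ((ContinuousLinearMap.proj i.1 : (κ → Vp ν) →L[ℂ] Vp ν).analyticAt _))

theorem ana_snd (p : κ → Vp ν) : AnalyticAt ℂ (fun (p : κ → Vp ν) k => (p k).2) p :=
  analyticAt_pi_iff.2 fun k => analyticAt_snd.comp
    ((ContinuousLinearMap.proj k : (κ → Vp ν) →L[ℂ] Vp ν).analyticAt _)

theorem ana_pt (v : (κ × ν → ℂ) × (κ → ℂ)) :
    AnalyticAt ℂ (fun v : (κ × ν → ℂ) × (κ → ℂ) => pt v.1 v.2) v :=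
  analyticAt_pi_iff.2 fun k => (analyticAt_pi_iff.2 fun l =>
    ((ContinuousLinearMap.proj (k, l) : (κ × ν → ℂ) →L[ℂ] ℂ).analyticAt _).comp
      analyticAt_fst).prod
    (((ContinuousLinearMap.proj k : (κ → ℂ) →L[ℂ] ℂ).analyticAt _).comp analyticAt_snd)

/-- holomorphic extension of the values of a polynomial in `(x, w)` -/
theorem FC.an_evp {a : A} (ha : a ∈ C.S0) (q : MvPolynomial (κ × Option ν) R) :
    ∃ H : A × (κ → Vp ν) → ℂ, (∀ p, AnalyticAt ℂ H (a, p)) ∧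
      ∀ᶠ a' in 𝓝[C.S0] a, ∀ p, H (a', p) = C.evp a' p q := by
  obtain ⟨H, h1, h2⟩ := an_poly C.an ha q
  have t : ∀ p : κ → Vp ν, AnalyticAt ℂ (fun (p : κ → Vp ν) (i : κ × Option ν) =>
      i.2.elim (p i.1).2 (p i.1).1) p := fun p => analyticAt_pi_iff.2 fun ⟨k, o⟩ => by
    cases o with
    | none => exact analyticAt_pi_iff.1 (ana_snd p) k
    | some l => exact analyticAt_pi_iff.1 (ana_xs p) (k, l)
  exact ⟨fun v => H (v.1, fun i => i.2.elim (v.2 i.1).2 (v.2 i.1).1), fun p =>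
    (h1 _).comp_of_eq (analyticAt_fst.prod ((t p).comp_of_eq analyticAt_snd rfl)) rfl,
    h2.mono fun a' g p => g _⟩

omit [Fintype ν] in
theorem eval_optf (e : R →+* ℂ) (f : (MvPolynomial ν R)[X]) (x : ν → ℂ) (w : ℂ) :
    MvPolynomial.eval₂ e (fun o : Option ν => o.elim w x)
      ((MvPolynomial.optionEquivLeft R ν).symm f) = f.eval₂ (MvPolynomial.eval₂Hom e x) w := by
  obtain ⟨q, rfl⟩ := (MvPolynomial.optionEquivLeft R ν).surjective f
  rw [AlgEquiv.symm_apply_apply]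
  induction q using MvPolynomial.induction_on with
  | C r => simp
  | add p q hp hq => simp [hp, hq, eval₂_add]
  | mul_X p i hp =>
    cases i <;> simp [hp, eval₂_mul]

theorem FC.sep (a : A) {x : ν → ℂ} (h : MvPolynomial.eval₂ (C.ev a) x C.Δ ≠ 0) :
    (C.f.map (MvPolynomial.eval₂Hom (C.ev a) x)).Separable := by
  obtain ⟨u, v, j, e⟩ := C.cert
  have := congrArg (Polynomial.map (MvPolynomial.eval₂Hom (C.ev a) x)) e
  rw [Polynomial.map_add, Polynomial.map_mul, Polynomial.map_mul, ← derivative_map, map_C, map_pow,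
    MvPolynomial.coe_eval₂Hom] at this
  refine ⟨Polynomial.C (MvPolynomial.eval₂ (C.ev a) x C.Δ ^ j)⁻¹ *
      u.map (MvPolynomial.eval₂Hom (C.ev a) x),
    Polynomial.C (MvPolynomial.eval₂ (C.ev a) x C.Δ ^ j)⁻¹ *
      v.map (MvPolynomial.eval₂Hom (C.ev a) x), ?_⟩
  rw [mul_assoc, mul_assoc, ← mul_add, mul_comm (u.map _), mul_comm (v.map _), this, ← C_mul,
    inv_mul_cancel₀ (pow_ne_zero j h), C_1]

/-- the covering by the points of the fibres -/
def FC.T0 (v : (A × (κ × ν → ℂ)) × (κ → ℂ)) : Prop := pt v.1.2 v.2 ∈ C.Fk v.1.1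

theorem tendsto_fst_within {Z : Type} [TopologicalSpace Z] {S : Set A} {Ω : Set (A × Z)}
    (h : ∀ y ∈ Ω, y.1 ∈ S) (y : A × Z) : Tendsto Prod.fst (𝓝[Ω] y) (𝓝[S] y.1) :=
  continuous_fst.continuousWithinAt.tendsto_nhdsWithin h

theorem FC.al0 [CompleteSpace A] {Ω : Set (A × (κ × ν → ℂ))} (h : ∀ y ∈ Ω, y.1 ∈ C.S0)
    (hΔ : ∀ y ∈ Ω, ∀ k, MvPolynomial.eval₂ (C.ev y.1) (fun l => y.2 (k, l)) C.Δ ≠ 0)
    {y : A × (κ × ν → ℂ)} (hy : y ∈ Ω) : AL Ω C.T0 y := by
  classical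
  have nt : Nontrivial (MvPolynomial ν R) := (MvPolynomial.eval₂Hom (C.ev y.1) 0).domain_nontrivial
  obtain ⟨H, h1, h2⟩ := an_poly C.an (h y hy) ((MvPolynomial.optionEquivLeft R ν).symm C.f)
  have key : ∀ k : κ, ∃ ρ : Fin C.f.natDegree → A × (κ × ν → ℂ) → ℂ,
      (∀ i, AnalyticAt ℂ (ρ i) y) ∧ (Function.Injective fun i => ρ i y) ∧ ∀ᶠ y' in 𝓝[Ω] y, ∀ w,
        (C.f.map (MvPolynomial.eval₂Hom (C.ev y'.1) fun l => y'.2 (k, l))).eval w = 0 ↔
          ∃ i, ρ i y' = w := fun k => by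
    refine roots hy (Eventually.of_forall fun y' =>
      ⟨(C.monic.map _).ne_zero, C.monic.natDegree_map _⟩) (C.sep _ (hΔ y hy k))
      (H := fun v => H (v.1.1, fun o => o.elim v.2 fun l => v.1.2 (k, l))) (fun w => ?_)
      (((tendsto_fst_within h y).eventually h2).mono fun y' g w => by
        rw [g, eval_optf, eval_map])
    refine (h1 _).comp_of_eq ((analyticAt_fst.comp analyticAt_fst).prod
      (analyticAt_pi_iff.2 fun o => ?_)) rfl
    cases o with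
    | none => exact analyticAt_snd
    | some l =>
      exact ((ContinuousLinearMap.proj (k, l) : (κ × ν → ℂ) →L[ℂ] ℂ).analyticAt _).comp
        (analyticAt_snd.comp analyticAt_fst)
  choose ρ r1 r2 r3 using key
  refine ⟨κ → Fin C.f.natDegree, inferInstance, fun i y' k => ρ k (i k) y',
    fun i => analyticAt_pi_iff.2 fun k => r1 k _,
    fun i j e => funext fun k => r2 k (congrFun e k), ?_⟩
  filter_upwards [eventually_all.2 r3, self_mem_nhdsWithin] with y' g1 g2 w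
  simp only [eval_map] at g1
  refine ⟨fun t => ?_, ?_⟩
  · choose i hi using fun k => (g1 k (w k)).1 (t k).2
    exact ⟨i, funext hi⟩
  · rintro ⟨i, rfl⟩ k
    exact ⟨hΔ y' g2 k, (g1 k _).2 ⟨_, rfl⟩⟩

/-- the covering by the points of the fibres and a root of `q` -/
def FC.T1 (q : MvPolynomial (κ × Option ν) R) (M : ℕ)
    (v : (A × (κ × ν → ℂ)) × (κ → ℂ) × ℂ) : Prop :=
  pt v.1.2 v.2.1 ∈ C.Fk v.1.1 ∧ v.2.2 ^ M = C.evp v.1.1 (pt v.1.2 v.2.1) q

theorem FC.al1 [CompleteSpace A] {Ω : Set (A × (κ × ν → ℂ))} (h : ∀ y ∈ Ω, y.1 ∈ C.S0)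
    (hΔ : ∀ y ∈ Ω, ∀ k, MvPolynomial.eval₂ (C.ev y.1) (fun l => y.2 (k, l)) C.Δ ≠ 0)
    {q : MvPolynomial (κ × Option ν) R} {M : ℕ} (hM : 0 < M)
    {y : A × (κ × ν → ℂ)} (hy : y ∈ Ω)
    (hq : ∀ w, pt y.2 w ∈ C.Fk y.1 → C.evp y.1 (pt y.2 w) q ≠ 0) : AL Ω (C.T1 q M) y := by
  obtain ⟨H, h1, h2⟩ := C.an_evp (h y hy) q
  exact (C.al0 h hΔ hy).root hy hM (c := fun v => C.evp v.1.1 (pt v.1.2 v.2) q) hq fun u =>
    ⟨fun v => H (v.1.1, pt v.1.2 v.2), (h1 _).comp_of_eq ((analyticAt_fst.comp analyticAt_fst).prod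
      ((ana_pt (y.2, u)).comp_of_eq ((analyticAt_snd.comp analyticAt_fst).prod analyticAt_snd) rfl))
      rfl, ((tendsto_fst_within h y).eventually h2).mono fun y' g u' => g _⟩

omit [Fintype ν] [Fintype κ] in
theorem cont_eval₂ {σ : Type} (e : R →+* ℂ) (q : MvPolynomial σ R) :
    Continuous fun x : σ → ℂ => MvPolynomial.eval₂ e x q := by
  simp only [MvPolynomial.eval₂_eq_eval_map]
  exact MvPolynomial.continuous_eval _

omit [Fintype κ] in
theorem FC.cont_evp (a : A) (q : MvPolynomial (κ × Option ν) R) :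
    Continuous fun p : κ → Vp ν => C.evp a p q :=
  (cont_eval₂ (C.ev a) q).comp (continuous_pi fun ⟨k, o⟩ => by
    cases o with
    | none => exact continuous_snd.comp (continuous_apply k)
    | some l => exact (continuous_apply l).comp (continuous_fst.comp (continuous_apply k)))

omit [Fintype κ] in
theorem FC.integral (q : MvPolynomial (κ × Option ν) R) :
    ∃ Ψ : (MvPolynomial (κ × ν) R)[X], Ψ.Monic ∧ ∀ a p, p ∈ C.Fk a →
      Ψ.eval₂ (MvPolynomial.eval₂Hom (C.ev a) (xs p)) (C.evp a p q) = 0 := by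
  let Xs := {y : A × (κ → Vp ν) // y.2 ∈ C.Fk y.1}
  let ρ : MvPolynomial (κ × ν) R →+* (Xs → ℂ) :=
    Pi.ringHom fun y => MvPolynomial.eval₂Hom (C.ev y.1.1) (xs y.1.2)
  have ev : ∀ (Ψ : (MvPolynomial (κ × ν) R)[X]) (u : Xs → ℂ) (y : Xs), (Ψ.eval₂ ρ u) y =
      Ψ.eval₂ (MvPolynomial.eval₂Hom (C.ev y.1.1) (xs y.1.2)) (u y) := fun Ψ u y =>
    hom_eval₂ Ψ ρ (Pi.evalRingHom (fun _ => ℂ) y) u
  have tr : ∀ {u v : Xs → ℂ}, ρ.IsIntegralElem u → (∀ y, u y = v y) → ρ.IsIntegralElem v :=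
    fun h e => funext e ▸ h
  have hρ : ∀ r y, ρ r y = MvPolynomial.eval₂Hom (C.ev y.1.1) (xs y.1.2) r := fun _ _ => rfl
  have key : ρ.IsIntegralElem fun y => C.evp y.1.1 y.1.2 q := by
    induction q using MvPolynomial.induction_on with
    | C r => exact tr (ρ.isIntegralElem_map (x := MvPolynomial.C r)) fun y => by simp [hρ, FC.evp]
    | add p q hp hq => exact tr (hp.add ρ hq) fun y => by simp
    | mul_X p i hp =>
      have : ρ.IsIntegralElem fun y => C.evp y.1.1 y.1.2 (MvPolynomial.X i) := by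
        obtain ⟨k, o⟩ := i
        cases o with
        | some l =>
          exact tr (ρ.isIntegralElem_map (x := MvPolynomial.X (k, l))) fun y => by
            simp [hρ, FC.evp, xs]
        | none =>
          refine ⟨C.f.map (MvPolynomial.rename (Prod.mk k)).toRingHom, C.monic.map _,
            funext fun y => ?_⟩
          rw [ev, eval₂_map, Pi.zero_apply]
          convert (y.2 k).2 using 2
          · ext <;> simp [xs]
          · simp [FC.evp]
      exact tr (hp.mul ρ this) fun y => by simp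
  obtain ⟨Ψ, h1, h2⟩ := key
  exact ⟨Ψ, h1, fun a p hp => (ev Ψ _ ⟨(a, p), hp⟩).symm.trans (congrFun h2 _)⟩

theorem FC.norm_poly [IsDomain R] (q : MvPolynomial (κ × Option ν) R)
    (hq : ∀ a ∈ C.S0, C.Fk a ⊆ closure {p | p ∈ C.Fk a ∧ C.evp a p q ≠ 0}) :
    ∃ g : MvPolynomial (κ × ν) R, g ≠ 0 ∧ ∀ a ∈ C.S0, ∀ x, MvPolynomial.eval₂ (C.ev a) x g ≠ 0 →
      (∀ k, MvPolynomial.eval₂ (C.ev a) (fun l => x (k, l)) C.Δ ≠ 0) ∧
        ∀ w, pt x w ∈ C.Fk a → C.evp a (pt x w) q ≠ 0 := by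
  rcases C.S0.eq_empty_or_nonempty with e | ⟨a0, h0⟩
  · exact ⟨1, one_ne_zero, fun a ha => by simp [e] at ha⟩
  have d0 : C.Δ ≠ 0 := fun e => C.ne a0 h0 (by rw [e, map_zero])
  obtain ⟨Ψ, h1, h2⟩ := C.integral q
  obtain ⟨Ψ1, e, nd⟩ := exists_eq_pow_rootMultiplicity_mul_and_not_dvd Ψ h1.ne_zero 0
  rw [C_0, sub_zero] at e nd
  refine ⟨(∏ k, MvPolynomial.rename (Prod.mk k) C.Δ) * Ψ1.coeff 0, mul_ne_zero
    (Finset.prod_ne_zero_iff.2 fun k _ => (map_ne_zero_iff _ (MvPolynomial.rename_injective _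
      (Prod.mk_right_injective k))).2 d0) (mt X_dvd_iff.2 nd), fun a ha x hx => ?_⟩
  rw [MvPolynomial.eval₂_mul, MvPolynomial.eval₂_prod] at hx
  refine ⟨fun k => ?_, fun w hw z => right_ne_zero_of_mul hx ?_⟩
  · have := Finset.prod_ne_zero_iff.1 (left_ne_zero_of_mul hx) k (Finset.mem_univ k)
    rwa [MvPolynomial.eval₂_rename] at this
  · have cl : IsClosed {p : κ → Vp ν |
        Ψ1.eval₂ (MvPolynomial.eval₂Hom (C.ev a) (xs p)) (C.evp a p q) = 0} := by
      refine isClosed_eq ?_ continuous_const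
      simp only [eval₂_eq_sum_range]
      exact continuous_finsetSum _ fun i _ =>
        ((cont_eval₂ _ _).comp cont_xs).mul ((C.cont_evp a q).pow i)
    have := closure_minimal (fun p hp => by
      have := h2 a p hp.1
      rw [e, eval₂_mul, eval₂_pow, eval₂_X] at this
      exact (mul_eq_zero.1 this).resolve_left (pow_ne_zero _ hp.2)) cl (hq a ha hw)
    rwa [Set.mem_setOf_eq, z, eval₂_at_zero] at this

end Pool.Agent.Lib.MP_5c318e_ag.Ku
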