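import Pool.Agent.Lib.MP_5c318e_ag.Ku.KEmb
import Pool.Agent.Lib.MP_5c318e_ag.Ku.Norm
import Pool.Agent.Lib.MP_5c318e_ag.S.CCov
import Pool.Agent.Lib.MP_5c318e_ag.Fp.SatPi
import Pool.Agent.Lib.MP_5c318e_ag.W.Conn

/-! A family of finite charts in the concrete model of finite coverings. -/

set_option autoImplicit false
set_option linter.unusedSectionVars false

namespace Pool.Agent.Lib.MP_5c318e_ag

open MeasureTheory Set Filter Topology Polynomial
open Pool.Agent.Lib.MP_5c318e_ag.V Pool.Agent.Lib.MP_5c318e_ag.Ku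

noncomputable section

section fc

variable {A R ν κ : Type} [NormedAddCommGroup A] [NormedSpace ℂ A] [CommRing R] [Fintype ν]
  [Fintype κ] (C : FC A R ν)

theorem Ku.eval₂Hom_map {R' : Type} [CommRing R'] (e : R' →+* ℂ) (ρ : R →+* R') (x : ν → ℂ) :
    (MvPolynomial.eval₂Hom e x).comp (MvPolynomial.map ρ) = MvPolynomial.eval₂Hom (e.comp ρ) x :=
  MvPolynomial.ringHom_ext (fun _ => by simp) fun _ => by simp

theorem Ku.fset_map {R' : Type} [CommRing R'] (e : R' →+* ℂ) (ρ : R →+* R')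
    (f : (MvPolynomial ν R)[X]) (Δ : MvPolynomial ν R) :
    fset e (f.map (MvPolynomial.map ρ)) (MvPolynomial.map ρ Δ) = fset (e.comp ρ) f Δ := by
  simp only [fset, MvPolynomial.eval₂_map, eval₂_map, eval₂Hom_map]

/-- `P (x, w) / Δ (x) ^ j`; the variable `none` is `w` -/
def Ku.FC.frac (P : MvPolynomial (Option ν) R) (j : ℕ) (a : A) (u : Vp ν) : ℂ :=
  MvPolynomial.eval₂ (C.ev a) (fun i => i.elim u.2 u.1) P / MvPolynomial.eval₂ (C.ev a) u.1 C.Δ ^ j

theorem Ku.FC.measurable_frac (P : MvPolynomial (Option ν) R) (j : ℕ) (a : A) :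
    Measurable (C.frac P j a) :=
  ((cont_eval₂ (C.ev a) P).comp (continuous_pi fun o => by
    cases o with
    | none => exact continuous_snd
    | some l => exact (continuous_apply l).comp continuous_fst)).measurable.div
    (((cont_eval₂ (C.ev a) C.Δ).comp continuous_fst).measurable.pow_const j)

theorem Ku.FC.frac_eq (P : MvPolynomial (Option ν) R) (j : ℕ) (a : A) (p : κ → Vp ν) (k : κ) :
    C.frac P j a (p k) = C.evp a p (MvPolynomial.rename (Prod.mk k) P) /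
      C.evp a p (MvPolynomial.rename (fun l => (k, some l)) C.Δ) ^ j := by
  simp only [FC.evp, MvPolynomial.coe_eval₂Hom, MvPolynomial.eval₂_rename]
  rfl

/-- slotwise saturation in the model -/
def Ku.FC.Sat (κ : Type) [Fintype κ] {r : Type} [Fintype r] [DecidableEq κ] (τ : Vp ν → r → ℂ)
    (c : ℝ) (a : A) : Prop :=
  ∀ (h : MvPolynomial (κ × ν) ℂ) (u : (κ → Vp ν) → ℂ), h ≠ 0 →
    (∀ p ∈ C.Fk a, MvPolynomial.eval (xs p) h ≠ 0 → HolAt (C.Fk a) u p) →
    ∫⁻ p, ENNReal.ofReal (‖u p‖ ^ 2) * ∏ k, ENNReal.ofReal (∑ i, ‖τ (p k) i‖ ^ 2) ^ (-c)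
      ∂C.μk a < ⊤ →
    ∃ t : (κ → r) → ℂ, ∀ p ∈ C.Fk a, MvPolynomial.eval (xs p) h ≠ 0 →
      u p = ∑ I, t I * ∏ k, τ (p k) (I k)

end fc

variable {δ ν K M : Type} [Fintype δ] [DecidableEq δ] [Fintype ν] [DecidableEq ν]
  [Field K] [Algebra ℂ K] [Field M] [Algebra ℂ M] [Algebra K M] {B : Cht δ K}
  {A R κ : Type} [NormedAddCommGroup A] [NormedSpace ℂ A] [CommRing R] [Fintype κ]

/-- the point `(x, w)` -/
def Fam.emb (T : Fam B ν M) (p : Pt T.X.O) : Vp ν :=
  (fun i => p (T.X.z (Sum.inr i)), p T.finX.w)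

/-- tuples of points of one fibre -/
def Fam.embk (T : Fam B ν M) {b : Pt B.O} (x : κ → T.Fib b) : κ → Vp ν := fun k => T.emb (x k).1

/-- the point `(z, w)` of the base -/
def Fam.embB (T : Fam B ν M) (b : Pt B.O) : Vp δ := (B.D.π b, b T.finB.w)

namespace Fam

variable (T : Fam B ν M) {b : Pt B.O}

theorem fib_emb (hb : MvPolynomial.map (b.hom : B.O →+* ℂ) T.finX.Δ ≠ 0) :
    (T.fib b).Emb (fun p => T.emb p.1) Prod.fst ∧
      range (fun p : T.Fib b => T.emb p.1) = fset (b.hom : B.O →+* ℂ) T.finX.f T.finX.Δ := by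
  obtain ⟨C, h1, h2, h3⟩ := T.cov b hb
  have e : (fun p : T.Fib b => T.emb p.1) = fun p => (((T.fib b).π p, C.w p) : Vp ν) :=
    funext fun p => by rw [h3, T.toRel.π_fun]; rfl
  rw [e, C.range_emb, h1, h2, fset_map, RingHom.id_comp]
  exact ⟨C.emb, rfl⟩

theorem fibs_π' [DecidableEq κ] (b : Pt B.O) (x : κ → T.Fib b) (k : κ) (i : ν) :
    (T.fibs κ b).π x (k, i) = (T.fib b).π (x k) i := ((T.fib b).exists_pi κ).choose_spec.1 x k i

theorem xs_embk [DecidableEq κ] (x : κ → T.Fib b) : xs (T.embk x) = (T.fibs κ b).π x :=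
  funext fun ⟨k, i⟩ => by rw [T.fibs_π', T.fib_π]; rfl

end Fam

/-- parameters: the point `b a` of the base and the values of the ring `R` over `B.O` -/
structure Fam.Par (T : Fam B ν M) (A R : Type) [NormedAddCommGroup A] [NormedSpace ℂ A]
    [CommRing R] where
  S0 : Set A
  b : A → Pt B.O
  ρ : B.O →+* R
  ev : A → R →+* ℂ
  an : AnEv S0 ev
  hev : ∀ a ∈ S0, ∀ s, ev a (ρ s) = b a s
  ne : ∀ a ∈ S0, MvPolynomial.map ((b a).hom : B.O →+* ℂ) T.finX.Δ ≠ 0

namespace Fam.Par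

variable {T : Fam B ν M} (P : T.Par A R) {a : A}

theorem comp (ha : a ∈ P.S0) : (P.ev a).comp P.ρ = ((P.b a).hom : B.O →+* ℂ) :=
  RingHom.ext (P.hev a ha)

theorem emb_emb (ha : a ∈ P.S0) : (T.fib (P.b a)).Emb (fun p => T.emb p.1) Prod.fst :=
  (T.fib_emb (P.ne a ha)).1

theorem range_eq (ha : a ∈ P.S0) : range (fun p : T.Fib (P.b a) => T.emb p.1) =
    fset (P.ev a) (T.finX.f.map (MvPolynomial.map P.ρ)) (MvPolynomial.map P.ρ T.finX.Δ) := by
  rw [fset_map, P.comp ha, (T.fib_emb (P.ne a ha)).2]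

/-- the model -/
def fc : FC A R ν where
  S0 := P.S0
  ev := P.ev
  f := T.finX.f.map (MvPolynomial.map P.ρ)
  Δ := MvPolynomial.map P.ρ T.finX.Δ
  μ a := (T.fib (P.b a)).μ.map fun p => T.emb p.1
  an := P.an
  monic := T.finX.monic.map _
  ne a ha := by rw [MvPolynomial.map_map, P.comp ha]; exact P.ne a ha
  cert := by
    obtain ⟨u, v, j, e⟩ := T.finX.cert
    refine ⟨u.map (MvPolynomial.map P.ρ), v.map (MvPolynomial.map P.ρ), j, ?_⟩
    rw [derivative_map, ← Polynomial.map_mul, ← Polynomial.map_mul, ← Polynomial.map_add, e, map_C,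
      map_pow]
  sf a ha := (P.emb_emb ha).measurableEmbedding.sigmaFinite_map
  lint a ha κ _ G hG := by
    rw [← P.range_eq ha]
    exact (P.emb_emb ha).lint κ G hG

@[simp] theorem fc_S0 : P.fc.S0 = P.S0 := rfl

@[simp] theorem fc_ev : P.fc.ev = P.ev := rfl

theorem range_emb (ha : a ∈ P.S0) : range (fun p : T.Fib (P.b a) => T.emb p.1) = P.fc.F a :=
  P.range_eq ha

theorem range_embk (ha : a ∈ P.S0) : range (T.embk (b := P.b a) (κ := κ)) = P.fc.Fk a := by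
  ext p
  simp only [FC.Fk, ← P.range_emb ha, mem_range, mem_ofPred_eq]
  exact ⟨fun ⟨x, e⟩ k => ⟨x k, congrFun e k⟩, fun h => by
    choose x hx using h
    exact ⟨x, funext hx⟩⟩

theorem embk_mem (ha : a ∈ P.S0) (x : κ → T.Fib (P.b a)) : T.embk x ∈ P.fc.Fk a :=
  P.range_embk (κ := κ) ha ▸ mem_range_self x

theorem embk_emb [DecidableEq κ] (ha : a ∈ P.S0) : (T.fibs κ (P.b a)).Emb T.embk xs :=
  (P.emb_emb ha).pi _ (T.fibs_π' _)

theorem me (ha : a ∈ P.S0) : MeasurableEmbedding (T.embk (b := P.b a) (κ := κ)) := by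
  classical
  have : BorelSpace (κ → Vp ν) := Pi.borelSpace
  exact (P.embk_emb ha).measurableEmbedding

theorem mp (ha : a ∈ P.S0) : MeasurePreserving (T.embk (b := P.b a) (κ := κ))
    (Measure.pi fun _ => (T.fib (P.b a)).μ) (P.fc.μk a) :=
  have := P.fc.sf a ha
  measurePreserving_pi (fun _ : κ => (T.fib (P.b a)).μ) (fun _ => P.fc.μ a)
    fun _ => (P.emb_emb ha).measurableEmbedding.measurable.measurePreserving _

theorem lintegral (ha : a ∈ P.S0) (G : (κ → Vp ν) → ENNReal) : ∫⁻ p, G p ∂P.fc.μk a =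
    ∫⁻ x, G (T.embk x) ∂Measure.pi fun _ => (T.fib (P.b a)).μ :=
  ((P.mp ha).lintegral_comp_emb (P.me ha) G).symm

theorem integral (ha : a ∈ P.S0) (G : (κ → Vp ν) → ℂ) : ∫ p, G p ∂P.fc.μk a =
    ∫ x, G (T.embk x) ∂Measure.pi fun _ => (T.fib (P.b a)).μ :=
  ((P.mp ha).integral_comp (P.me ha) G).symm

theorem lintegral1 (ha : a ∈ P.S0) (G : Vp ν → ENNReal) : ∫⁻ u, G u ∂P.fc.μ a =
    ∫⁻ p, G (T.emb p.1) ∂(T.fib (P.b a)).μ :=
  (P.emb_emb ha).measurableEmbedding.lintegral_map G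

/-- holomorphy in the model and in the charts -/
theorem holAt_iff [DecidableEq κ] (ha : a ∈ P.S0) {φ : (κ → Vp ν) → ℂ} {x : κ → T.Fib (P.b a)} :
    HolAt (P.fc.Fk a) φ (T.embk x) ↔
      AnalyticAt ℂ (fun z => φ (T.embk ((T.fibs κ (P.b a)).sec x z))) ((T.fibs κ (P.b a)).π x) := by
  rw [← P.range_embk ha]
  exact (P.embk_emb ha).holAt_iff

/-- finitely many regular functions are polynomials over one power of `Δ` -/
theorem exists_frac {r : Type} [Finite r] (τ : r → T.X.O) :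
    ∃ (Q : r → MvPolynomial (Option ν) R) (j : ℕ), ∀ a ∈ P.S0, ∀ (p : T.Fib (P.b a)) (i : r),
      P.fc.frac (Q i) j a (T.emb p.1) = p.1 (τ i) := by
  choose Q j h using fun i => T.finX.gen_pt (τ i)
  obtain ⟨J, hJ⟩ := (finite_range j).bddAbove
  refine ⟨fun i => (MvPolynomial.optionEquivLeft R ν).symm
    ((Q i * C (T.finX.Δ ^ (J - j i))).map (MvPolynomial.map P.ρ)), J, fun a ha p i => ?_⟩
  have h1 := h i p.1
  have h2 := T.finX.Δ_ne p.1
  rw [p.2, MvPolynomial.eval_map] at h1 h2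
  rw [ev2_map] at h1
  have e : MvPolynomial.eval₂ (P.fc.ev a) (T.emb p.1).1 P.fc.Δ = MvPolynomial.eval₂
      ((P.b a).hom : B.O →+* ℂ) (fun i => p.1 (T.X.z (Sum.inr i))) T.finX.Δ := by
    rw [← P.comp ha, ← MvPolynomial.eval₂_map]; rfl
  rw [FC.frac, eval_optf, e, eval₂_map, eval₂Hom_map, fc_ev, P.comp ha, eval₂_mul, eval₂_C, map_pow,
    div_eq_iff (pow_ne_zero _ h2)]
  refine (congrArg₂ (· * ·) h1.symm rfl).trans ?_
  rw [mul_assoc]
  exact congrArg _ (pow_mul_pow_sub _ (hJ (mem_range_self i)))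

/-- slotwise saturation in the model -/
theorem sat [DecidableEq κ] {r : Type} [Fintype r] [DecidableEq r] (ha : a ∈ P.S0) {τ : r → T.X.O}
    {τ' : Vp ν → r → ℂ} (hτ : ∀ (p : T.Fib (P.b a)) (i : r), τ' (T.emb p.1) i = p.1 (τ i)) {c : ℝ}
    (hc : 0 ≤ c) (hs : (T.fib (P.b a)).Sat (fun i p => p.1 (τ i)) c)
    (hi : Ind fun i (p : T.Fib (P.b a)) => p.1 (τ i)) : P.fc.Sat κ τ' c a := by
  intro h u h0 hu hint
  rw [P.lintegral ha] at hint
  simp only [Fam.embk, hτ] at hint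
  obtain ⟨t, ht⟩ := hs.pi hc (fun i => (Pt.continuous_apply (τ i)).comp continuous_subtype_val) hi
    (T.fibs κ (P.b a)) (T.fibs_π' _) h0 (u := fun x => u (T.embk x))
    (fun x hx => ((P.holAt_iff ha).1
      (hu _ (P.embk_mem ha x) (by rwa [T.xs_embk]))).differentiableAt) hint
  refine ⟨t, fun p hp hne => ?_⟩
  obtain ⟨x, rfl⟩ := (P.range_embk ha).ge hp
  rw [ht x (by rwa [← T.xs_embk])]
  simp only [Fam.embk, hτ]

/-- more parameters -/
def ext (r : Type) [Fintype r] : T.Par (A × (r → ℂ)) (MvPolynomial r R) where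
  S0 := P.S0 ×ˢ univ
  b a := P.b a.1
  ρ := MvPolynomial.C.comp P.ρ
  ev a := MvPolynomial.eval₂Hom (P.ev a.1) a.2
  an q a ha := by
    obtain ⟨H, h1, h2⟩ := an_poly P.an ha.1 q
    exact ⟨H, h1 a.2, ((tendsto_fst_within (fun _ hy => hy.1) a).eventually h2).mono
      fun y hy => hy y.2⟩
  hev a ha s := by rw [RingHom.comp_apply, MvPolynomial.eval₂Hom_C, P.hev a.1 ha.1]
  ne a ha := P.ne a.1 ha.1

theorem ext_F (r : Type) [Fintype r] (a : A) (t : r → ℂ) : (P.ext r).fc.F (a, t) = P.fc.F a := by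
  refine (fset_map _ _ _ _).trans (Eq.trans ?_ (fset_map _ _ _ _).symm)
  congr 1
  exact RingHom.ext fun s => MvPolynomial.eval₂Hom_C _ _ _

theorem ext_μ (r : Type) [Fintype r] (a : A) (t : r → ℂ) : (P.ext r).fc.μ (a, t) = P.fc.μ a := rfl

end Fam.Par

instance : Nonempty (Pt B.O) := B.nonempty

instance : CharZero B.O := charZero_of_injective_algebraMap (algebraMap ℂ B.O).injective

namespace Fam

variable (T : Fam B ν M)

theorem embB_emb : B.D.Emb T.embB Prod.fst := by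
  obtain ⟨C, -, -, h⟩ := B.cov T.finB
  rw [show T.embB = fun p => ((B.D.π p, C.w p) : Vp δ) from funext fun p => by rw [h]; rfl]
  exact C.emb

theorem inv_embB (b : Pt B.O) : Function.invFun T.embB (T.embB b) = b :=
  Function.leftInverse_invFun T.embB_emb.ind.injective b

/-- the base itself as parameter space -/
def par (hc : ∀ b : Pt B.O, MvPolynomial.map (b.hom : B.O →+* ℂ) T.finX.Δ ≠ 0) :
    T.Par (Vp δ) B.O where
  S0 := range T.embB
  b := Function.invFun T.embB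
  ρ := RingHom.id _
  ev a := (Function.invFun T.embB a).hom
  an s := by
    rintro _ ⟨b, rfl⟩
    obtain ⟨g, h1, h2⟩ := T.embB_emb.germ (f := fun p => p s) (x := b)
      (B.D.ana1 (g := fun p => p s) (.of_forall (B.hol s)))
    exact ⟨g, h1, T.embB_emb.ev_iff.2 (h2.mono fun y hy =>
      hy.trans (congrArg (fun p : Pt B.O => p s) (T.inv_embB y)).symm)⟩
  hev _ _ _ := rfl
  ne _ _ := hc _

variable (hc : ∀ b : Pt B.O, MvPolynomial.map (b.hom : B.O →+* ℂ) T.finX.Δ ≠ 0)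

theorem par_b (b : Pt B.O) : (T.par hc).b (T.embB b) = b := T.inv_embB b

theorem par_mem (b : Pt B.O) : T.embB b ∈ (T.par hc).S0 := mem_range_self b

theorem par_ev (b : Pt B.O) (s : B.O) : (T.par hc).fc.ev (T.embB b) s = b s :=
  congrArg (fun p : Pt B.O => p s) (T.inv_embB b)

theorem charted : Charted (range T.embB) := image_univ ▸ T.embB_emb.charted isOpen_univ

theorem isPreconnected : IsPreconnected (range T.embB) :=
  have := B.preconnected T.finB
  isPreconnected_range T.embB_emb.ind.continuous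

theorem plot (b : Pt B.O) : Plot (range T.embB) (fun z => T.embB (B.D.sec b z)) (B.D.π b) :=
  T.embB_emb.plot' b

end Fam

/-! the same facts for a point `b` with `P.b a = b` -/

namespace Fam.Par

variable {T : Fam B ν M} (P : T.Par A R) {a : A} {b : Pt B.O}

theorem range_embk' (ha : a ∈ P.S0) (e : P.b a = b) :
    range (T.embk (b := b) (κ := κ)) = P.fc.Fk a := e ▸ P.range_embk ha

theorem mp' (ha : a ∈ P.S0) (e : P.b a = b) : MeasurePreserving (T.embk (b := b) (κ := κ))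
    (Measure.pi fun _ => (T.fib b).μ) (P.fc.μk a) := e ▸ P.mp ha

theorem lintegral' (ha : a ∈ P.S0) (e : P.b a = b) (G : (κ → Vp ν) → ENNReal) :
    ∫⁻ p, G p ∂P.fc.μk a = ∫⁻ x, G (T.embk x) ∂Measure.pi fun _ => (T.fib b).μ :=
  e ▸ P.lintegral ha G

theorem integral' (ha : a ∈ P.S0) (e : P.b a = b) (G : (κ → Vp ν) → ℂ) :
    ∫ p, G p ∂P.fc.μk a = ∫ x, G (T.embk x) ∂Measure.pi fun _ => (T.fib b).μ :=
  e ▸ P.integral ha G

theorem lintegral1' (ha : a ∈ P.S0) (e : P.b a = b) (G : Vp ν → ENNReal) :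
    ∫⁻ u, G u ∂P.fc.μ a = ∫⁻ p, G (T.emb p.1) ∂(T.fib b).μ := e ▸ P.lintegral1 ha G

theorem exists_frac' {r : Type} [Finite r] (τ : r → T.X.O) :
    ∃ (Q : r → MvPolynomial (Option ν) R) (j : ℕ), ∀ a ∈ P.S0, ∀ b, P.b a = b →
      ∀ (p : T.Fib b) (i : r), P.fc.frac (Q i) j a (T.emb p.1) = p.1 (τ i) :=
  (P.exists_frac τ).imp fun _ h => h.imp fun _ h a ha _ e => e ▸ h a ha

theorem sat' [DecidableEq κ] {r : Type} [Fintype r] [DecidableEq r] (ha : a ∈ P.S0) (e : P.b a = b)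
    {τ : r → T.X.O} {τ' : Vp ν → r → ℂ}
    (hτ : ∀ (p : T.Fib b) (i : r), τ' (T.emb p.1) i = p.1 (τ i)) {c : ℝ}
    (hc : 0 ≤ c) (hs : (T.fib b).Sat (fun i p => p.1 (τ i)) c)
    (hi : Ind fun i (p : T.Fib b) => p.1 (τ i)) : P.fc.Sat κ τ' c a := by
  subst e
  exact P.sat ha hτ hc hs hi

end Fam.Par

theorem Fam.par_lintegral (T : Fam B ν M)
    (hc : ∀ b : Pt B.O, MvPolynomial.map (b.hom : B.O →+* ℂ) T.finX.Δ ≠ 0) (b : Pt B.O)
    (G : (κ → Vp ν) → ENNReal) : ∫⁻ p, G p ∂(T.par hc).fc.μk (T.embB b) =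
      ∫⁻ x, G (T.embk x) ∂Measure.pi fun _ => (T.fib b).μ :=
  (T.par hc).lintegral' (T.par_mem hc b) (T.par_b hc b) G

end

end Pool.Agent.Lib.MP_5c318e_ag
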