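import Pool.Agent.Lib.MP_5c318e_ag.Ku.KGram
import Pool.Agent.Lib.MP_5c318e_ag.N.Det

/-! Regular functions on powers of the fibre: polynomials over a power of the discriminants. -/

set_option autoImplicit false

namespace Pool.Agent.Lib.MP_5c318e_ag.Ku

open Matrix Filter Topology MeasureTheory
open Pool.Agent.Lib.MP_5c318e_ag.V

noncomputable section

/-- sets on which a frame spans carry points with nonzero determinant -/
theorem exists_dt_ne {X : Type} {r : ℕ} (τ : X → Fin r → ℂ) (W : Fin r → Set X)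
    (h : ∀ i t, (∀ u ∈ W i, t ⬝ᵥ τ u = 0) → t = 0) : ∃ y, (∀ i, y i ∈ W i) ∧ N.dt τ y ≠ 0 := by
  have key : ∀ (j : ℕ) (W : Fin j → Set X), j ≤ r → (∀ i t, (∀ u ∈ W i, t ⬝ᵥ τ u = 0) → t = 0) →
      ∃ y : Fin j → X, (∀ i, y i ∈ W i) ∧ LinearIndependent ℂ fun i => τ (y i) := by
    intro j
    induction j with
    | zero => exact fun W _ _ => ⟨Fin.elim0, fun i => i.elim0, linearIndependent_empty_type⟩
    | succ j ih =>
      intro W hj h
      obtain ⟨y, hy, hl⟩ := ih (fun i => W i.succ) (by omega) fun i => h _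
      have hlt : Submodule.span ℂ (Set.range fun i => τ (y i)) < ⊤ := by
        refine Submodule.lt_top_of_finrank_lt_finrank ?_
        rw [finrank_span_eq_card hl]
        simpa using hj
      obtain ⟨f, hf0, hf⟩ := Submodule.exists_le_ker_of_lt_top _ hlt
      have e : ∀ v, (fun i => f (Pi.single i 1)) ⬝ᵥ v = f v := fun v => by
        rw [LinearMap.pi_apply_eq_sum_univ f v, dotProduct]
        refine Finset.sum_congr rfl fun i _ => ?_
        rw [smul_eq_mul, mul_comm]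
        congr 2
        ext x
        simp [Pi.single_apply, eq_comm]
      have : ∃ u ∈ W 0, f (τ u) ≠ 0 := by
        by_contra hc
        push Not at hc
        have h0 := h 0 _ fun u hu => (e _).trans (hc u hu)
        exact hf0 (LinearMap.ext fun v => by rw [← e, h0]; simp)
      obtain ⟨u, hu, hu0⟩ := this
      refine ⟨Fin.cons u y, fun i => Fin.cases hu hy i, ?_⟩
      rw [N.comp_cons, linearIndependent_finCons]
      exact ⟨hl, fun hm => hu0 (hf hm)⟩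
  obtain ⟨y, hy, hl⟩ := key r W le_rfl h
  exact ⟨y, hy, ((Matrix.isUnit_iff_isUnit_det _).1
    (Matrix.linearIndependent_rows_iff_isUnit.1 hl)).ne_zero⟩

variable {A R ν : Type} [NormedAddCommGroup A] [NormedSpace ℂ A] [CommRing R] [Fintype ν]
  (C : FC A R ν) (κ : Type) [Fintype κ]

namespace FC

/-- the product of the discriminants -/
def dd : MvPolynomial (κ × Option ν) R := ∏ k, MvPolynomial.rename (fun l => (k, some l)) C.Δ

variable {κ}

omit [Fintype κ] in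
theorem evp_Del (a : A) (p : κ → Vp ν) (k : κ) :
    C.evp a p (MvPolynomial.rename (fun l => (k, some l)) C.Δ) =
      MvPolynomial.eval₂ (C.ev a) (p k).1 C.Δ := by
  rw [evp, MvPolynomial.coe_eval₂Hom, MvPolynomial.eval₂_rename]
  rfl

theorem evp_dd (a : A) (p : κ → Vp ν) :
    C.evp a p (C.dd κ) = ∏ k, MvPolynomial.eval₂ (C.ev a) (p k).1 C.Δ := by
  simp only [dd, map_prod, evp_Del]

theorem dd_ne {a : A} {p : κ → Vp ν} (hp : p ∈ C.Fk a) : C.evp a p (C.dd κ) ≠ 0 := by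
  rw [evp_dd]
  exact Finset.prod_ne_zero_iff.2 fun k _ => (hp k).1

theorem dd_perm (a : A) (p : κ → Vp ν) (σ : Equiv.Perm κ) :
    C.evp a (fun k => p (σ k)) (C.dd κ) = C.evp a p (C.dd κ) := by
  rw [evp_dd, evp_dd]
  exact Equiv.prod_comp σ fun k => MvPolynomial.eval₂ (C.ev a) (p k).1 C.Δ

variable (κ)

/-- regular functions -/
def Rg : Subring (A → (κ → Vp ν) → ℂ) where
  carrier := {f | ∃ (q : MvPolynomial (κ × Option ν) R) (N : ℕ), ∀ a, ∀ p ∈ C.Fk a,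
    C.evp a p q = f a p * C.evp a p (C.dd κ) ^ N}
  one_mem' := ⟨1, 0, fun _ _ _ => by simp⟩
  zero_mem' := ⟨0, 0, fun _ _ _ => by simp⟩
  mul_mem' := fun ⟨q, N, h⟩ ⟨q', N', h'⟩ => ⟨q * q', N + N', fun a p hp => by
    simp only [map_mul, h a p hp, h' a p hp, Pi.mul_apply]; ring⟩
  add_mem' := fun ⟨q, N, h⟩ ⟨q', N', h'⟩ =>
    ⟨q * C.dd κ ^ N' + q' * C.dd κ ^ N, N + N', fun a p hp => by
      simp only [map_add, map_mul, map_pow, h a p hp, h' a p hp, Pi.add_apply]; ring⟩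
  neg_mem' := fun ⟨q, N, h⟩ => ⟨-q, N, fun a p hp => by simp [h a p hp]⟩

variable {κ}

theorem evp_mem (q : MvPolynomial (κ × Option ν) R) : (fun a p => C.evp a p q) ∈ C.Rg κ :=
  ⟨q, 0, fun _ _ _ => by simp⟩

theorem ev_mem (s : R) : (fun a _ => C.ev a s) ∈ C.Rg κ :=
  ⟨MvPolynomial.C s, 0, fun _ _ _ => by simp [evp]⟩

/-- a polynomial in the point of slot `k` over a power of the discriminant -/
theorem div_mem (P : MvPolynomial (Option ν) R) (j : ℕ) (k : κ) :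
    (fun a p => MvPolynomial.eval₂ (C.ev a) (fun i => i.elim (p k).2 (p k).1) P /
      MvPolynomial.eval₂ (C.ev a) (p k).1 C.Δ ^ j) ∈ C.Rg κ := by
  classical
  refine ⟨MvPolynomial.rename (Prod.mk k) P * (∏ k' ∈ Finset.univ.erase k,
    MvPolynomial.rename (fun l => (k', some l)) C.Δ) ^ j, j, fun a p hp => ?_⟩
  have h0 := (hp k).1
  rw [evp_dd, ← Finset.mul_prod_erase _ _ (Finset.mem_univ k), map_mul, map_pow, map_prod,
    mul_pow, ← mul_assoc, div_mul_cancel₀ _ (pow_ne_zero _ h0)]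
  simp only [evp_Del]
  rw [evp, MvPolynomial.coe_eval₂Hom, MvPolynomial.eval₂_rename]
  rfl

variable {C} {f : A → (κ → Vp ν) → ℂ}

theorem det_mem {r : ℕ} {m : Fin r → Fin r → A → (κ → Vp ν) → ℂ} (h : ∀ i j, m i j ∈ C.Rg κ) :
    (fun a p => (Matrix.of fun i j => m i j a p).det) ∈ C.Rg κ := by
  have e : (fun a p => (Matrix.of fun i j => m i j a p).det) = ∑ σ : Equiv.Perm (Fin r),
      ((Equiv.Perm.sign σ : ℤ) : A → (κ → Vp ν) → ℂ) * ∏ i, m (σ i) i := by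
    ext a p
    simp [det_apply', Finset.sum_apply, Finset.prod_apply]
  rw [e]
  exact Subring.sum_mem _ fun σ _ => Subring.mul_mem _ (intCast_mem _ _)
    (Subring.prod_mem _ fun i _ => h _ _)

theorem dt_mem {r : ℕ} {τ : A → Vp ν → Fin r → ℂ}
    (h : ∀ k i, (fun a (p : κ → Vp ν) => τ a (p k) i) ∈ C.Rg κ) (s : Fin r → κ) :
    (fun a p => N.dt (τ a) fun i => p (s i)) ∈ C.Rg κ := det_mem fun i j => h (s i) j

theorem rg_hol (h : f ∈ C.Rg κ) {E : Type} [NormedAddCommGroup E] [NormedSpace ℂ E] {φ : E → A}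
    {O : Set E} {e : E} (hφ : Plot C.S0 φ e) {p : κ → Vp ν} (hp : p ∈ C.Fk (φ e)) :
    HolAt (C.tot φ O) (fun y : E × (κ → Vp ν) => f (φ y.1) y.2) (e, p) := by
  obtain ⟨q, N, h⟩ := h
  refine ((C.hol_evp hφ p q).div (C.hol_evp hφ p (C.dd κ ^ N))
    (by rw [map_pow]; exact pow_ne_zero _ (C.dd_ne hp))).congr ?_
  filter_upwards [self_mem_nhdsWithin] with y hy
  rw [h _ _ hy.2, map_pow, mul_div_cancel_right₀ _ (pow_ne_zero _ (C.dd_ne hy.2))]

theorem rg_hol1 (h : f ∈ C.Rg κ) {a : A} (ha : a ∈ C.S0) {p : κ → Vp ν} (hp : p ∈ C.Fk a) :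
    HolAt (C.Fk a) (f a) p :=
  (rg_hol h (O := Set.univ) (kb_const ha (0 : ℂ)) hp).comp (f := fun p => ((0 : ℂ), p))
    (analyticAt_const.prod analyticAt_id)
    (eventually_mem_nhdsWithin.mono fun _ h => ⟨trivial, h⟩)

theorem rg_cont (h : f ∈ C.Rg κ) {a : A} (ha : a ∈ C.S0) : ContinuousOn (f a) (C.Fk a) :=
  fun _ hp => C.contWithin ha hp (rg_hol1 h ha hp)

/-- a polynomial that differs from `f` by an `M`-th power -/
theorem rg_pow (h : f ∈ C.Rg κ) {M : ℕ} (hM : 0 < M) :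
    ∃ (q : MvPolynomial (κ × Option ν) R) (N : ℕ), ∀ a, ∀ p ∈ C.Fk a,
      C.evp a p q = f a p * (C.evp a p (C.dd κ) ^ N) ^ M := by
  obtain ⟨q, N, h⟩ := h
  obtain ⟨M, rfl⟩ := Nat.exists_eq_add_one_of_ne_zero hM.ne'
  exact ⟨q * (C.dd κ ^ N) ^ M, N, fun a p hp => by
    simp only [map_mul, map_pow, h a p hp]; ring⟩

variable (C κ)

/-- regular functions that vanish on no open part of a fibre power -/
def Rd : Submonoid (A → (κ → Vp ν) → ℂ) where
  carrier := {f | f ∈ C.Rg κ ∧ ∀ a ∈ C.S0, C.Fk a ⊆ closure {p | p ∈ C.Fk a ∧ f a p ≠ 0}}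
  one_mem' := ⟨one_mem _, fun _ _ _ hp => subset_closure ⟨hp, one_ne_zero⟩⟩
  mul_mem' := fun {f g} hf hg => ⟨mul_mem hf.1 hg.1, fun a ha p hp => by
    refine mem_closure_iff.2 fun U hU hpU => ?_
    obtain ⟨p1, h1, h2, h3⟩ := mem_closure_iff.1 (hf.2 a ha hp) U hU hpU
    obtain ⟨V, hV, h4, h5⟩ := mem_nhdsWithin.1 ((rg_cont hf.1 ha p1 h2).eventually_ne h3)
    obtain ⟨p2, h6, h7, h8⟩ := mem_closure_iff.1 (hg.2 a ha h2) _ (hU.inter hV) ⟨h1, h4⟩
    exact ⟨p2, h6.1, h7, mul_ne_zero (h5 ⟨h6.2, h7⟩) h8⟩⟩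

/-- the frame spans on every open part of the fibre -/
def Ind {r : Type} [Fintype r] (τ : Vp ν → r → ℂ) (a : A) : Prop :=
  ∀ U : Set (Vp ν), IsOpen U → (U ∩ C.F a).Nonempty → ∀ t, (∀ u ∈ U ∩ C.F a, t ⬝ᵥ τ u = 0) → t = 0

variable {C κ}

theorem dt_mem_Rd {r : ℕ} {τ : A → Vp ν → Fin r → ℂ}
    (h : ∀ k i, (fun a (p : κ → Vp ν) => τ a (p k) i) ∈ C.Rg κ) (hi : ∀ a ∈ C.S0, C.Ind (τ a) a)
    {s : Fin r → κ} (hs : Function.Injective s) :
    (fun a p => N.dt (τ a) fun i => p (s i)) ∈ C.Rd κ := by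
  refine ⟨dt_mem h s, fun a ha p hp => mem_closure_iff.2 fun U hU hpU => ?_⟩
  obtain ⟨V, hV, hs'⟩ := isOpen_pi_iff'.1 hU p hpU
  obtain ⟨y, hy, h0⟩ := exists_dt_ne (τ a) (fun i => V (s i) ∩ C.F a) fun i =>
    hi a ha _ (hV _).1 ⟨p (s i), (hV _).2, hp _⟩
  have hm : ∀ k, Function.extend s y p k ∈ V k ∩ C.F a := fun k => by
    by_cases hk : ∃ i, s i = k
    · obtain ⟨i, rfl⟩ := hk
      rw [hs.extend_apply]
      exact hy i
    · rw [Function.extend_apply' _ _ _ hk]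
      exact ⟨(hV k).2, hp k⟩
  refine ⟨Function.extend s y p, hs' fun k _ => (hm k).1, fun k => (hm k).2, ?_⟩
  simpa only [hs.extend_apply] using h0

end FC

end

end Pool.Agent.Lib.MP_5c318e_ag.Ku
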