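import Pool.Agent.Lib.MP_5c318e_ag.Z.LDefs
import Pool.Agent.Lib.MP_5c318e_ag.V.Frame
import Pool.Agent.Lib.MP_5c318e_ag.T.Hol

/-! A parallel family of holomorphic sections of the top piece, read in a flat frame. -/

set_option autoImplicit false

namespace Pool.Agent.Lib.MP_5c318e_ag

open Matrix Filter Topology Complex Metric
open scoped ComplexOrder ComplexConjugate

variable {E : Type} [NormedAddCommGroup E] [NormedSpace ℂ E] {l ι : Type} [Fintype l]
  [Fintype ι] [DecidableEq ι]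

theorem TopAt.congr {K : ℝ} {G G' : E → Matrix l l ℂ} {x0 : E} (h : TopAt ι K G x0)
    (e : G' =ᶠ[𝓝 x0] G) : TopAt ι K G' x0 := by
  obtain ⟨U, h, Y, Q, X, p, hx, hG, H⟩ := h
  obtain ⟨O, hO, ho, hxo⟩ := _root_.eventually_nhds_iff.1 e
  refine ⟨U ∩ O, h, Y, Q, X, p, ⟨hx, hxo⟩, hG.mono (hG.op.inter ho) Set.inter_subset_left,
    fun x hx => ?_⟩
  obtain ⟨h1, h2, h3, h4, h5⟩ := H x hx.1
  exact ⟨h1, h2, h3, (hO x hx.2).trans h4, h5⟩

theorem TopAt.smul {K : ℝ} {G : E → Matrix l l ℂ} {x0 : E} (h : TopAt ι K G x0) {c : ℝ}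
    (hc : 0 < c) : TopAt ι K (fun x => (c : ℂ) • G x) x0 := by
  obtain ⟨U, h, Y, Q, X, p, hx, hG, H⟩ := h
  have h0 : (√c : ℂ) ≠ 0 := ofReal_ne_zero.2 (Real.sqrt_pos.2 hc).ne'
  refine ⟨U, h, Y, Q, fun x => (√c : ℂ) • X x, p, hx, hG, fun x hx => ?_⟩
  obtain ⟨h1, h2, h3, h4, h5, h6⟩ := H x hx
  refine ⟨fun i j => analyticAt_const.mul (h1 i j), ?_, ?_, ?_, fun u v e => h5 ?_, fun ξ => ?_⟩
  · rw [Matrix.mul_smul, h2, smul_comm]
  · rw [Matrix.mul_smul, h3, Matrix.mul_smul]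
  · beta_reduce
    rw [h4, conjTranspose_smul, Matrix.smul_mul, Matrix.smul_mul, Matrix.mul_smul, smul_smul,
      star_def, conj_ofReal, ← ofReal_mul, Real.mul_self_sqrt hc.le]
  · beta_reduce at e
    rw [smul_mulVec, smul_mulVec] at e
    exact smul_right_injective _ h0 e
  · obtain ⟨d, hd⟩ := h6 ξ
    refine ⟨d, ?_⟩
    rw [V.derM_csmul _ fun i j => ((h1 i j).restrictScalars (𝕜 := ℝ)).contDiffAt, hd, smul_add,
      Matrix.mul_smul, Matrix.smul_mul]

namespace V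

variable {A : Type} [NormedAddCommGroup A] [NormedSpace ℂ A] {S : Set A} {w : ℕ}

theorem VHS.topAt (V : VHS A S ι w) {φ : E → A} {O : Set E} (hO : IsOpen O)
    (hφ : ∀ e ∈ O, Plot S φ e) {u : l → E → ι → ℂ} (top : ∀ i, V.HolTop φ (u i) O)
    (ind : ∀ e ∈ O, LinearIndependent ℂ fun i => u i e)
    (orth : ∀ e ∈ O, ∀ ξ i, ∃ c : l → ℂ, V.π w (φ e) *ᵥ fderiv ℂ
      (fun e' => cx (V.κ (φ e) (φ e')) *ᵥ u i e') e ξ = ∑ j, c j • u j e)
    {e0 : E} (he0 : e0 ∈ O) :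
    TopAt ι ((∑ p ∈ wt w, (p : ℝ) ^ 2) * Fintype.card ι)
      (fun e => Matrix.of fun i j => qf (V.H (φ e)) (u i e) (u j e)) e0 := by
  have hc : ContinuousOn φ O := fun e he => (hφ e he).1.continuousAt.continuousWithinAt
  have hm : Set.MapsTo φ O S := fun e he => (hφ e he).mem
  obtain ⟨N, hN, hxN, hk⟩ := (V.germ.comp hc hm).exists_fr he0
  obtain ⟨r, hr, hb⟩ := Metric.isOpen_iff.1 (hN.inter hO) e0 ⟨hxN, he0⟩
  have hs : ball e0 r ⊆ O := fun _ h => (hb h).2
  set k : E → GL ι ℤ := fun e => V.κ (φ e0) (φ e) with hkd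
  have hk' : IsFr (ball e0 r) (fun a a' => V.κ (φ a) (φ a')) k := hk.mono hb
  set Q := (cx (k e0)⁻¹)ᴴ * V.ψ (φ e0) * cx (k e0)⁻¹ with hQd
  have hQ : ∀ e ∈ ball e0 r, Q = (cx (k e)⁻¹)ᴴ * V.ψ (φ e) * cx (k e)⁻¹ := fun e he =>
    V.psi_fr (convex_ball e0 r).isPreconnected (hc.mono hs) (hm.mono_left hs) hk'
      (mem_ball_self hr) he
  have L := V.lv isOpen_ball (fun e he => (hφ e (hs he)).1) (hm.mono_left hs) hk' hQ
  set π : ℤ → E → Matrix ι ι ℂ := fun p a => cx (k a) * V.π p (φ a) * cx (k a)⁻¹ with hπ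
  set X : E → Matrix ι l ℂ := fun e => Matrix.of fun a i => (cx (k e) *ᵥ u i e) a with hX
  have hloc : ∀ e ∈ ball e0 r, ∀ i, (fun e' => cx (k e') *ᵥ u i e') =ᶠ[𝓝 e]
      fun e' => cx (k e) *ᵥ (cx (V.κ (φ e) (φ e')) *ᵥ u i e') := fun e he i => by
    filter_upwards [(isOpen_ball.nhdsWithin_eq he ▸ hk' e he :)] with e' h
    rw [h, cx_mul, mulVec_mulVec]
  have han : ∀ e ∈ ball e0 r, ∀ a i, AnalyticAt ℂ (fun y => X y a i) e := fun e he a i => by
    have h1 := analyticAt_pi_iff.1 (top i e (hs he)).1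
    refine AnalyticAt.congr (f := fun e' => (cx (k e) *ᵥ (cx (V.κ (φ e) (φ e')) *ᵥ u i e')) a) ?_
      ((hloc e he i).mono fun _ h => (congrFun h a).symm)
    exact Finset.analyticAt_fun_sum _ fun b _ => analyticAt_const.mul (h1 b)
  have hpX : ∀ e ∈ ball e0 r, π w e * X e = X e := fun e he => by
    ext a i
    have : π w e *ᵥ (cx (k e) *ᵥ u i e) = cx (k e) *ᵥ u i e := by
      rw [hπ, mulVec_mulVec, Matrix.mul_assoc, cx_inv_mul, Matrix.mul_one, ← mulVec_mulVec,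
        (top i e (hs he)).2]
    exact congrFun this a
  refine ⟨ball e0 r, _, _, (-1 : ℂ) ^ (w : ℤ) • Q, X, (w : ℤ), mem_ball_self hr, L.gm,
    fun e he => ⟨han e he, ?_, ?_, ?_, ?_, fun ξ => ?_⟩⟩
  · rw [← hpX e he, ← Matrix.mul_assoc, L.gr_mul he, Matrix.smul_mul]
  · conv_lhs => rw [← hpX e he, Matrix.mul_assoc, ← Matrix.mul_assoc (wey _ _ _), L.wey_mul he,
      Matrix.smul_mul, hpX e he, Matrix.mul_smul]
    rw [Matrix.smul_mul]
  · have e1 : wey (wt w) π e * cx (k e) = cx (k e) * wey (wt w) V.π (φ e) := by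
      simp only [wey, hπ, Matrix.sum_mul, Matrix.mul_sum, Matrix.smul_mul, Matrix.mul_smul,
        Matrix.mul_assoc, cx_inv_mul, Matrix.mul_one]
    have e2 : (cx (k e))ᴴ * (Q * wey (wt w) π e) * cx (k e) = V.H (φ e) := by
      rw [hQ e he, Matrix.mul_assoc, Matrix.mul_assoc, e1, Matrix.mul_assoc,
        ← Matrix.mul_assoc (cx (k e)⁻¹), cx_inv_mul, Matrix.one_mul, Matrix.mul_assoc,
        ← Matrix.mul_assoc (cx (k e))ᴴ, ← conjTranspose_mul, cx_inv_mul, conjTranspose_one,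
        Matrix.one_mul, VHS.H]
    ext i j
    change qf (V.H (φ e)) (u i e) (u j e) = _
    rw [← e2, ← qf_mulVec_right, ← qf_mulVec_left, Matrix.mul_assoc (X e)ᴴ]
    rfl
  · intro a b hab
    have e1 : ∀ a : l → ℂ, X e *ᵥ a = cx (k e) *ᵥ ∑ i, a i • u i e := fun a => by
      rw [mulVec_sum]
      ext x
      simp [hX, mulVec_smul, mulVec, dotProduct, mul_comm, Finset.mul_sum, mul_left_comm]
    have e2 := congrArg (fun v => cx (k e)⁻¹ *ᵥ v) hab
    simp only [e1, mulVec_mulVec, cx_inv_mul, one_mulVec] at e2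
    exact funext (Fintype.linearIndependent_iffₛ.1 (ind e (hs he)) a b e2)
  · choose c hc using orth e (hs he) ξ
    have sX : SmM X e := fun a i => ((han e he a i).restrictScalars (𝕜 := ℝ)).contDiffAt
    have e1 : derM (-I) ξ (fun y => π w y * X y) e = derM (-I) ξ X e :=
      derM_congr_on isOpen_ball he hpX
    have e2 : π w e * derM (-I) ξ X e = X e * Matrix.of fun j i => c i j := by
      ext a i
      have d1 := (top i e (hs he)).1.differentiableAt
      have e3 : (fun b => derM (-I) ξ X e b i) = cx (k e) *ᵥ fderiv ℂ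
          (fun e' => cx (V.κ (φ e) (φ e')) *ᵥ u i e') e ξ := by
        ext b
        rw [derM, of_apply, d_holo (han e he b i).differentiableAt]
        have e4 : (fun y => X y b i) =ᶠ[𝓝 e] fun e' =>
            ∑ x, cx (k e) b x * (cx (V.κ (φ e) (φ e')) *ᵥ u i e') x :=
          (hloc e he i).mono fun _ h => congrFun h b
        have d2 := differentiableAt_pi.1 d1
        rw [e4.fderiv_eq, fderiv_fun_sum fun x _ => (d2 x).const_mul _, fderiv_pi d2]
        rw [_root_.sum_apply]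
        refine Finset.sum_congr rfl fun x _ => ?_
        rw [fderiv_const_mul (d2 x)]
        rfl
      have e5 : π w e *ᵥ (fun b => derM (-I) ξ X e b i) = cx (k e) *ᵥ ∑ j, c i j • u j e := by
        rw [e3, hπ, mulVec_mulVec, Matrix.mul_assoc, cx_inv_mul, Matrix.mul_one, ← mulVec_mulVec,
          hc i]
      refine (congrFun e5 a).trans ?_
      rw [mulVec_sum]
      simp [hX, mulVec_smul, mul_apply, mul_comm]
    refine ⟨Matrix.of fun j i => c i j, ?_⟩
    rw [← e1, derM_mul (L.sm w e he) sX, e2, L.d_prj he, Matrix.sub_mul, Matrix.mul_assoc,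
      hpX e he, Matrix.mul_assoc, ← hpX e he, ← Matrix.mul_assoc _ (π w e) (X e), L.th_shift he,
      ← Matrix.mul_assoc (π w e), ← Matrix.mul_assoc (π w e),
      (L.prj e he).orth w (w - 1) (by omega), Matrix.zero_mul, Matrix.zero_mul, sub_zero]

end V

end Pool.Agent.Lib.MP_5c318e_ag
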