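import Pool.Agent.Lib.MP_5c318e_ag.O.KOrth
import Pool.Agent.Lib.MP_5c318e_ag.Ku.KReg
import Pool.Agent.Lib.MP_5c318e_ag.Ku.TopV
import Pool.Agent.Lib.MP_5c318e_ag.N.Gram

/-! From the variation of a root of a regular function to the Gram matrix of a parallel frame. -/

set_option autoImplicit false

namespace Pool.Agent.Lib.MP_5c318e_ag.Ku

open Matrix Filter Topology MeasureTheory
open Pool.Agent.Lib.MP_5c318e_ag.V
open scoped ENNReal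

variable {A R ν κ : Type} [NormedAddCommGroup A] [NormedSpace ℂ A] [CommRing R] [Fintype ν]
  [Fintype κ] {C : FC A R ν} {l : Type} [Fintype l] [DecidableEq l]

theorem Kum.topAt {q : MvPolynomial (κ × Option ν) R} {M n w : ℕ} {S : Set A}
    (K : Kum C q M S n w) (hM : 0 < M) (hS : S ⊆ C.S0) (G : Subgroup (Equiv.Perm κ))
    (hG : ∀ σ ∈ G, ∀ a ∈ S, ∀ p ∈ C.Fk a, ‖C.evp a (fun k => p (σ k)) q‖ = ‖C.evp a p q‖)
    {E : Type} [NormedAddCommGroup E] [NormedSpace ℂ E] [FiniteDimensional ℂ E]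
    [MeasurableSpace E] [BorelSpace E] (μ : Measure E) [μ.IsAddHaarMeasure]
    {φ : E → A} {O : Set E} (hO : IsOpen O) (hφ : ∀ e ∈ O, Plot S φ e)
    {Φ : l → E × (κ → Vp ν) → ℂ}
    (hol : ∀ i, ∀ e ∈ O, ∀ p ∈ C.Fk (φ e), C.evp (φ e) p q ≠ 0 → HolAt (C.tot φ O) (Φ i) (e, p))
    (inv : ∀ i, ∀ σ ∈ G, ∀ e p, Φ i (e, fun k => p (σ k)) = Φ i (e, p))
    {h : E → (l → ℂ) → ℝ≥0∞} (hh : ∀ e ∈ O, ∀ c, h e c =
      ∫⁻ p, ENNReal.ofReal (‖∑ i, c i * Φ i (e, p)‖ ^ 2 * C.wt q M (φ e) p) ∂C.μk (φ e))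
    (loc : ∀ i, ∀ e ∈ O, ∃ N ∈ 𝓝 e, ∫⁻ e' in N, h e' (Pi.single i 1) ∂μ < ⊤)
    (ind : ∀ e ∈ O, ∀ c, c ≠ 0 → h e c ≠ 0)
    (full : O ⊆ closure {e | e ∈ O ∧ Full C q M G (φ e) fun i p => Φ i (e, p)})
    {e0 : E} (he0 : e0 ∈ O) : (∀ c, h e0 c ≠ ⊤) ∧
      TopAt (Fin n) ((∑ p ∈ wt w, (p : ℝ) ^ 2) * n) (fun e => N.pz (h e)) e0 := by
  have fam := fun i => K.fam_cl E μ φ O (Φ i) hO hφ
    (fun e he p hp => hol i e he p hp.1 (K.q_ne _ (hφ e he).mem p hp)) fun e he => by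
      obtain ⟨N, hN, hi⟩ := loc i e he
      refine ⟨N ∩ O, inter_mem hN (hO.mem_nhds he), lt_of_le_of_lt ?_ hi⟩
      rw [Set.inter_comm, ← Measure.restrict_restrict hO.measurableSet]
      refine le_trans (le_of_eq (setLIntegral_congr_fun hO.measurableSet fun e' he' => ?_))
        (lintegral_mono' Measure.restrict_le_self le_rfl)
      simp [hh e' he', Pi.single_apply]
  have gram := fun e he c => (K.gram hS (hφ e he).mem (fun i => (fam i).2 e he) c).2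
  have hM0 : (M : ℝ≥0∞) ≠ 0 := Nat.cast_ne_zero.2 hM.ne'
  have hli : ∀ e ∈ O, LinearIndependent ℂ fun i => K.cl (φ e) fun p => Φ i (e, p) := fun e he => by
    refine Fintype.linearIndependent_iff.2 fun c hc => congrFun (by_contra fun h0 => ?_)
    have := gram e he c
    rw [hc, ← hh e he, VHS.nv, qf_zero_left, Complex.zero_re, ENNReal.ofReal_zero] at this
    exact mul_ne_zero hM0 (ind e he c h0) this.symm
  have hfin : ∀ e ∈ O, ∀ c, h e c ≠ ⊤ := fun e he c h0 => by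
    have := gram e he c
    rw [← hh e he, h0, ENNReal.mul_top hM0] at this
    exact ENNReal.ofReal_ne_top this
  refine ⟨hfin e0 he0, ?_⟩
  have H := (K.W.topAt hO hφ (fun i => (fam i).1) hli (fun e he ξ i => K.orth hS G hG hO hφ hol inv
    (fun i => (fam i).2) (fun i => (fam i).1) hli full he ξ i) he0).smul
      (inv_pos.2 (Nat.cast_pos.2 hM))
  rw [Fintype.card_fin] at H
  refine H.congr (eventually_of_mem (hO.mem_nhds he0) fun e he => N.pz_eq fun c => ?_)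
  have e1 : star c ⬝ᵥ (Matrix.of fun i j => qf (K.W.H (φ e)) (K.cl (φ e) fun p => Φ i (e, p))
      (K.cl (φ e) fun p => Φ j (e, p))) *ᵥ c = qf (K.W.H (φ e))
        (∑ i, c i • K.cl (φ e) fun p => Φ i (e, p)) (∑ i, c i • K.cl (φ e) fun p => Φ i (e, p)) := by
    rw [qf_comb_left]
    simp only [qf_comb, dotProduct, mulVec, of_apply, Pi.star_apply, mul_comm (c _)]
    rfl
  have e2 := congrArg ENNReal.toReal (gram e he c)
  rw [ENNReal.toReal_ofReal (K.W.nv_nonneg (hφ e he).mem _), ← hh e he, ENNReal.toReal_mul,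
    ENNReal.toReal_natCast] at e2
  rw [smul_mulVec, dotProduct_smul, e1, K.W.qf_nv (hφ e he).mem, e2, smul_eq_mul,
    ← Complex.ofReal_mul, inv_mul_cancel_left₀ (Nat.cast_ne_zero.2 hM.ne')]

/-- every invariant function that is square integrable for `|f| ^ (2 / M)` is a combination of
the `φ i` -/
def FullF (C : FC A R ν) (f : (κ → Vp ν) → ℂ) (M : ℕ) (G : Subgroup (Equiv.Perm κ)) (a : A)
    (φ : l → (κ → Vp ν) → ℂ) : Prop :=
  ∀ (h : MvPolynomial (κ × ν) ℂ) (ψ : (κ → Vp ν) → ℂ), h ≠ 0 →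
    (∀ p ∈ C.Fk a, MvPolynomial.eval (xs p) h ≠ 0 → HolAt (C.Fk a) ψ p) →
    (∀ σ ∈ G, ∀ p, ψ (fun k => p (σ k)) = ψ p) →
    ∫⁻ p, ‖ψ p‖ₑ ^ 2 * ‖f p‖ₑ ^ (2 / M : ℝ) ∂C.μk a < ⊤ →
    ∃ (c : l → ℂ) (h' : MvPolynomial (κ × ν) ℂ), h' ≠ 0 ∧
      ∀ p ∈ C.Fk a, MvPolynomial.eval (xs p) h' ≠ 0 → f p ≠ 0 → ψ p = ∑ i, c i * φ i p

omit [Fintype κ] in
theorem wt_eq {q : MvPolynomial (κ × Option ν) R} {M : ℕ} (hM : 0 < M) {a : A} {p : κ → Vp ν}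
    {f d : ℂ} (hd : d ≠ 0) (hq : C.evp a p q = f * d ^ M) (z : ℂ) :
    ENNReal.ofReal (‖z / d‖ ^ 2 * C.wt q M a p) = ‖z‖ₑ ^ 2 * ‖f‖ₑ ^ (2 / M : ℝ) := by
  have h2 : (0 : ℝ) ≤ 2 / M := by positivity
  have e : (‖d‖ ^ M) ^ (2 / M : ℝ) = ‖d‖ ^ 2 := by
    rw [← Real.rpow_natCast_mul (norm_nonneg _), mul_div_cancel₀ _ (Nat.cast_ne_zero.2 hM.ne'),
      Real.rpow_two]
  rw [FC.wt, hq, norm_mul, norm_pow, Real.mul_rpow (norm_nonneg _) (by positivity), e, norm_div,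
    div_pow, mul_comm (_ ^ (2 / M : ℝ)), ← mul_assoc,
    div_mul_cancel₀ _ (pow_ne_zero _ (norm_ne_zero_iff.2 hd)), ENNReal.ofReal_mul (by positivity),
    ENNReal.ofReal_pow (norm_nonneg _), ← ENNReal.ofReal_rpow_of_nonneg (norm_nonneg _) h2,
    ofReal_norm, ofReal_norm]

end Pool.Agent.Lib.MP_5c318e_ag.Ku
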