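import Pool.Agent.Lib.MP_5c318e_ag.Ku.Kum
import Pool.Agent.Lib.MP_5c318e_ag.Ku.KTop

/-! The parallel frame attached to a root of a regular function, with the covering hidden. -/

set_option autoImplicit false

namespace Pool.Agent.Lib.MP_5c318e_ag.Ku

open Matrix Filter Topology MeasureTheory
open Pool.Agent.Lib.MP_5c318e_ag.V
open scoped ENNReal

variable {A R ν κ : Type} [NormedAddCommGroup A] [NormedSpace ℂ A] [CommRing R] [Fintype ν]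
  [Fintype κ] {C : FC A R ν} {l : Type} [Fintype l] [DecidableEq l]

/-- THE GENERIC FORM: the functions `U i / H` times the root `f ^ (1 / M)` -/
theorem kum_top [FiniteDimensional ℂ A] [IsDomain R] [CharZero R] (C : FC A R ν)
    {f H : A → (κ → Vp ν) → ℂ} {U : l → A → (κ → Vp ν) → ℂ} (hf : f ∈ C.Rd κ) (hH : H ∈ C.Rg κ)
    (hU : ∀ i, U i ∈ C.Rg κ) (h0 : ∀ a, ∀ p ∈ C.Fk a, f a p ≠ 0 → H a p ≠ 0) {M : ℕ} (hM : 0 < M)
    (G : Subgroup (Equiv.Perm κ))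
    (hG : ∀ σ ∈ G, ∀ a p, ‖f a fun k => p (σ k)‖ = ‖f a p‖)
    (inv : ∀ i, ∀ σ ∈ G, ∀ a p, (U i a fun k => p (σ k)) / (H a fun k => p (σ k)) = U i a p / H a p)
    {F : A → (l → ℂ) → (κ → Vp ν) → ℝ≥0∞} (hF : ∀ a c, ∀ p ∈ C.Fk a, f a p ≠ 0 →
      F a c p = ‖∑ i, c i * (U i a p / H a p)‖ₑ ^ 2 * ‖f a p‖ₑ ^ (2 / M : ℝ)) :
    ∃ δ : R, δ ≠ 0 ∧ ∀ S ⊆ C.S0, (∀ a ∈ S, C.ev a δ ≠ 0) → Charted S → IsPreconnected S →
      ∃ (n : ℕ) (K : ℝ), ∀ (E : Type) [NormedAddCommGroup E] [NormedSpace ℂ E]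
        [FiniteDimensional ℂ E] [MeasurableSpace E] [BorelSpace E] (μ : Measure E)
        [μ.IsAddHaarMeasure] (φ : E → A) (O : Set E), IsOpen O → (∀ e ∈ O, Plot S φ e) →
        (∀ i, ∀ e ∈ O, ∃ N ∈ 𝓝 e,
          ∫⁻ e' in N, (∫⁻ p, F (φ e') (Pi.single i 1) p ∂C.μk (φ e')) ∂μ < ⊤) →
        (∀ e ∈ O, ∀ c, c ≠ 0 → ∫⁻ p, F (φ e) c p ∂C.μk (φ e) ≠ 0) →
        O ⊆ closure {e | e ∈ O ∧ FullF C (f (φ e)) M G (φ e) fun i p => U i (φ e) p / H (φ e) p} →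
        ∀ e ∈ O, (∀ c, ∫⁻ p, F (φ e) c p ∂C.μk (φ e) ≠ ⊤) ∧
          TopAt (Fin n) K (fun e => N.pz fun c => ∫⁻ p, F (φ e) c p ∂C.μk (φ e)) e := by
  obtain ⟨q, N, hq⟩ := FC.rg_pow hf.1 hM
  have hd : ∀ a, ∀ p ∈ C.Fk a, C.evp a p (C.dd κ) ^ N ≠ 0 := fun a p hp =>
    pow_ne_zero _ (C.dd_ne hp)
  have hqf : ∀ a, ∀ p ∈ C.Fk a, C.evp a p q ≠ 0 ↔ f a p ≠ 0 := fun a p hp => by
    rw [hq a p hp, mul_ne_zero_iff_right (pow_ne_zero _ (hd a p hp))]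
  have hD : (fun a p => C.evp a p (C.dd κ) ^ N) ∈ C.Rg κ := pow_mem (C.evp_mem _) N
  obtain ⟨δ, hδ, H1⟩ := kum C q hM fun a ha p hp =>
    closure_mono (fun p hp => by exact ⟨hp.1, (hqf a p hp.1).2 hp.2⟩) (hf.2 a ha hp)
  refine ⟨δ, hδ, fun S hS h1 h2 h3 => ?_⟩
  obtain ⟨n, w, ⟨K⟩⟩ := H1 S hS h1 h2 h3
  refine ⟨n, _, fun E _ _ _ _ _ μ _ φ O hO hφ loc ind full e he => K.topAt hM hS G
    (fun σ hσ a _ p hp => ?_) μ hO hφ
    (Φ := fun i y => U i (φ y.1) y.2 / H (φ y.1) y.2 / C.evp (φ y.1) y.2 (C.dd κ) ^ N)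
    (fun i e he p hp h4 => ?_) (fun i σ hσ e p => by simp only [inv i σ hσ, C.dd_perm])
    (fun e he c => lintegral_congr_ae ?_) loc ind (full.trans (closure_mono ?_)) he⟩
  · rw [hq a p hp, hq a _ fun k => hp _, norm_mul, norm_mul, hG σ hσ, C.dd_perm]
  · have hp0 : Plot C.S0 φ e := ⟨(hφ e he).1, (hφ e he).2.mono fun _ h => hS h⟩
    exact ((FC.rg_hol (hU i) hp0 hp).div (FC.rg_hol hH hp0 hp)
      (h0 _ p hp ((hqf _ p hp).1 h4))).div (FC.rg_hol hD hp0 hp) (hd _ p hp)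
  · filter_upwards [FC.ae_good (hS (hφ e he).mem) (K.g_ne _ (hφ e he).mem)] with p hp
    rw [hF _ c p hp.1 ((hqf _ p hp.1).1 (K.q_ne _ (hφ e he).mem p hp)),
      ← wt_eq hM (hd _ p hp.1) (hq _ p hp.1), Finset.sum_div]
    simp only [mul_div_assoc]
  · rintro e ⟨he, hfull⟩
    refine ⟨he, fun h ψ hh hol hinv hint => ?_⟩
    have ha := (hφ e he).mem
    obtain ⟨c, h', hh', hc⟩ := hfull h (fun p => ψ p * C.evp (φ e) p (C.dd κ) ^ N) hh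
      (fun p hp h4 => (hol p hp h4).mul (FC.rg_hol1 hD (hS ha) hp))
      (fun σ hσ p => by simp only [hinv σ hσ, C.dd_perm]) (by
        refine lt_of_eq_of_lt (lintegral_congr_ae ?_) hint
        filter_upwards [FC.ae_good (hS ha) (K.g_ne _ ha)] with p hp
        rw [← wt_eq hM (hd _ p hp.1) (hq _ p hp.1), mul_div_cancel_right₀ _ (hd _ p hp.1)])
    refine ⟨c, h' * MvPolynomial.map (C.ev (φ e)) K.g, mul_ne_zero hh' (K.g_ne _ ha),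
      fun p hp h4 => ?_⟩
    rw [map_mul, MvPolynomial.eval_map] at h4
    have h5 := hc p hp (left_ne_zero_of_mul h4)
      ((hqf _ p hp).1 (K.q_ne _ ha p ⟨hp, right_ne_zero_of_mul h4⟩))
    simp only [← mul_div_assoc _ (_ / _), ← Finset.sum_div]
    rw [← h5, mul_div_cancel_right₀ _ (hd _ p hp)]

end Pool.Agent.Lib.MP_5c318e_ag.Ku
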