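import Pool.Agent.Lib.MP_5c318e_ag.Ku.KBas
import Pool.Agent.Lib.MP_5c318e_ag.V.Frame

/-! Classes are linear, and their norms are the weighted integrals. -/

set_option autoImplicit false

namespace Pool.Agent.Lib.MP_5c318e_ag.Ku

open Matrix Filter Topology MeasureTheory Polynomial
open Pool.Agent.Lib.MP_5c318e_ag.V
open scoped ComplexConjugate

variable {A R ν κ : Type} [NormedAddCommGroup A] [NormedSpace ℂ A] [CommRing R] [Fintype ν]
  [Fintype κ] {C : FC A R ν} {q : MvPolynomial (κ × Option ν) R} {M n w : ℕ} {S : Set A}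
  {g : MvPolynomial (κ × ν) R} {a : A}

theorem HolAt.sum {Y : Type} [NormedAddCommGroup Y] [NormedSpace ℂ Y] {U : Set Y} {y : Y}
    {l : Type} (s : Finset l) {φ : l → Y → ℂ} (h : ∀ i ∈ s, HolAt U (φ i) y) :
    HolAt U (fun x => ∑ i ∈ s, φ i x) y :=
  fun E _ _ γ e hγ he => Finset.analyticAt_fun_sum s fun i hi => h i hi E γ e hγ he

omit [Fintype κ] in
theorem FC.wt_nonneg (a : A) (p : κ → Vp ν) : 0 ≤ C.wt q M a p :=
  Real.rpow_nonneg (norm_nonneg _) _

theorem FC.wt_cont (ha : a ∈ C.S0) : Continuous (C.wt q M a) := by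
  have c : Continuous fun p : κ → Vp ν => C.evp a p q :=
    continuous_iff_continuousAt.2 fun p => (C.kb_an (kb_const ha p) q
      (analyticAt_pi_iff.2 fun i => by
        obtain ⟨k, _ | l⟩ := i
        · exact analyticAt_snd.comp (kb_app analyticAt_id k)
        · exact kb_app (analyticAt_fst.comp (kb_app analyticAt_id k)) l)).continuousAt
  exact c.norm.rpow_const fun _ => Or.inr (by positivity)

theorem FC.ae_good (ha : a ∈ C.S0) (hg : MvPolynomial.map (C.ev a) g ≠ 0) :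
    ∀ᵐ p ∂C.μk a, p ∈ C.good g a :=
  (C.ae ha hg).mono fun _ hp => ⟨hp.1, by rw [← MvPolynomial.eval_map]; exact hp.2⟩

theorem FC.Mem.aesm (ha : a ∈ C.S0) (hg : MvPolynomial.map (C.ev a) g ≠ 0)
    {φ : (κ → Vp ν) → ℂ} (h : ∀ p ∈ C.good g a, HolAt (C.Fk a) φ p) :
    AEStronglyMeasurable (fun p => ‖φ p‖ ^ 2 * C.wt q M a p) (C.μk a) :=
  ((C.aesm ha hg fun p hp h0 => h p ⟨hp, by rwa [← MvPolynomial.eval_map]⟩).norm.pow 2).mul
    (FC.wt_cont ha).aestronglyMeasurable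

theorem FC.Mem.int (ha : a ∈ C.S0) (hg : MvPolynomial.map (C.ev a) g ≠ 0)
    {φ : (κ → Vp ν) → ℂ} (h : C.Mem q M g a φ) :
    Integrable (fun p => ‖φ p‖ ^ 2 * C.wt q M a p) (C.μk a) :=
  ⟨FC.Mem.aesm ha hg h.1, (hasFiniteIntegral_iff_ofReal (.of_forall fun p =>
    mul_nonneg (sq_nonneg _) (FC.wt_nonneg a p))).2 h.2⟩

theorem FC.Mem.sum (ha : a ∈ C.S0) (hg : MvPolynomial.map (C.ev a) g ≠ 0) {l : Type} [Fintype l]
    {φ : l → (κ → Vp ν) → ℂ} (h : ∀ i, C.Mem q M g a (φ i)) (c : l → ℂ) :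
    C.Mem q M g a fun p => ∑ i, c i * φ i p := by
  refine ⟨fun p hp => HolAt.sum _ fun i _ =>
    (HolAt.of_analyticAt analyticAt_const).mul ((h i).1 p hp), ?_⟩
  have i1 := (integrable_finsetSum Finset.univ fun i _ => FC.Mem.int ha hg (h i)).const_mul
    (∑ i, ‖c i‖ ^ 2)
  refine (lintegral_mono fun p => ?_).trans_lt i1.2
  refine (ENNReal.ofReal_le_ofReal ?_).trans (Real.ofReal_le_enorm _)
  beta_reduce
  rw [← Finset.sum_mul, ← mul_assoc]
  refine mul_le_mul_of_nonneg_right (le_trans (pow_le_pow_left₀ (norm_nonneg _)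
    ((norm_sum_le _ _).trans_eq ?_) 2) (Finset.sum_mul_sq_le_sq_mul_sq _ (fun i => ‖c i‖)
      fun i => ‖φ i p‖)) (FC.wt_nonneg a p)
  simp only [norm_mul]

theorem Kum.gram (K : Kum C q M S n w) (hS : S ⊆ C.S0) {a : A} (ha : a ∈ S) {l : Type} [Fintype l]
    {φ : l → (κ → Vp ν) → ℂ} (h : ∀ i, C.Mem q M K.g a (φ i)) (c : l → ℂ) :
    K.cl a (fun p => ∑ i, c i * φ i p) = ∑ i, c i • K.cl a (φ i) ∧
    ENNReal.ofReal (K.W.nv a (∑ i, c i • K.cl a (φ i))) =
      M * ∫⁻ p, ENNReal.ofReal (‖∑ i, c i * φ i p‖ ^ 2 * C.wt q M a p) ∂C.μk a := by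
  have hg := K.g_ne a ha
  have m := FC.Mem.sum (hS ha) hg h c
  have t := K.cl_top a ha _ m
  have e : K.cl a (fun p => ∑ i, c i * φ i p) = ∑ i, c i • K.cl a (φ i) := by
    obtain ⟨v, hv⟩ : ∃ v, v = K.cl a (fun p => ∑ i, c i * φ i p) - ∑ i, c i • K.cl a (φ i) :=
      ⟨_, rfl⟩
    have tv : K.W.π w a *ᵥ v = v := by
      simp only [hv, mulVec_sub, mulVec_sum, mulVec_smul, t.1, (K.cl_top a ha _ (h _)).1]
    have z : ∀ ψ, C.Mem q M K.g a ψ → qf (K.W.H a) (K.cl a ψ) v = 0 := fun ψ hψ => by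
      rw [K.adj a ha ψ v hψ tv, integral_congr_ae (g := 0), Pi.zero_def, integral_zero, mul_zero]
      filter_upwards [FC.ae_good (hS ha) hg] with p hp
      simp only [hv, map_sub, map_sum, map_smul, Pi.sub_apply, Finset.sum_apply, Pi.smul_apply,
        t.2 p hp, (K.cl_top a ha _ (h _)).2 p hp, smul_eq_mul, sub_self, mul_zero, zero_mul,
        Pi.zero_apply]
    have z' : qf (K.W.H a) (∑ i, c i • K.cl a (φ i)) v = 0 :=
      Finset.sum_induction _ (fun u => qf (K.W.H a) u v = 0)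
        (fun _ _ h1 h2 => by rw [qf_add_left, h1, h2, add_zero]) (qf_zero_left _ _)
        fun i _ => by rw [qf_smul_left, z _ (h i), mul_zero]
    refine sub_eq_zero.1 (hv ▸ qf_eq_zero (K.W.H_pos ha) (u := v) ?_)
    nth_rewrite 1 [hv]
    rw [qf_sub_left, z _ m, z', sub_zero, Complex.zero_re]
  refine ⟨e, ?_⟩
  rw [← e, VHS.nv, K.adj a ha _ _ m t.1, integral_congr_ae (g := fun p =>
    ((‖∑ i, c i * φ i p‖ ^ 2 * C.wt q M a p : ℝ) : ℂ)), integral_complex_ofReal,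
    ← Complex.ofReal_natCast, ← Complex.ofReal_mul, Complex.ofReal_re,
    ENNReal.ofReal_mul (Nat.cast_nonneg _), ENNReal.ofReal_natCast,
    ofReal_integral_eq_lintegral_ofReal (FC.Mem.int (hS ha) hg m) (.of_forall fun p =>
      mul_nonneg (sq_nonneg _) (FC.wt_nonneg a p))]
  filter_upwards [FC.ae_good (hS ha) hg] with p hp
  rw [t.2 p hp, Complex.conj_mul']
  push_cast
  rfl

end Pool.Agent.Lib.MP_5c318e_ag.Ku
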