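import Pool.Agent.Lib.MP_5c318e_ag.Ku.KumA
import Pool.Agent.Lib.MP_5c318e_ag.T.Tower

/-! The variation attached to a root of a regular function on a power of the fibre exists. -/

set_option autoImplicit false

namespace Pool.Agent.Lib.MP_5c318e_ag.Ku

open Filter Topology
open Pool.Agent.Lib.MP_5c318e_ag.V

variable {A R ν κ : Type} [NormedAddCommGroup A] [NormedSpace ℂ A] [CommRing R] [Fintype ν]
  [Fintype κ]

/-- the weight is the number of coordinates -/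
theorem kum' [FiniteDimensional ℂ A] [IsDomain R] [CharZero R] (C : FC A R ν)
    (q : MvPolynomial (κ × Option ν) R) {M : ℕ} (hM : 0 < M)
    (hq : ∀ a ∈ C.S0, C.Fk a ⊆ closure {p | p ∈ C.Fk a ∧ C.evp a p q ≠ 0}) :
    ∃ δ : R, δ ≠ 0 ∧ ∀ S ⊆ C.S0, (∀ a ∈ S, C.ev a δ ≠ 0) → Charted S → IsPreconnected S →
      ∃ n, Nonempty (Kum C q M S n (0 + Fintype.card (κ × ν))) := by
  have := FiniteDimensional.complete ℂ A
  obtain ⟨g0, h0, hg⟩ := C.norm_poly q hq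
  obtain ⟨δ, hδ, g, ⟨c, hc⟩, H⟩ := tower C.an h0
  refine ⟨δ, hδ, fun S hS h1 h2 h3 => ?_⟩
  obtain ⟨-, pc, -, -, st⟩ := H S hS h1 h2 h3
  have sub : ∀ y ∈ om C S g, y.1 ∈ C.S0 := fun y hy => hS hy.1
  have k := fun y (hy : y ∈ om C S g) => hg y.1 (sub y hy) y.2 fun e =>
    hy.2 (by rw [hc, MvPolynomial.eval₂_mul, e, zero_mul])
  obtain ⟨d, ⟨K⟩⟩ := exists_cov (Ω := om C S g) (pr := fun p : PP C q M => p.1.1) pc
    fun y hy => (C.al1 sub (fun y hy => (k y hy).1) hM hy (k y hy).2).sheets hy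
  obtain ⟨n, ⟨T⟩⟩ := st d 0 K.V0
  exact ⟨n, ⟨Sh.kum ⟨K, hM, sub, fun y hy => (k y hy).1, fun y hy => (k y hy).2⟩ hS T⟩⟩

theorem kum [FiniteDimensional ℂ A] [IsDomain R] [CharZero R] (C : FC A R ν)
    (q : MvPolynomial (κ × Option ν) R) {M : ℕ} (hM : 0 < M)
    (hq : ∀ a ∈ C.S0, C.Fk a ⊆ closure {p | p ∈ C.Fk a ∧ C.evp a p q ≠ 0}) :
    ∃ δ : R, δ ≠ 0 ∧ ∀ S ⊆ C.S0, (∀ a ∈ S, C.ev a δ ≠ 0) → Charted S → IsPreconnected S →
      ∃ n w, Nonempty (Kum C q M S n w) :=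
  (kum' C q hM hq).imp fun _ h => ⟨h.1, fun S a b c d => (h.2 S a b c d).imp fun _ k => ⟨_, k⟩⟩

end Pool.Agent.Lib.MP_5c318e_ag.Ku
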