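import Pool.Agent.Lib.MP_5c318e_ag.Ku.Sh
import Pool.Agent.Lib.MP_5c318e_ag.Ku.KBas
import Pool.Agent.Lib.MP_5c318e_ag.T.Comp

/-! The variation attached to a root, from the integration over the coordinates. -/

set_option autoImplicit false

namespace Pool.Agent.Lib.MP_5c318e_ag.Ku

open Filter Topology MeasureTheory Matrix
open Pool.Agent.Lib.MP_5c318e_ag.V
open scoped ComplexConjugate

noncomputable section

variable {A R ν κ : Type} [NormedAddCommGroup A] [NormedSpace ℂ A] [CommRing R] [Fintype ν]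
  [Fintype κ] {C : FC A R ν} {q : MvPolynomial (κ × Option ν) R} {M : ℕ}
  {g : MvPolynomial (κ × ν) R} {S : Set A} {d n w : ℕ}

/-- the part of `S × ℂ^(κ × ν)` where `g` does not vanish -/
def om (C : FC A R ν) (S : Set A) (g : MvPolynomial (κ × ν) R) : Set (A × (κ × ν → ℂ)) :=
  {y | y.1 ∈ S ∧ MvPolynomial.eval₂ (C.ev y.1) y.2 g ≠ 0}

theorem g_ne (F : Fibd S (om C S g)) {a : A} (ha : a ∈ S) : MvPolynomial.map (C.ev a) g ≠ 0 := by
  obtain ⟨x, hx⟩ := (F.null a ha).exists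
  intro e
  exact hx.2 (by rw [MvPolynomial.eval₂_eq_eval_map, e, map_zero])

theorem wt_nonneg (a : A) (p : κ → Vp ν) : 0 ≤ C.wt q M a p := Real.rpow_nonneg (norm_nonneg _) _

theorem cont_wt (a : A) : Continuous (C.wt q M a) :=
  (C.cont_evp a q).norm.rpow_const fun _ => Or.inr (by positivity)

theorem aesm_good {a : A} (ha : a ∈ C.S0) (hg : MvPolynomial.map (C.ev a) g ≠ 0)
    {φ : (κ → Vp ν) → ℂ} (h : ∀ p ∈ C.good g a, HolAt (C.Fk a) φ p) :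
    AEStronglyMeasurable φ (C.μk a) :=
  C.aesm ha hg fun p h1 h2 => h p ⟨h1, by rwa [MvPolynomial.eval₂_eq_eval_map]⟩

theorem aem_l2 {a : A} {φ : (κ → Vp ν) → ℂ} (h : AEStronglyMeasurable φ (C.μk a)) :
    AEStronglyMeasurable (fun p => ‖φ p‖ ^ 2 * C.wt q M a p) (C.μk a) :=
  (h.norm.pow 2).mul (cont_wt a).aestronglyMeasurable

theorem int_l2 {a : A} {φ : (κ → Vp ν) → ℂ} (h : AEStronglyMeasurable φ (C.μk a))
    (hf : ∫⁻ p, ENNReal.ofReal (‖φ p‖ ^ 2 * C.wt q M a p) ∂C.μk a < ⊤) :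
    Integrable (fun p => ‖φ p‖ ^ 2 * C.wt q M a p) (C.μk a) :=
  ⟨aem_l2 h, (hasFiniteIntegral_iff_ofReal (Eventually.of_forall fun p =>
    mul_nonneg (sq_nonneg _) (wt_nonneg a p))).2 hf⟩

theorem int_pair {a : A} {φ ψ : (κ → Vp ν) → ℂ} (h : AEStronglyMeasurable φ (C.μk a))
    (hf : ∫⁻ p, ENNReal.ofReal (‖φ p‖ ^ 2 * C.wt q M a p) ∂C.μk a < ⊤)
    (h' : AEStronglyMeasurable ψ (C.μk a))
    (hf' : ∫⁻ p, ENNReal.ofReal (‖ψ p‖ ^ 2 * C.wt q M a p) ∂C.μk a < ⊤) :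
    Integrable (fun p => conj (φ p) * ψ p * (C.wt q M a p : ℂ)) (C.μk a) := by
  refine ((int_l2 h hf).add (int_l2 h' hf')).mono'
    (((Complex.continuous_conj.comp_aestronglyMeasurable h).mul h').mul
      (Complex.continuous_ofReal.comp (cont_wt a)).aestronglyMeasurable)
    (Eventually.of_forall fun p => ?_)
  have w0 := wt_nonneg (C := C) (q := q) (M := M) a p
  rw [norm_mul, norm_mul, Complex.norm_conj, Complex.norm_real, Real.norm_of_nonneg w0,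
    Pi.add_apply, ← add_mul]
  have a1 := sq_nonneg (‖φ p‖ - ‖ψ p‖)
  have a2 := mul_nonneg (norm_nonneg (φ p)) (norm_nonneg (ψ p))
  exact mul_le_mul_of_nonneg_right (by linarith) w0

namespace Sh

variable (H : Sh C q M (om C S g) d) (hS : S ⊆ C.S0)

theorem ae_W (F : Fibd S (om C S g)) {a : A} (ha : a ∈ S) :
    ∀ᵐ x, ∀ w0, w0 ∈ H.W (a, x) ↔ pt x w0 ∈ C.Fk a :=
  (F.null a ha).mono fun _ hx => H.mem_W hx

include hS in
theorem lint_lift (F : Fibd S (om C S g)) {a : A} (ha : a ∈ S) {φ : (κ → Vp ν) → ℂ}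
    (h : AEStronglyMeasurable φ (C.μk a)) :
    ∫⁻ x, ENNReal.ofReal (H.K.V0.nv (a, x) (H.K.vec (lift φ) (a, x))) =
      M * ∫⁻ p, ENNReal.ofReal (‖φ p‖ ^ 2 * C.wt q M a p) ∂C.μk a := by
  rw [(C.lint_fin (hS ha) (H.ae_W F ha) (aem_l2 h).aemeasurable.ennreal_ofReal).2,
    ← lintegral_const_mul' _ _ (ENNReal.natCast_ne_top M)]
  refine lintegral_congr_ae ((F.null a ha).mono fun x hx => ?_)
  simp only
  rw [H.nv_lift hx, ENNReal.ofReal_mul (Nat.cast_nonneg M), ENNReal.ofReal_natCast,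
    ENNReal.ofReal_sum_of_nonneg fun _ _ => mul_nonneg (sq_nonneg _) (wt_nonneg _ _)]

variable [CompleteSpace A]

theorem top_lift (F : Fibd S (om C S g)) {a : A} (ha : a ∈ S) {φ : (κ → Vp ν) → ℂ}
    (h : ∀ p ∈ C.good g a, HolAt (C.Fk a) φ p) :
    H.K.V0.HolTop (fun x => (a, x)) (fun x => H.K.vec (lift φ) (a, x)) (fz (om C S g) a) :=
  (H.K.holTop_iff (F.plot_fz ha) fun _ => lift φ).2 fun x hx =>
    H.ana_lift (Φ := fun _ => φ) (F.plot_fz ha x hx) fun ω h1 h2 =>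
      h (pt x (ω x)) ⟨h2.self_of_nhds, hx.2⟩ _ (fun x' => pt x' (ω x')) x
        ⟨(ana_pt (x, ω x)).comp_of_eq (analyticAt_id.prod h1) rfl, h2⟩ rfl

include hS in
theorem int_lift (F : Fibd S (om C S g)) {a : A} (ha : a ∈ S) {φ : (κ → Vp ν) → ℂ}
    (h : C.Mem q M g a φ) : Integrable fun x => H.K.V0.nv (a, x) (H.K.vec (lift φ) (a, x)) := by
  refine ⟨aesm_nv F ha (H.top_lift F ha h.1), (hasFiniteIntegral_iff_ofReal
    ((F.null a ha).mono fun x hx => H.K.V0.nv_nonneg hx _)).2 ?_⟩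
  rw [H.lint_lift hS F ha (aesm_good (hS ha) (g_ne F ha) h.1)]
  exact ENNReal.mul_lt_top (ENNReal.natCast_lt_top M) h.2

variable (T : Stp H.K.V0 S n w)

/-- the function of a class -/
def rep (a : A) : (Fin n → ℂ) →ₗ[ℂ] (κ → Vp ν) → ℂ :=
  LinearMap.pi fun p => H.dnf (a, xs p) (fun k => (p k).2) ∘ₗ LinearMap.proj (xs p) ∘ₗ T.up a

omit [CompleteSpace A] in
theorem rep_apply (a : A) (v : Fin n → ℂ) (p : κ → Vp ν) :
    H.rep T a v p = H.dnf (a, xs p) (fun k => (p k).2) (T.up a v (xs p)) := rfl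

/-- the class of a function -/
def cl (a : A) (φ : (κ → Vp ν) → ℂ) : Fin n → ℂ := T.dn a fun x => H.K.vec (lift φ) (a, x)

omit T in
theorem ana_dnf' {E : Type} [NormedAddCommGroup E] [NormedSpace ℂ E] {e : E} {α : E → A}
    {γ : E → κ → Vp ν} {u : E → Fin d → ℂ} (hγ : AnalyticAt ℂ γ e)
    (pl : Plot (om C S g) (fun e' => (α e', xs (γ e'))) e) (hm : ∀ᶠ e' in 𝓝 e, γ e' ∈ C.Fk (α e'))
    (hu : AnalyticAt ℂ (fun e' => cx (H.K.V0.κ (α e, xs (γ e)) (α e', xs (γ e'))) *ᵥ u e') e) :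
    AnalyticAt ℂ (fun e' => H.dnf (α e', xs (γ e')) (fun k => (γ e' k).2) (u e')) e :=
  H.ana_dnf pl hu (ω := fun e' k => (γ e' k).2) ((ana_snd (γ e)).comp hγ).continuousAt hm

theorem rep_hol {a : A} (ha : a ∈ S) {v : Fin n → ℂ} (hv : T.W.π w a *ᵥ v = v) :
    ∀ p ∈ C.good g a, HolAt (C.Fk a) (H.rep T a v) p := by
  rintro p hp E _ _ γ e hγ rfl
  have m : xs (γ e) ∈ fz (om C S g) a := ⟨ha, hp.2⟩
  have ax : AnalyticAt ℂ (fun e' => xs (γ e')) e := (ana_xs (γ e)).comp hγ.1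
  have pl : Plot (om C S g) (fun e' => (a, xs (γ e'))) e :=
    Plot.precomp (φ := fun x => (a, x)) (g := fun e' => xs (γ e')) (T.fibd.plot_fz ha _ m) ax
  have hu := AnalyticAt.comp (g := fun x => cx (H.K.V0.κ (a, xs (γ e)) (a, x)) *ᵥ T.up a v x)
    (f := fun e' => xs (γ e')) (x := e) ((T.up_top a ha v hv).1 _ m).1 ax
  exact H.ana_dnf' (α := fun _ => a) (u := fun e' => T.up a v (xs (γ e'))) hγ.1 pl hγ.2 hu

omit [CompleteSpace A] in
theorem rep_pt (a : A) (v : Fin n → ℂ) (x : κ × ν → ℂ) (w0 : κ → ℂ) :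
    H.rep T a v (pt x w0) = H.dnf (a, x) w0 (T.up a v x) := rfl

include hS in
theorem rep_mem {a : A} (ha : a ∈ S) {v : Fin n → ℂ} (hv : T.W.π w a *ᵥ v = v) :
    C.Mem q M g a (H.rep T a v) := by
  have h := H.rep_hol T ha hv
  have m := (aem_l2 (q := q) (M := M)
    (aesm_good (hS ha) (g_ne T.fibd ha) h)).aemeasurable.ennreal_ofReal
  refine ⟨h, ?_⟩
  rw [(C.lint_fin (hS ha) (H.ae_W T.fibd ha) m).2]
  refine lt_of_le_of_lt (lintegral_mono_ae ((T.fibd.null a ha).mono fun x hx => ?_))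
    (T.up_top a ha v hv).2.1.lintegral_lt_top
  rw [← ENNReal.ofReal_sum_of_nonneg fun _ _ => mul_nonneg (sq_nonneg _) (wt_nonneg _ _)]
  simp only [rep_pt]
  exact ENNReal.ofReal_le_ofReal (H.dnf_le hx (T.up a v x))

include hS in
theorem cl_top {a : A} (ha : a ∈ S) {φ : (κ → Vp ν) → ℂ} (h : C.Mem q M g a φ) :
    T.W.π w a *ᵥ H.cl T a φ = H.cl T a φ ∧ ∀ p ∈ C.good g a, H.rep T a (H.cl T a φ) p = φ p := by
  obtain ⟨h1, h2⟩ := T.dn_top a ha _ (H.top_lift T.fibd ha h.1) (H.int_lift hS T.fibd ha h)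
  refine ⟨h1, fun p hp => ?_⟩
  have m : (a, xs p) ∈ om C S g := ⟨ha, hp.2⟩
  rw [rep_apply, cl, h2 _ m]
  exact H.dnf_lift m φ hp.1

include hS in
theorem adj {a : A} (ha : a ∈ S) {φ : (κ → Vp ν) → ℂ} {v : Fin n → ℂ} (h : C.Mem q M g a φ)
    (hv : T.W.π w a *ᵥ v = v) : qf (T.W.H a) (H.cl T a φ) v =
      M * ∫ p, conj (φ p) * H.rep T a v p * (C.wt q M a p : ℂ) ∂C.μk a := by
  obtain ⟨h1, h2⟩ := T.dn_top a ha _ (H.top_lift T.fibd ha h.1) (H.int_lift hS T.fibd ha h)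
  have r := H.rep_mem hS T ha hv
  rw [cl, T.up_iso a ha _ _ h1 hv, C.int_fin (hS ha) (H.ae_W T.fibd ha)
    (int_pair (aesm_good (hS ha) (g_ne T.fibd ha) h.1) h.2
      (aesm_good (hS ha) (g_ne T.fibd ha) r.1) r.2), ← integral_const_mul]
  refine integral_congr_ae ((T.fibd.null a ha).mono fun x hx => ?_)
  simp only
  rw [h2 x hx, H.qf_lift hx]
  rfl

omit [CompleteSpace A] in
theorem slice {E : Type} [NormedAddCommGroup E] [NormedSpace ℂ E] {φ : E → A} {O : Set E}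
    {Φ : E × (κ → Vp ν) → ℂ} {e : E} (he : e ∈ O) {p : κ → Vp ν}
    (h : HolAt (C.tot φ O) Φ (e, p)) : HolAt (C.Fk (φ e)) (fun p => Φ (e, p)) p :=
  HolAt.comp (f := fun p => (e, p)) h (analyticAt_const.prod analyticAt_id)
    (eventually_mem_nhdsWithin.mono fun _ h => ⟨he, h⟩)

include hS in
theorem fam_cl {E : Type} [NormedAddCommGroup E] [NormedSpace ℂ E] [FiniteDimensional ℂ E]
    [MeasurableSpace E] [BorelSpace E] (μ : Measure E) [μ.IsAddHaarMeasure] {φ : E → A}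
    {O : Set E} {Φ : E × (κ → Vp ν) → ℂ} (hO : IsOpen O) (hφ : ∀ e ∈ O, Plot S φ e)
    (hol : ∀ e ∈ O, ∀ p ∈ C.good g (φ e), HolAt (C.tot φ O) Φ (e, p))
    (loc : ∀ e ∈ O, ∃ N ∈ 𝓝 e, ∫⁻ e' in N, (∫⁻ p, ENNReal.ofReal
      (‖Φ (e', p)‖ ^ 2 * C.wt q M (φ e') p) ∂C.μk (φ e')) ∂μ < ⊤) :
    T.W.HolTop φ (fun e => H.cl T (φ e) fun p => Φ (e, p)) O ∧
      ∀ e ∈ O, C.Mem q M g (φ e) fun p => Φ (e, p) := by
  have sl : ∀ e ∈ O, AEStronglyMeasurable (fun p => Φ (e, p)) (C.μk (φ e)) := fun e he =>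
    aesm_good (hS (hφ e he).mem) (g_ne T.fibd (hφ e he).mem) fun p hp => slice he (hol e he p hp)
  have pl := T.fibd.plot hO hφ
  have top : H.K.V0.HolTop (fun y : E × (κ × ν → ℂ) => (φ y.1, y.2))
      (fun y => H.K.vec (lift fun p => Φ (y.1, p)) (φ y.1, y.2))
      {y | y.1 ∈ O ∧ (φ y.1, y.2) ∈ om C S g} := by
    refine (H.K.holTop_iff pl fun y => lift fun p => Φ (y.1, p)).2 fun y hy => ?_
    refine H.ana_lift (Φ := fun y p => Φ (y.1, p)) (pl y hy) fun ω h1 h2 => ?_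
    have a1 : AnalyticAt ℂ (fun y' : E × (κ × ν → ℂ) => pt y'.2 (ω y')) y :=
      AnalyticAt.comp (g := fun z : (κ × ν → ℂ) × (κ → ℂ) => pt z.1 z.2)
        (f := fun y' : E × (κ × ν → ℂ) => (y'.2, ω y')) (ana_pt _) (analyticAt_snd.prod h1)
    exact hol y.1 hy.1 (pt y.2 (ω y)) ⟨h2.self_of_nhds, hy.2.2⟩ _
      (fun y' : E × (κ × ν → ℂ) => (y'.1, pt y'.2 (ω y'))) y ⟨analyticAt_fst.prod a1,
        ((continuous_fst.continuousAt.eventually (hO.mem_nhds hy.1)).and h2).mono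
          fun _ h => h⟩ rfl
  obtain ⟨h1, h2⟩ := T.fam_dn E μ φ O
    (fun y => H.K.vec (lift fun p => Φ (y.1, p)) (φ y.1, y.2)) hO hφ top fun e he => by
      obtain ⟨N, hN, hf⟩ := loc e he
      obtain ⟨N', h1, h2, h3⟩ := mem_nhds_iff.1 (inter_mem hN (hO.mem_nhds he))
      refine ⟨N', h2.mem_nhds h3, ?_⟩
      rw [setLIntegral_congr_fun h2.measurableSet fun e' h =>
        H.lint_lift hS T.fibd (hφ e' (h1 h).2).mem (sl e' (h1 h).2),
        lintegral_const_mul' _ _ (ENNReal.natCast_ne_top M)]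
      exact ENNReal.mul_lt_top (ENNReal.natCast_lt_top M)
        ((lintegral_mono_set fun _ h => (h1 h).1).trans_lt hf)
  refine ⟨h1, fun e he => ⟨fun p hp => slice he (hol e he p hp), ?_⟩⟩
  have := (h2 e he).lintegral_lt_top
  rw [H.lint_lift hS T.fibd (hφ e he).mem (sl e he)] at this
  exact (ENNReal.lt_top_of_mul_ne_top_right this.ne (by exact_mod_cast H.pos.ne'))

theorem fam_rep {E : Type} [NormedAddCommGroup E] [NormedSpace ℂ E] [FiniteDimensional ℂ E]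
    {φ : E → A} {O : Set E} {v : E → Fin n → ℂ} (hO : IsOpen O) (hφ : ∀ e ∈ O, Plot S φ e)
    (hv : T.W.HolTop φ v O) {e : E} (he : e ∈ O) {p : κ → Vp ν} (hp : p ∈ C.good g (φ e)) :
    HolAt (C.tot φ O) (fun y => H.rep T (φ y.1) (v y.1) y.2) (e, p) := by
  intro E' _ _ γ e' hγ h0
  have a2 : AnalyticAt ℂ (fun x => (γ x).2) e' := analyticAt_snd.comp hγ.1
  have ax : AnalyticAt ℂ (fun x => ((γ x).1, xs (γ x).2)) e' :=
    (analyticAt_fst.comp hγ.1).prod ((ana_xs _).comp a2)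
  have m : ((γ e').1, xs (γ e').2) ∈
      {y : E × (κ × ν → ℂ) | y.1 ∈ O ∧ (φ y.1, y.2) ∈ om C S g} := by
    rw [h0]
    exact ⟨he, (hφ e he).mem, hp.2⟩
  have pl : Plot (om C S g) (fun x => (φ (γ x).1, xs (γ x).2)) e' :=
    Plot.precomp (φ := fun y : E × (κ × ν → ℂ) => (φ y.1, y.2))
      (g := fun x => ((γ x).1, xs (γ x).2)) (T.fibd.plot hO hφ _ m) ax
  have hu := AnalyticAt.comp (g := fun y : E × (κ × ν → ℂ) =>
      cx (H.K.V0.κ (φ (γ e').1, xs (γ e').2) (φ y.1, y.2)) *ᵥ T.up (φ y.1) (v y.1) y.2)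
    (f := fun x => ((γ x).1, xs (γ x).2)) (x := e') (T.fam_up E φ O v hO hφ hv _ m).1 ax
  exact H.ana_dnf' (α := fun x => φ (γ x).1) (γ := fun x => (γ x).2)
    (u := fun x => T.up (φ (γ x).1) (v (γ x).1) (xs (γ x).2)) a2 pl
    (hγ.2.mono fun _ h => h.2) hu

/-- the output -/
def kum : Kum C q M S n w where
  W := T.W
  g := g
  rep := H.rep T
  cl := H.cl T
  g_ne := fun _ ha => g_ne T.fibd ha
  q_ne := fun a ha p hp => H.hq (a, xs p) ⟨ha, hp.2⟩ _ hp.1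
  rep_mem := fun _ ha _ hv => H.rep_mem hS T ha hv
  cl_top := fun _ ha _ h => H.cl_top hS T ha h
  adj := fun _ ha _ _ h hv => H.adj hS T ha h hv
  fam_cl := fun _ _ _ _ _ _ μ _ _ _ _ hO hφ hol loc => H.fam_cl hS T μ hO hφ hol loc
  fam_rep := fun _ _ _ _ _ _ _ hO hφ hv _ he _ hp => H.fam_rep T hO hφ hv he hp

end Sh

end

end Pool.Agent.Lib.MP_5c318e_ag.Ku
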