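import Pool.Agent.Lib.MP_5c318e_ag.Ku.KDefs
import Pool.Agent.Lib.MP_5c318e_ag.T.Cov

/-! Simple roots are holomorphic; finite coverings given by holomorphic lists. -/

set_option autoImplicit false

namespace Pool.Agent.Lib.MP_5c318e_ag.Ku

open Filter Topology Polynomial
open Pool.Agent.Lib.MP_5c318e_ag.V
open scoped ContDiff

variable {Y U : Type} [NormedAddCommGroup Y] [NormedSpace ℂ Y] [NormedAddCommGroup U]
  [NormedSpace ℂ U]

/-- the implicit function theorem in one unknown -/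
theorem ift [CompleteSpace Y] {H : Y × ℂ → ℂ} {y : Y} {w : ℂ} (hH : AnalyticAt ℂ H (y, w))
    (h0 : H (y, w) = 0) {c : ℂ} (hc : c ≠ 0) (hd : HasDerivAt (fun s => H (y, s)) c w) :
    ∃ ρ : Y → ℂ, AnalyticAt ℂ ρ y ∧ ρ y = w ∧ (∀ᶠ y' in 𝓝 y, H (y', ρ y') = 0) ∧
      ∀ᶠ v in 𝓝 (y, w), H v = 0 → ρ v.1 = v.2 := by
  have cd : ContDiffAt ℂ ω H (y, w) := hH.contDiffAt
  have e : fderiv ℂ H (y, w) ∘L ContinuousLinearMap.inr ℂ Y ℂ =
      (ContinuousLinearEquiv.unitsEquivAut ℂ (Units.mk0 c hc) : ℂ →L[ℂ] ℂ) := by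
    have a : HasFDerivAt (fun s => H (y, s))
        (fderiv ℂ H (y, w) ∘L ContinuousLinearMap.inr ℂ Y ℂ) w :=
      hH.differentiableAt.hasFDerivAt.comp w (hasFDerivAt_prodMk_right y w)
    rw [a.unique hd.hasFDerivAt]
    ext
    simp
  have inv : (fderiv ℂ H (y, w) ∘L ContinuousLinearMap.inr ℂ Y ℂ).IsInvertible := ⟨_, e.symm⟩
  have n : (ω : WithTop ℕ∞) ≠ 0 := by simp
  refine ⟨cd.implicitFunction n inv, (cd.contDiffAt_implicitFunction n inv).analyticAt,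
    cd.implicitFunction_apply_self n inv, ?_, ?_⟩
  · simpa only [h0] using cd.eventually_apply_implicitFunction n inv
  · exact (cd.eventually_apply_eq_iff_implicitFunction n inv).mono fun v h e => h.1 (e.trans h0.symm)

theorem ev_inj {I : Type} [Finite I] {τ : I → Y → U} {y : Y} (hc : ∀ i, ContinuousAt (τ i) y)
    (hi : Function.Injective fun i => τ i y) :
    ∀ᶠ y' in 𝓝 y, Function.Injective fun i => τ i y' := by
  have : ∀ᶠ y' in 𝓝 y, ∀ i j, i ≠ j → τ i y' ≠ τ j y' := by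
    refine eventually_all.2 fun i => eventually_all.2 fun j => ?_
    by_cases h : i = j
    · simp [h]
    · exact (((hc i).prodMk (hc j)).eventually (isClosed_diagonal.isOpen_compl.mem_nhds
        (x := (τ i y, τ j y)) fun e => h (hi e))).mono fun _ g _ => g
  exact this.mono fun y' h i j e => by
    by_contra g
    exact h i j g e

/-- all roots of a family of monic polynomials near a separable one -/
theorem roots [CompleteSpace Y] {Ω : Set Y} {y : Y} (hy : y ∈ Ω) {Q : Y → ℂ[X]} {n : ℕ}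
    (hQ : ∀ᶠ y' in 𝓝[Ω] y, Q y' ≠ 0 ∧ (Q y').natDegree = n) (hs : (Q y).Separable)
    {H : Y × ℂ → ℂ} (hH : ∀ w, AnalyticAt ℂ H (y, w))
    (he : ∀ᶠ y' in 𝓝[Ω] y, ∀ w, H (y', w) = (Q y').eval w) :
    ∃ ρ : Fin n → Y → ℂ, (∀ i, AnalyticAt ℂ (ρ i) y) ∧ (Function.Injective fun i => ρ i y) ∧
      ∀ᶠ y' in 𝓝[Ω] y, ∀ w, (Q y').eval w = 0 ↔ ∃ i, ρ i y' = w := by
  classical
  obtain ⟨q0, qn⟩ := hQ.self_of_nhdsWithin hy
  have e0 := he.self_of_nhdsWithin hy
  have cd : (Q y).roots.toFinset.card = n := by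
    rw [Multiset.toFinset_card_of_nodup (nodup_roots hs), ← qn,
      (IsAlgClosed.splits (Q y)).natDegree_eq_card_roots]
  let r : Fin n → ℂ := fun i => ((Finset.equivFinOfCardEq cd).symm i : ℂ)
  have ri : Function.Injective r := fun i j e =>
    (Finset.equivFinOfCardEq cd).symm.injective (Subtype.ext e)
  have rr : ∀ i, (Q y).eval (r i) = 0 := fun i =>
    (mem_roots q0).1 (Multiset.mem_toFinset.1 ((Finset.equivFinOfCardEq cd).symm i).2)
  choose ρ h1 h2 h3 _ using fun i => ift (hH (r i)) ((e0 _).trans (rr i))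
    (c := (derivative (Q y)).eval (r i)) (hs.eval₂_derivative_ne_zero (RingHom.id ℂ) (rr i))
    (by simpa only [e0] using (Q y).hasDerivAt (r i))
  have inj : Function.Injective fun i => ρ i y := by simpa only [h2] using ri
  refine ⟨ρ, h1, inj, ?_⟩
  filter_upwards [hQ, he, nhdsWithin_le_nhds (eventually_all.2 h3),
    nhdsWithin_le_nhds (ev_inj (fun i => (h1 i).continuousAt) inj)] with y' g1 g2 g3 g4 w
  have sub : Finset.univ.image (fun i => ρ i y') ⊆ (Q y').roots.toFinset := fun s hs => by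
    obtain ⟨i, -, rfl⟩ := Finset.mem_image.1 hs
    exact Multiset.mem_toFinset.2 ((mem_roots g1.1).2 ((g2 _).symm.trans (g3 i)))
  have eq := Finset.eq_of_subset_of_card_le sub (by
    rw [Finset.card_image_of_injective _ g4, Finset.card_univ, Fintype.card_fin, ← g1.2]
    exact (Multiset.toFinset_card_le _).trans (card_roots' _))
  refine ⟨fun h => ?_, fun ⟨i, h⟩ => h ▸ (g2 _).symm.trans (g3 i)⟩
  have : w ∈ (Q y').roots.toFinset := Multiset.mem_toFinset.2 ((mem_roots g1.1).2 h)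
  rw [← eq] at this
  simpa using this

/-- near `y` the set `T` is a finite union of disjoint holomorphic graphs over `Ω` -/
def AL (Ω : Set Y) (T : Y × U → Prop) (y : Y) : Prop :=
  ∃ (I : Type) (_ : Fintype I) (τ : I → Y → U), (∀ i, AnalyticAt ℂ (τ i) y) ∧
    (Function.Injective fun i => τ i y) ∧ ∀ᶠ y' in 𝓝[Ω] y, ∀ u, T (y', u) ↔ ∃ i, τ i y' = u

variable {Ω : Set Y} {T : Y × U → Prop} {y : Y}

theorem AL.sheets [CompleteSpace U] (h : AL Ω T y) (hy : y ∈ Ω) :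
    ∃ (d : ℕ) (σ : Fin d → Y → {u // T u}), Sheets Ω (fun p : {u // T u} => p.1.1) σ y := by
  classical
  obtain ⟨I, _, τ, h1, h2, h3⟩ := h
  have m0 : ∀ i, T (y, τ i y) := fun i => (h3.self_of_nhdsWithin hy _).2 ⟨i, rfl⟩
  let e := (Fintype.equivFin I).symm
  let σ : I → Y → {u // T u} := fun i y' =>
    if h : T (y', τ i y') then ⟨_, h⟩ else ⟨_, m0 i⟩
  have s : ∀ᶠ y' in 𝓝[Ω] y, ∀ i, (σ i y').1 = (y', τ i y') := h3.mono fun y' g i => by
    simp only [σ, dif_pos ((g _).2 ⟨i, rfl⟩)]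
  refine ⟨_, fun j => σ (e j), ?_⟩
  filter_upwards [h3, s, eventually_eventually_nhdsWithin.2 s, self_mem_nhdsWithin,
    nhdsWithin_le_nhds (eventually_all.2 fun i => (h1 i).eventually_analyticAt),
    nhdsWithin_le_nhds (ev_inj (fun i => (h1 i).continuousAt) h2)] with y' g1 g2 g3 g4 g5 g6
  refine ⟨fun j => ⟨?_, by rw [g2]⟩, fun j k g => e.injective (g6 ?_), fun p hp => ?_⟩
  · refine Topology.IsInducing.subtypeVal.continuousWithinAt_iff.2 ?_
    exact (continuousAt_id.prodMk (g5 (e j)).continuousAt).continuousWithinAt.congr_of_eventuallyEq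
      (g3.mono fun _ g => g _) (g2 _)
  · have := congrArg (fun p : {u // T u} => p.1.2) g
    simpa only [g2] using this
  · obtain ⟨⟨a, u⟩, hu⟩ := p
    obtain rfl : a = y' := hp
    obtain ⟨i, hi⟩ := (g1 u).1 hu
    exact ⟨e.symm i, Subtype.ext (by rw [e.apply_symm_apply, g2, hi])⟩

variable {E : Type} [NormedAddCommGroup E] [NormedSpace ℂ E] {φ : E → Y} {a : E}

/-- a continuous lift follows one graph -/
theorem follow {X : Type} [TopologicalSpace X] {x : X} {I : Type} [Finite I] {τ : I → X → U}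
    (h1 : ∀ i, ContinuousAt (τ i) x) (h2 : Function.Injective fun i => τ i x) {l : X → U}
    (hl : ContinuousAt l x) (h : ∀ᶠ x' in 𝓝 x, ∃ i, τ i x' = l x') {i : I} (hi : τ i x = l x) :
    ∀ᶠ x' in 𝓝 x, τ i x' = l x' := by
  have : ∀ᶠ x' in 𝓝 x, ∀ k, k ≠ i → τ k x' ≠ l x' := by
    refine eventually_all.2 fun k => ?_
    by_cases hk : k = i
    · simp [hk]
    · exact (((h1 k).prodMk hl).eventually (isClosed_diagonal.isOpen_compl.mem_nhds
        (x := (τ k x, l x)) fun e => hk (h2 (e.trans hi.symm)))).mono fun _ g _ => g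
  filter_upwards [this, h] with x' g1 ⟨k, g2⟩
  by_contra g
  exact g1 k (fun e => g (e ▸ g2)) g2

theorem AL.ana (h : AL Ω T (φ a)) (hφ : Plot Ω φ a) {l : E → U} (hl : ContinuousAt l a)
    (hT : ∀ᶠ a' in 𝓝 a, T (φ a', l a')) : AnalyticAt ℂ l a := by
  obtain ⟨I, _, τ, h1, h2, h3⟩ := h
  have g : ∀ᶠ a' in 𝓝 a, ∃ i, τ i (φ a') = l a' := by
    filter_upwards [hφ.tendsto.eventually h3, hT] with a' g1 g2 using (g1 _).1 g2
  obtain ⟨i, hi⟩ := g.self_of_nhds
  exact ((h1 i).comp hφ.1).congr (follow (τ := fun i a' => τ i (φ a'))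
    (fun i => ((h1 i).comp hφ.1).continuousAt) h2 hl g hi)

theorem AL.uniq (h : AL Ω T (φ a)) (hφ : Plot Ω φ a) {l l' : E → U} (hl : ContinuousAt l a)
    (hT : ∀ᶠ a' in 𝓝 a, T (φ a', l a')) (hl' : ContinuousAt l' a)
    (hT' : ∀ᶠ a' in 𝓝 a, T (φ a', l' a')) (e : l a = l' a) : l =ᶠ[𝓝 a] l' := by
  obtain ⟨I, _, τ, h1, h2, h3⟩ := h
  have g : ∀ᶠ a' in 𝓝 a, ∃ i, τ i (φ a') = l a' := by
    filter_upwards [hφ.tendsto.eventually h3, hT] with a' g1 g2 using (g1 _).1 g2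
  have g' : ∀ᶠ a' in 𝓝 a, ∃ i, τ i (φ a') = l' a' := by
    filter_upwards [hφ.tendsto.eventually h3, hT'] with a' g1 g2 using (g1 _).1 g2
  obtain ⟨i, hi⟩ := g.self_of_nhds
  have c := fun i => ((h1 i).comp hφ.1).continuousAt
  filter_upwards [follow (τ := fun i a' => τ i (φ a')) c h2 hl g hi,
    follow (τ := fun i a' => τ i (φ a')) c h2 hl' g' (hi.trans e)] with a' g1 g2
  exact g1.symm.trans g2

/-- adjoining a root of a function without zeros -/
theorem AL.root [CompleteSpace Y] (h : AL Ω T y) (hy : y ∈ Ω) {M : ℕ} (hM : 0 < M)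
    {c : Y × U → ℂ} (h0 : ∀ u, T (y, u) → c (y, u) ≠ 0)
    (hc : ∀ u, ∃ c' : Y × U → ℂ, AnalyticAt ℂ c' (y, u) ∧
      ∀ᶠ y' in 𝓝[Ω] y, ∀ u', c' (y', u') = c (y', u')) :
    AL Ω (fun v : Y × U × ℂ => T (v.1, v.2.1) ∧ v.2.2 ^ M = c (v.1, v.2.1)) y := by
  obtain ⟨I, _, τ, h1, h2, h3⟩ := h
  have m0 : ∀ i, T (y, τ i y) := fun i => (h3.self_of_nhdsWithin hy _).2 ⟨i, rfl⟩
  have key : ∀ i, ∃ ρ : Fin M → Y → ℂ, (∀ j, AnalyticAt ℂ (ρ j) y) ∧
      (Function.Injective fun j => ρ j y) ∧ ∀ᶠ y' in 𝓝[Ω] y, ∀ s,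
        (X ^ M - C (c (y', τ i y'))).eval s = 0 ↔ ∃ j, ρ j y' = s := fun i => by
    obtain ⟨c', a1, a2⟩ := hc (τ i y)
    refine roots hy (Eventually.of_forall fun y' =>
      ⟨X_pow_sub_C_ne_zero hM _, natDegree_X_pow_sub_C⟩)
      (separable_X_pow_sub_C _ (by exact_mod_cast hM.ne') (h0 _ (m0 i)))
      (H := fun v => v.2 ^ M - c' (v.1, τ i v.1)) (fun s => (analyticAt_snd.pow M).sub
        (a1.comp_of_eq (analyticAt_fst.prod ((h1 i).comp_of_eq analyticAt_fst rfl)) rfl))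
      (a2.mono fun y' g s => by simp [g])
  choose ρ r1 r2 r3 using key
  refine ⟨I × Fin M, inferInstance, fun i y' => (τ i.1 y', ρ i.1 i.2 y'),
    fun i => (h1 _).prod (r1 _ _), fun i j e => ?_, ?_⟩
  · obtain ⟨i1, i2⟩ := i
    obtain ⟨j1, j2⟩ := j
    obtain rfl : i1 = j1 := h2 (congrArg Prod.fst e)
    obtain rfl : i2 = j2 := r2 i1 (congrArg Prod.snd e)
    rfl
  · filter_upwards [h3, eventually_all.2 r3] with y' g1 g2 u
    simp only [eval_sub, eval_pow, eval_X, eval_C, sub_eq_zero] at g2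
    refine ⟨fun ⟨t1, t2⟩ => ?_, ?_⟩
    · obtain ⟨i, hi⟩ := (g1 _).1 t1
      obtain ⟨j, hj⟩ := (g2 i u.2).1 (hi ▸ t2)
      exact ⟨(i, j), Prod.ext hi hj⟩
    · rintro ⟨i, rfl⟩
      exact ⟨(g1 _).2 ⟨_, rfl⟩, (g2 _ _).2 ⟨_, rfl⟩⟩

/-- holomorphic extension of the values of a polynomial -/
theorem an_poly {A R σ : Type} [NormedAddCommGroup A] [NormedSpace ℂ A] [CommRing R] [Fintype σ]
    {S : Set A} {ev : A → R →+* ℂ} (h : AnEv S ev) {a : A} (ha : a ∈ S) (q : MvPolynomial σ R) :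
    ∃ H : A × (σ → ℂ) → ℂ, (∀ x, AnalyticAt ℂ H (a, x)) ∧
      ∀ᶠ a' in 𝓝[S] a, ∀ x, H (a', x) = MvPolynomial.eval₂ (ev a') x q := by
  induction q using MvPolynomial.induction_on with
  | C r =>
    obtain ⟨f, h1, h2⟩ := h r a ha
    exact ⟨fun v => f v.1, fun x => h1.comp_of_eq analyticAt_fst rfl,
      h2.mono fun a' g x => by simp [g]⟩
  | add p q hp hq =>
    obtain ⟨H, h1, h2⟩ := hp
    obtain ⟨H', h1', h2'⟩ := hq
    exact ⟨fun v => H v + H' v, fun x => (h1 x).add (h1' x),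
      (h2.and h2').mono fun a' g x => by simp [g.1, g.2]⟩
  | mul_X p i hp =>
    obtain ⟨H, h1, h2⟩ := hp
    exact ⟨fun v => H v * v.2 i, fun x => (h1 x).mul
      (((ContinuousLinearMap.proj i : (σ → ℂ) →L[ℂ] ℂ).analyticAt _).comp analyticAt_snd),
      h2.mono fun a' g x => by simp [g]⟩

end Pool.Agent.Lib.MP_5c318e_ag.Ku
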