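import Pool.Agent.Lib.MP_5c318e_ag.Ku.Fib

/-! The covering by a root: sums over the sheets, holomorphy of lifts and of averages. -/

set_option autoImplicit false

namespace Pool.Agent.Lib.MP_5c318e_ag.Ku

open Filter Topology MeasureTheory Matrix
open Pool.Agent.Lib.MP_5c318e_ag.V
open scoped ComplexConjugate

noncomputable section

variable {A R ν κ : Type} [NormedAddCommGroup A] [NormedSpace ℂ A] [CommRing R] [Fintype ν]
  [Fintype κ]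

/-- the covering space -/
abbrev PP (C : FC A R ν) (q : MvPolynomial (κ × Option ν) R) (M : ℕ) : Type :=
  {u // C.T1 q M u}

/-- the data of the covering over `Ω` -/
structure Sh (C : FC A R ν) (q : MvPolynomial (κ × Option ν) R) (M : ℕ)
    (Ω : Set (A × (κ × ν → ℂ))) (d : ℕ) where
  K : Cov Ω (fun p : PP C q M => p.1.1) d
  pos : 0 < M
  sub : ∀ y ∈ Ω, y.1 ∈ C.S0
  hΔ : ∀ y ∈ Ω, ∀ k, MvPolynomial.eval₂ (C.ev y.1) (fun l => y.2 (k, l)) C.Δ ≠ 0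
  hq : ∀ y ∈ Ω, ∀ w, pt y.2 w ∈ C.Fk y.1 → C.evp y.1 (pt y.2 w) q ≠ 0

variable {C : FC A R ν} {q : MvPolynomial (κ × Option ν) R} {M : ℕ}
  {Ω : Set (A × (κ × ν → ℂ))} {d : ℕ}

/-- the function `s φ` on the covering -/
def lift (φ : (κ → Vp ν) → ℂ) (u : PP C q M) : ℂ := u.1.2.2 * φ (pt u.1.1.2 u.1.2.1)

theorem norm_root {s c : ℂ} (hM : 0 < M) (h : s ^ M = c) : ‖c‖ ^ (2 / M : ℝ) = ‖s‖ ^ 2 := by
  have : (M : ℝ) ≠ 0 := by exact_mod_cast hM.ne'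
  rw [← h, norm_pow, ← Real.rpow_natCast, ← Real.rpow_mul (norm_nonneg _), mul_div_cancel₀ _ this,
    Real.rpow_two]

namespace Sh

variable (H : Sh C q M Ω d)

/-- the points below the sheets -/
def w (y : A × (κ × ν → ℂ)) (i : Fin d) (y' : A × (κ × ν → ℂ)) : κ → ℂ := (H.K.σ y i y').1.2.1

/-- the roots on the sheets -/
def s (y : A × (κ × ν → ℂ)) (i : Fin d) (y' : A × (κ × ν → ℂ)) : ℂ := (H.K.σ y i y').1.2.2

open Classical in
/-- the average of `u / s` over the sheets above a point -/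
def dnf (y : A × (κ × ν → ℂ)) (w0 : κ → ℂ) : (Fin d → ℂ) →ₗ[ℂ] ℂ where
  toFun u := (M : ℂ)⁻¹ * ∑ i ∈ Finset.univ.filter fun i => H.w y i y = w0, u i / H.s y i y
  map_add' u v := by simp only [Pi.add_apply, add_div, Finset.sum_add_distrib, mul_add]
  map_smul' c u := by
    simp only [Pi.smul_apply, smul_eq_mul, mul_div_assoc, ← Finset.mul_sum, RingHom.id_apply]
    ring

open Classical in
/-- the fibre of the lower covering -/
def W (y : A × (κ × ν → ℂ)) : Finset (κ → ℂ) := Finset.univ.image fun i => H.w y i y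

variable {y : A × (κ × ν → ℂ)}

theorem spec (hy : y ∈ Ω) (i : Fin d) :
    pt y.2 (H.w y i y) ∈ C.Fk y.1 ∧ H.s y i y ^ M = C.evp y.1 (pt y.2 (H.w y i y)) q := by
  have := (H.K.σ y i y).2
  rwa [FC.T1, show (H.K.σ y i y).1.1 = y from H.K.pr_σ hy i] at this

theorem s_ne (hy : y ∈ Ω) (i : Fin d) : H.s y i y ≠ 0 := fun e =>
  H.hq y hy _ (H.spec hy i).1 (by rw [← (H.spec hy i).2, e, zero_pow H.pos.ne'])

theorem wt_eq (hy : y ∈ Ω) (i : Fin d) :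
    C.wt q M y.1 (pt y.2 (H.w y i y)) = ‖H.s y i y‖ ^ 2 := norm_root H.pos (H.spec hy i).2

theorem ex (hy : y ∈ Ω) {w0 : κ → ℂ} (h : pt y.2 w0 ∈ C.Fk y.1) {s0 : ℂ}
    (hs : s0 ^ M = C.evp y.1 (pt y.2 w0) q) : ∃ i, H.w y i y = w0 ∧ H.s y i y = s0 := by
  obtain ⟨i, hi⟩ := H.K.surj (p := ⟨(y, w0, s0), h, hs⟩) hy
  exact ⟨i, congrArg (fun p : PP C q M => p.1.2.1) hi, congrArg (fun p : PP C q M => p.1.2.2) hi⟩

theorem mem_W (hy : y ∈ Ω) (w0 : κ → ℂ) : w0 ∈ H.W y ↔ pt y.2 w0 ∈ C.Fk y.1 := by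
  simp only [W, Finset.mem_image, Finset.mem_univ, true_and]
  refine ⟨fun ⟨i, hi⟩ => hi ▸ (H.spec hy i).1, fun h => ?_⟩
  obtain ⟨s0, hs⟩ := IsAlgClosed.exists_pow_nat_eq (C.evp y.1 (pt y.2 w0) q) H.pos
  exact (H.ex hy h hs).imp fun i hi => hi.1

open Classical in
theorem card (hy : y ∈ Ω) {w0 : κ → ℂ} (h : pt y.2 w0 ∈ C.Fk y.1) :
    (Finset.univ.filter fun i => H.w y i y = w0).card = M := by
  have pr := Complex.isPrimitiveRoot_exp M H.pos.ne'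
  have c : (Polynomial.nthRoots M (C.evp y.1 (pt y.2 w0) q)).toFinset.card = M := by
    rw [Multiset.toFinset_card_of_nodup (pr.nthRoots_nodup (H.hq y hy w0 h)), pr.card_nthRoots,
      if_pos (IsAlgClosed.exists_pow_nat_eq _ H.pos)]
  refine Eq.trans (Finset.card_bij (fun i _ => H.s y i y) (fun i hi => ?_) (fun i hi j hj e => ?_)
    fun s0 hs => ?_) c
  · rw [Multiset.mem_toFinset, Polynomial.mem_nthRoots H.pos, (H.spec hy i).2,
      (Finset.mem_filter.1 hi).2]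
  · refine H.K.inj hy (Subtype.ext (Prod.ext ((H.K.pr_σ hy i).trans (H.K.pr_σ hy j).symm)
      (Prod.ext ((Finset.mem_filter.1 hi).2.trans (Finset.mem_filter.1 hj).2.symm) e)))
  · rw [Multiset.mem_toFinset, Polynomial.mem_nthRoots H.pos] at hs
    obtain ⟨i, h1, h2⟩ := H.ex hy h hs
    exact ⟨i, Finset.mem_filter.2 ⟨Finset.mem_univ _, h1⟩, h2⟩

open Classical in
theorem sum_fib {β : Type} [AddCommMonoid β] (F : Fin d → β) :
    ∑ i, F i = ∑ w0 ∈ H.W y, ∑ i ∈ Finset.univ.filter fun i => H.w y i y = w0, F i :=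
  (Finset.sum_fiberwise_of_maps_to (fun i _ => Finset.mem_image_of_mem _ (Finset.mem_univ i)) F).symm

theorem vec_lift (hy : y ∈ Ω) (φ : (κ → Vp ν) → ℂ) (i : Fin d) :
    H.K.vec (lift φ) y i = H.s y i y * φ (pt y.2 (H.w y i y)) := by
  rw [Cov.vec, lift, show (H.K.σ y i y).1.1 = y from H.K.pr_σ hy i]
  rfl

theorem nv_lift (hy : y ∈ Ω) (φ : (κ → Vp ν) → ℂ) : H.K.V0.nv y (H.K.vec (lift φ) y) =
    M * ∑ w0 ∈ H.W y, ‖φ (pt y.2 w0)‖ ^ 2 * C.wt q M y.1 (pt y.2 w0) := by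
  classical
  rw [Cov.V0_nv, H.sum_fib (y := y), Finset.mul_sum]
  refine Finset.sum_congr rfl fun w0 h => ?_
  rw [Finset.sum_congr rfl fun i hi => (by
    rw [H.vec_lift hy, norm_mul, mul_pow, ← H.wt_eq hy, (Finset.mem_filter.1 hi).2] :
      ‖H.K.vec (lift φ) y i‖ ^ 2 = C.wt q M y.1 (pt y.2 w0) * ‖φ (pt y.2 w0)‖ ^ 2),
    Finset.sum_const, H.card hy ((H.mem_W hy w0).1 h), nsmul_eq_mul]
  ring

theorem dnf_lift (hy : y ∈ Ω) (φ : (κ → Vp ν) → ℂ) {w0 : κ → ℂ} (h : pt y.2 w0 ∈ C.Fk y.1) :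
    H.dnf y w0 (H.K.vec (lift φ) y) = φ (pt y.2 w0) := by
  classical
  have : (M : ℂ) ≠ 0 := by exact_mod_cast H.pos.ne'
  change (M : ℂ)⁻¹ * _ = _
  rw [Finset.sum_congr rfl fun i hi => (by
    rw [H.vec_lift hy, mul_div_cancel_left₀ _ (H.s_ne hy i), (Finset.mem_filter.1 hi).2] :
      H.K.vec (lift φ) y i / H.s y i y = φ (pt y.2 w0)),
    Finset.sum_const, H.card hy h, nsmul_eq_mul, inv_mul_cancel_left₀ this]

theorem qf_lift (hy : y ∈ Ω) (φ : (κ → Vp ν) → ℂ) (u : Fin d → ℂ) :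
    qf (H.K.V0.H y) (H.K.vec (lift φ) y) u = M * ∑ w0 ∈ H.W y,
      conj (φ (pt y.2 w0)) * H.dnf y w0 u * (C.wt q M y.1 (pt y.2 w0) : ℂ) := by
  classical
  have : (M : ℂ) ≠ 0 := by exact_mod_cast H.pos.ne'
  rw [Cov.V0_qf, H.sum_fib (y := y), Finset.mul_sum]
  refine Finset.sum_congr rfl fun w0 _ => ?_
  change _ = (M : ℂ) * (_ * ((M : ℂ)⁻¹ * _) * _)
  rw [Finset.sum_congr rfl fun i hi => (by
    have := H.s_ne hy i
    rw [H.vec_lift hy, ← (Finset.mem_filter.1 hi).2, H.wt_eq hy, map_mul, Complex.ofReal_pow,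
      ← Complex.conj_mul']
    field_simp :
      conj (H.K.vec (lift φ) y i) * u i =
        conj (φ (pt y.2 w0)) * (C.wt q M y.1 (pt y.2 w0) : ℂ) * (u i / H.s y i y)),
    ← Finset.mul_sum]
  field_simp

theorem dnf_le (hy : y ∈ Ω) (u : Fin d → ℂ) :
    ∑ w0 ∈ H.W y, ‖H.dnf y w0 u‖ ^ 2 * C.wt q M y.1 (pt y.2 w0) ≤ H.K.V0.nv y u := by
  classical
  rw [Cov.V0_nv, H.sum_fib (y := y)]
  refine Finset.sum_le_sum fun w0 h => ?_
  have M1 : (1 : ℝ) ≤ M := by exact_mod_cast H.pos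
  have a : ‖∑ i ∈ Finset.univ.filter fun i => H.w y i y = w0, u i / H.s y i y‖ ^ 2 ≤
      M * ∑ i ∈ Finset.univ.filter fun i => H.w y i y = w0, ‖u i / H.s y i y‖ ^ 2 := by
    refine (pow_le_pow_left₀ (norm_nonneg _) (norm_sum_le _ _) 2).trans
      (sq_sum_le_card_mul_sum_sq.trans_eq ?_)
    rw [H.card hy ((H.mem_W hy w0).1 h)]
  have b : (∑ i ∈ Finset.univ.filter fun i => H.w y i y = w0, ‖u i / H.s y i y‖ ^ 2) *
      C.wt q M y.1 (pt y.2 w0) = ∑ i ∈ Finset.univ.filter fun i => H.w y i y = w0, ‖u i‖ ^ 2 := by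
    rw [Finset.sum_mul]
    refine Finset.sum_congr rfl fun i hi => ?_
    have := norm_ne_zero_iff.2 (H.s_ne hy i)
    rw [← (Finset.mem_filter.1 hi).2, H.wt_eq hy, norm_div]
    field_simp
  have p : 0 ≤ C.wt q M y.1 (pt y.2 w0) := Real.rpow_nonneg (norm_nonneg _) _
  have n : 0 ≤ ∑ i ∈ Finset.univ.filter fun i => H.w y i y = w0, ‖u i‖ ^ 2 :=
    Finset.sum_nonneg fun _ _ => sq_nonneg _
  change ‖(M : ℂ)⁻¹ * _‖ ^ 2 * _ ≤ _
  rw [norm_mul, mul_pow, norm_inv, Complex.norm_natCast]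
  calc _ ≤ (M : ℝ)⁻¹ ^ 2 * (M * ∑ i ∈ Finset.univ.filter fun i => H.w y i y = w0,
        ‖u i / H.s y i y‖ ^ 2) * C.wt q M y.1 (pt y.2 w0) := by gcongr
    _ = (M : ℝ)⁻¹ * ∑ i ∈ Finset.univ.filter fun i => H.w y i y = w0, ‖u i‖ ^ 2 := by
        rw [← b]
        field_simp
    _ ≤ _ := mul_le_of_le_one_left n (inv_le_one_of_one_le₀ M1)

variable [CompleteSpace A] {E : Type} [NormedAddCommGroup E] [NormedSpace ℂ E]
  {γ : E → A × (κ × ν → ℂ)} {e : E}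

theorem ana_sheet (hγ : Plot Ω γ e) (i : Fin d) :
    AnalyticAt ℂ (fun e' => H.w (γ e) i (γ e')) e ∧ AnalyticAt ℂ (fun e' => H.s (γ e) i (γ e')) e ∧
      ∀ᶠ e' in 𝓝 e, (H.K.σ (γ e) i (γ e')).1.1 = γ e' ∧
        pt (γ e').2 (H.w (γ e) i (γ e')) ∈ C.Fk (γ e').1 := by
  have pr : ∀ᶠ e' in 𝓝 e, (H.K.σ (γ e) i (γ e')).1.1 = γ e' :=
    (hγ.tendsto.eventually (H.K.sh _ hγ.mem)).mono fun _ h => (h.1 i).2
  have c : ContinuousAt (fun e' => H.K.σ (γ e) i (γ e')) e :=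
    (((H.K.sh _ hγ.mem).self hγ.mem).1 i).1.tendsto.comp hγ.tendsto
  have t : ∀ᶠ e' in 𝓝 e, C.T1 q M (γ e', (H.K.σ (γ e) i (γ e')).1.2) := pr.mono fun e' h => by
    have := (H.K.σ (γ e) i (γ e')).2
    rwa [← Prod.mk.eta (p := (H.K.σ (γ e) i (γ e')).1), h] at this
  have a := (C.al1 H.sub H.hΔ H.pos hγ.mem (H.hq _ hγ.mem)).ana hγ
    (l := fun e' => (H.K.σ (γ e) i (γ e')).1.2)
    ((continuous_snd.comp continuous_subtype_val).continuousAt.comp c) t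
  exact ⟨analyticAt_fst.comp a, analyticAt_snd.comp a, (pr.and t).mono fun _ h => ⟨h.1, h.2.1⟩⟩

theorem ana_lift (hγ : Plot Ω γ e) {Φ : E → (κ → Vp ν) → ℂ}
    (h : ∀ ω : E → κ → ℂ, AnalyticAt ℂ ω e → (∀ᶠ e' in 𝓝 e, pt (γ e').2 (ω e') ∈ C.Fk (γ e').1) →
      AnalyticAt ℂ (fun e' => Φ e' (pt (γ e').2 (ω e'))) e) (i : Fin d) :
    AnalyticAt ℂ (fun e' => lift (Φ e') (H.K.σ (γ e) i (γ e'))) e := by
  obtain ⟨h1, h2, h3⟩ := H.ana_sheet hγ i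
  refine (h2.mul (h _ h1 (h3.mono fun _ g => g.2))).congr (h3.mono fun e' g => ?_)
  simp only [lift, g.1]
  rfl

theorem ana_dnf (hγ : Plot Ω γ e) {u : E → Fin d → ℂ}
    (hu : AnalyticAt ℂ (fun e' => cx (H.K.V0.κ (γ e) (γ e')) *ᵥ u e') e) {ω : E → κ → ℂ}
    (hω : ContinuousAt ω e) (hm : ∀ᶠ e' in 𝓝 e, pt (γ e').2 (ω e') ∈ C.Fk (γ e').1) :
    AnalyticAt ℂ (fun e' => H.dnf (γ e') (ω e') (u e')) e := by
  classical
  have k : ∀ᶠ e' in 𝓝 e, ∀ i, H.w (γ e) i (γ e') = ω e' ↔ H.w (γ e) i (γ e) = ω e := by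
    refine eventually_all.2 fun i => ?_
    obtain ⟨h1, -, h3⟩ := H.ana_sheet hγ i
    by_cases g : H.w (γ e) i (γ e) = ω e
    · exact ((C.al0 H.sub H.hΔ hγ.mem).uniq hγ h1.continuousAt (h3.mono fun _ g => g.2) hω hm
        g).mono fun _ g' => iff_of_true g' g
    · exact ((h1.continuousAt.prodMk hω).eventually (isClosed_diagonal.isOpen_compl.mem_nhds
        (x := (H.w (γ e) i (γ e), ω e)) g)).mono fun _ g' => iff_of_false g' g
  have a : AnalyticAt ℂ (fun e' => (M : ℂ)⁻¹ *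
      ∑ i ∈ Finset.univ.filter fun i => H.w (γ e) i (γ e) = ω e,
        (cx (H.K.V0.κ (γ e) (γ e')) *ᵥ u e') i / H.s (γ e) i (γ e')) e :=
    analyticAt_const.mul (Finset.analyticAt_fun_sum _ fun i _ =>
      (analyticAt_pi_iff.1 hu i).div (H.ana_sheet hγ i).2.1 (H.s_ne hγ.mem i))
  refine a.congr ?_
  filter_upwards [k, hγ.tendsto.eventually (H.K.prm_ev hγ.mem)] with e' g1 g2
  change _ = (M : ℂ)⁻¹ * _
  congr 1
  rw [Finset.sum_filter, Finset.sum_filter, ← Equiv.sum_comp (H.K.prm (γ e) (γ e'))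
    fun i => if H.w (γ e') i (γ e') = ω e' then u e' i / H.s (γ e') i (γ e') else 0]
  refine Finset.sum_congr rfl fun i _ => ?_
  have g3 := (g1 i).symm
  simp only [w, g2 i] at g3
  simp only [Cov.V0_κ, w, s, g2 i, g3]

end Sh

end

end Pool.Agent.Lib.MP_5c318e_ag.Ku
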